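import Pool.Agent.U322.LR.Order
import Pool.Agent.R934.LR.Chrom

/-!
Colourings and orders of graphs with few eigenvalues of one sign.
-/

set_option autoImplicit false
set_option linter.unusedSectionVars false

namespace Pool.Agent.U322.LR

open Finset Pool.Agent.H630R2.LR Pool.Agent.R533.VC

section
variable {X : Type} [Fintype X] [DecidableEq X]

theorem Few.restrict (F : X → X → Bool) (k : ℕ) (lam : ℝ) (h : Few (comm F) k lam)
    (W : Finset X) : Few (comm (fun x y : W => F x.1 y.1)) k lam := by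
  classical
  obtain ⟨ι, _, f, hι, hf⟩ := h
  refine ⟨ι, inferInstance, fun j x => f j x.1, hι, fun v hv => ?_⟩
  set w : X → ℝ := fun x => if h : x ∈ W then v ⟨x, h⟩ else 0 with hw
  have hsum : ∀ g : X → ℝ, (∀ x, x ∉ W → g x = 0) → ∑ x, g x = ∑ x : W, g x.1 := by
    intro g hg
    rw [← sum_subset (subset_univ W) (fun x _ hx => hg x hx), ← sum_coe_sort W]
  have hwW : ∀ x : W, w x.1 = v x := by
    intro x
    rw [hw]
    simp only [x.2, dif_pos]
  have hw0 : ∀ x, x ∉ W → w x = 0 := by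
    intro x hx
    rw [hw]
    simp only [hx, dif_neg, not_false_eq_true]
  have h1 := hf w (fun j => by
    rw [hsum _ (fun x hx => by rw [hw0 x hx, mul_zero])]
    rw [← hv j]
    exact sum_congr rfl fun x _ => by rw [hwW])
  have e1 : ∑ x, w x ^ 2 = ∑ x, v x ^ 2 := by
    rw [hsum _ (fun x hx => by rw [hw0 x hx]; norm_num)]
    exact sum_congr rfl fun x _ => by rw [hwW]
  have e2 : ∑ x, ∑ y, w x * w y * comm F x y =
      ∑ x, ∑ y, v x * v y * comm (fun x y : W => F x.1 y.1) x y := by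
    rw [hsum _ (fun x hx => by
      refine sum_eq_zero fun y _ => ?_
      rw [hw0 x hx]
      ring)]
    refine sum_congr rfl fun x _ => ?_
    rw [hsum _ (fun y hy => by rw [hw0 y hy]; ring)]
    refine sum_congr rfl fun y _ => ?_
    rw [hwW, hwW]
    rfl
  rw [e1, e2] at h1
  exact h1

theorem herm_of_sym (F : X → X → Bool) (h : ∀ x y, F x y = F y x) : (comm F).IsHermitian := by
  ext x y
  rw [Matrix.conjTranspose_apply, star_trivial]
  show (if F y x then (1 : ℝ) else 0) = if F x y then 1 else 0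
  rw [h]

/-- constant blocks in all sets -/
theorem block_in (F : X → X → Bool) (hsym : ∀ x y, F x y = F y x) (k : ℕ) (lam : ℝ)
    (hlam : 0 ≤ lam) (hfew : Few (comm F) k lam) (r : ℕ) (hr1 : 1 ≤ r) (hr : (comm F).rank ≤ r)
    (a : Bool) (hdiag : ∀ x, F x x = a) (W : Finset X) :
    ∃ I ⊆ W, (∀ x ∈ I, ∀ y ∈ I, F x y = a) ∧
      W.card ≤ (2 * (8 * k + 9) ^ k * (if a then r else 1) + ⌈128 * lam * r⌉₊) * I.card := by
  classical
  rcases W.eq_empty_or_nonempty with hW | hW
  · refine ⟨∅, empty_subset _, fun x hx => absurd hx (notMem_empty _), ?_⟩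
    rw [hW]
    simp
  by_cases hn : 128 * lam * r ≤ W.card
  · obtain ⟨G, hG, hcl⟩ := cluster (fun x y : W => F x.1 y.1)
      (herm_of_sym _ fun x y => hsym _ _) k lam hlam (Few.restrict F k lam hfew W) r hr1
      ((Matrix.rank_submatrix_le (comm F) (fun x : W => x.1) (fun x : W => x.1)).trans hr)
      (by rw [Fintype.card_coe]; exact hn)
    obtain ⟨Q, hQ, hQa, hQc⟩ := hcl G subset_rfl a (fun x _ => hdiag x.1)
    rw [Fintype.card_coe] at hG
    refine ⟨Q.image (fun x => x.1), ?_, ?_, ?_⟩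
    · intro x hx
      rw [mem_image] at hx
      obtain ⟨y, _, rfl⟩ := hx
      exact y.2
    · intro x hx y hy
      rw [mem_image] at hx hy
      obtain ⟨x', hx', rfl⟩ := hx
      obtain ⟨y', hy', rfl⟩ := hy
      exact hQa x' hx' y' hy'
    · rw [card_image_of_injective _ Subtype.val_injective]
      calc W.card ≤ 2 * G.card := hG
        _ ≤ 2 * ((8 * k + 9) ^ k * (if a then r else 1) * Q.card) := Nat.mul_le_mul_left _ hQc
        _ = (2 * (8 * k + 9) ^ k * (if a then r else 1)) * Q.card := by ring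
        _ ≤ _ := Nat.mul_le_mul_right _ (Nat.le_add_right _ _)
  · push Not at hn
    obtain ⟨x, hx⟩ := hW
    refine ⟨{x}, by simpa using hx, ?_, ?_⟩
    · intro y hy z hz
      rw [mem_singleton] at hy hz
      rw [hy, hz]
      exact hdiag x
    · rw [card_singleton, mul_one]
      have h1 : (W.card : ℝ) ≤ ⌈128 * lam * r⌉₊ := hn.le.trans (Nat.le_ceil _)
      have h2 : W.card ≤ ⌈128 * lam * r⌉₊ := by exact_mod_cast h1
      exact h2.trans (Nat.le_add_left _ _)

theorem few_compl (F : X → X → Bool) (hF : (comm F).IsHermitian) (k : ℕ) (lam : ℝ)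
    (h : (univ.filter (fun i => lam < hF.eigenvalues i)).card ≤ k) :
    Few (comm (fun x y => !F x y)) k lam := by
  refine ⟨univ.filter (fun i => lam < hF.eigenvalues i), inferInstance,
    fun i x => ev hF i.1 x, by rw [Fintype.card_coe]; exact h, fun v hv => ?_⟩
  have e1 : ∑ x, ∑ y, v x * v y * comm (fun x y => !F x y) x y =
      (∑ x, v x) ^ 2 - ∑ x, ∑ y, v x * v y * comm F x y := by
    rw [sq, sum_mul_sum, ← sum_sub_distrib]
    refine sum_congr rfl fun x _ => ?_
    rw [← sum_sub_distrib]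
    refine sum_congr rfl fun y _ => ?_
    show v x * v y * (if (!F x y) then (1 : ℝ) else 0) =
      v x * v y - v x * v y * (if F x y then (1 : ℝ) else 0)
    cases F x y <;> simp
  have e2 : ∑ x, ∑ y, v x * v y * comm F x y ≤ lam * ∑ x, v x ^ 2 := by
    rw [quad hF v, ← ev_parseval hF v, mul_sum]
    refine sum_le_sum fun i _ => ?_
    by_cases hi : lam < hF.eigenvalues i
    · have h1 := hv ⟨i, by simpa using hi⟩
      simp only at h1
      rw [h1]
      simp
    · push Not at hi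
      exact mul_le_mul_of_nonneg_right hi (sq_nonneg _)
  rw [e1]
  nlinarith [sq_nonneg (∑ x, v x)]

/-- the number of the points of a matrix with constant diagonal and without equal rows -/
theorem order_nat (F : X → X → Bool) (hsym : ∀ x y, F x y = F y x) (k : ℕ) (lam : ℝ)
    (hlam : 0 ≤ lam) (hfew : Few (comm F) k lam) (r : ℕ) (hr1 : 1 ≤ r) (hr : (comm F).rank ≤ r)
    (a : Bool) (hdiag : ∀ x, F x x = a) (htw : ∀ y y', (∀ x, F x y = F x y') → y = y')
    (t : ℕ) (ht : ((k : ℝ) + 1 + 4 * lam) ^ 2 < (t + 1) * 2 ^ (k + 1)) :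
    Fintype.card X ≤ ⌈128 * lam * r⌉₊ + 2 * (8 * k + 9) ^ k * (if a then r else 1) *
      (∑ i ∈ range (k + 1), r.choose i + t * r.choose (k + 1)) := by
  classical
  by_cases hn : 128 * lam * r ≤ Fintype.card X
  · obtain ⟨G, hG, hcl⟩ := cluster F (herm_of_sym F hsym) k lam hlam hfew r hr1 hr hn
    obtain ⟨Q, hQ, hQa, hQc⟩ := hcl G subset_rfl a (fun x _ => hdiag x)
    obtain ⟨R, hR, hRt⟩ := exists_trace F
    have h1 := block_le F hsym k lam hlam hfew Q a hQa R
      (fun y _ y' _ h => htw y y' (hRt y y' h)) t ht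
    have hRr : R.card ≤ r := hR.trans hr
    have h2 : ∑ i ∈ range (k + 1), R.card.choose i + t * R.card.choose (k + 1) ≤
        ∑ i ∈ range (k + 1), r.choose i + t * r.choose (k + 1) :=
      Nat.add_le_add (sum_le_sum fun i _ => Nat.choose_le_choose i hRr)
        (Nat.mul_le_mul_left _ (Nat.choose_le_choose _ hRr))
    calc Fintype.card X ≤ 2 * G.card := hG
      _ ≤ 2 * ((8 * k + 9) ^ k * (if a then r else 1) * Q.card) := Nat.mul_le_mul_left _ hQc
      _ = (2 * (8 * k + 9) ^ k * (if a then r else 1)) * Q.card := by ring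
      _ ≤ (2 * (8 * k + 9) ^ k * (if a then r else 1)) *
          (∑ i ∈ range (k + 1), r.choose i + t * r.choose (k + 1)) :=
          Nat.mul_le_mul_left _ (h1.trans h2)
      _ ≤ _ := Nat.le_add_left _ _
  · push Not at hn
    have h1 : (Fintype.card X : ℝ) ≤ ⌈128 * lam * r⌉₊ := hn.le.trans (Nat.le_ceil _)
    have h2 : Fintype.card X ≤ ⌈128 * lam * r⌉₊ := by exact_mod_cast h1
    exact h2.trans (Nat.le_add_right _ _)

end

/-! ### numbers -/

theorem fact_pow (k : ℕ) : ((8 : ℝ) * k + 9) ^ k ≤ 27 ^ (k + 1) / 9 * k.factorial := by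
  have h1 : ((k : ℝ) + 1) ^ (k + 1) / (k + 1).factorial ≤ Real.exp (k + 1) := by
    have := Real.pow_div_factorial_le_exp ((k : ℝ) + 1) (by positivity) (k + 1)
    exact this
  have h2 : Real.exp ((k : ℝ) + 1) ≤ 3 ^ (k + 1) := by
    have e : Real.exp ((k : ℝ) + 1) = Real.exp 1 ^ (k + 1) := by
      rw [← Real.exp_nat_mul]
      congr 1
      push_cast
      ring
    rw [e]
    exact pow_le_pow_left₀ (Real.exp_pos _).le (by linarith [Real.exp_one_lt_d9]) _
  have h3 : ((k : ℝ) + 1) ^ k ≤ 3 ^ (k + 1) * k.factorial := by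
    have h4 := h1.trans h2
    rw [div_le_iff₀ (by positivity), Nat.factorial_succ, pow_succ ((k : ℝ) + 1)] at h4
    push_cast at h4
    have hk : (0 : ℝ) < (k : ℝ) + 1 := by positivity
    have h5 : ((k : ℝ) + 1) ^ k * ((k : ℝ) + 1) ≤ (3 ^ (k + 1) * k.factorial) * ((k : ℝ) + 1) := by
      linarith
    exact le_of_mul_le_mul_right h5 hk
  calc ((8 : ℝ) * k + 9) ^ k ≤ (9 * (k + 1)) ^ k := by
        refine pow_le_pow_left₀ (by positivity) ?_ k
        have : (0 : ℝ) ≤ k := Nat.cast_nonneg k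
        linarith
    _ = 9 ^ k * (k + 1) ^ k := by rw [mul_pow]
    _ ≤ 9 ^ k * (3 ^ (k + 1) * k.factorial) := mul_le_mul_of_nonneg_left h3 (by positivity)
    _ = 27 ^ (k + 1) / 9 * k.factorial := by
        have : (27 : ℝ) ^ (k + 1) = 9 * 9 ^ k * 3 ^ (k + 1) := by
          rw [show (27 : ℝ) = 9 * 3 by norm_num, mul_pow, pow_succ (9 : ℝ)]
          ring
        rw [this]
        ring

theorem choose_pow (r k i : ℕ) (hk : k ≤ r) (hi : i ≤ k) :
    (r.choose i : ℝ) ≤ (r : ℝ) ^ k / k.factorial := by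
  have h1 : (r.choose i : ℝ) ≤ (r : ℝ) ^ i / i.factorial := Nat.choose_le_pow_div i r
  refine h1.trans ?_
  rw [div_le_div_iff₀ (by positivity) (by positivity)]
  have h2 : i.factorial * k.descFactorial (k - i) = k.factorial := by
    have := Nat.factorial_mul_descFactorial (Nat.sub_le k i)
    rwa [Nat.sub_sub_self hi] at this
  have h3 : k.descFactorial (k - i) ≤ r ^ (k - i) :=
    (Nat.descFactorial_le_pow _ _).trans (Nat.pow_le_pow_left hk _)
  have h4 : k.factorial ≤ i.factorial * r ^ (k - i) := by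
    rw [← h2]
    exact Nat.mul_le_mul_left _ h3
  have h5 : (k.factorial : ℝ) ≤ i.factorial * (r : ℝ) ^ (k - i) := by exact_mod_cast h4
  calc (r : ℝ) ^ i * k.factorial ≤ (r : ℝ) ^ i * (i.factorial * (r : ℝ) ^ (k - i)) :=
        mul_le_mul_of_nonneg_left h5 (by positivity)
    _ = ((r : ℝ) ^ i * (r : ℝ) ^ (k - i)) * i.factorial := by ring
    _ = (r : ℝ) ^ k * i.factorial := by
        rw [← pow_add]
        congr 2
        omega

theorem order_num (k r : ℕ) (hr1 : 1 ≤ r) (hk : k ≤ r) (lam : ℝ) (hlam : 0 ≤ lam) (t : ℕ)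
    (ht : (t : ℝ) * 2 ^ (k + 1) ≤ ((k : ℝ) + 1 + 4 * lam) ^ 2) :
    (⌈128 * lam * r⌉₊ : ℝ) + 2 * ((8 : ℝ) * k + 9) ^ k *
      ((∑ i ∈ range (k + 1), r.choose i + t * r.choose (k + 1) : ℕ) : ℝ) ≤
      (27 * r) ^ (k + 1) * ((k : ℝ) + 1 + 4 * lam) ^ 2 := by
  have hr0 : (1 : ℝ) ≤ r := by exact_mod_cast hr1
  set y := ((k : ℝ) + 1 + 4 * lam) ^ 2 with hy
  have hk0 : (0 : ℝ) ≤ k := Nat.cast_nonneg k
  have hy1 : (k : ℝ) + 1 ≤ y := by
    rw [hy]
    nlinarith
  have hy2 : 16 * lam ≤ y := by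
    rw [hy]
    nlinarith [sq_nonneg ((k : ℝ) + 1 - 4 * lam)]
  have hy0 : 1 ≤ y := by linarith
  set A : ℝ := 27 ^ (k + 1) with hA
  have hA27 : 27 ≤ A := by
    rw [hA, pow_succ]
    have : (1 : ℝ) ≤ 27 ^ k := one_le_pow₀ (by norm_num)
    linarith
  have hrk : (r : ℝ) ≤ r ^ (k + 1) := by
    rw [pow_succ]
    have : (1 : ℝ) ≤ (r : ℝ) ^ k := one_le_pow₀ hr0
    nlinarith
  have hrk2 : (r : ℝ) ^ k ≤ r ^ (k + 1) := pow_le_pow_right₀ hr0 (Nat.le_succ k)
  have hceil : (⌈128 * lam * r⌉₊ : ℝ) ≤ 128 * lam * r + 1 :=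
    (Nat.ceil_lt_add_one (by positivity)).le
  have hfp := fact_pow k
  have hkf : (0 : ℝ) < k.factorial := by positivity
  -- the sum
  have h1 : ((∑ i ∈ range (k + 1), r.choose i : ℕ) : ℝ) ≤ (k + 1) * ((r : ℝ) ^ k / k.factorial) := by
    push_cast
    calc ∑ i ∈ range (k + 1), (r.choose i : ℝ) ≤ ∑ i ∈ range (k + 1), (r : ℝ) ^ k / k.factorial :=
          sum_le_sum fun i hi => choose_pow r k i hk (Nat.lt_succ_iff.mp (mem_range.mp hi))
      _ = _ := by
          rw [sum_const, card_range, nsmul_eq_mul]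
          push_cast
          ring
  have h2 : 2 * ((8 : ℝ) * k + 9) ^ k * ((∑ i ∈ range (k + 1), r.choose i : ℕ) : ℝ) ≤
      2 / 9 * A * y * r ^ (k + 1) := by
    calc 2 * ((8 : ℝ) * k + 9) ^ k * ((∑ i ∈ range (k + 1), r.choose i : ℕ) : ℝ)
        ≤ 2 * (A / 9 * k.factorial) * ((k + 1) * ((r : ℝ) ^ k / k.factorial)) :=
          mul_le_mul (mul_le_mul_of_nonneg_left hfp (by norm_num)) h1 (Nat.cast_nonneg _)
            (by positivity)
      _ = 2 / 9 * A * (k + 1) * r ^ k := by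
          field_simp
      _ ≤ 2 / 9 * A * y * r ^ (k + 1) := by
          apply mul_le_mul _ hrk2 (by positivity) (by positivity)
          exact mul_le_mul_of_nonneg_left hy1 (by positivity)
  have h3 : 2 * ((8 : ℝ) * k + 9) ^ k * ((t * r.choose (k + 1) : ℕ) : ℝ) ≤
      1 / 9 * A * y * r ^ (k + 1) := by
    have e1 : (r.choose (k + 1) : ℝ) ≤ (r : ℝ) ^ (k + 1) / (k + 1).factorial :=
      Nat.choose_le_pow_div (k + 1) r
    have e2 : (t : ℝ) ≤ y / 2 := by
      have : (2 : ℝ) ≤ 2 ^ (k + 1) := by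
        rw [pow_succ]
        have : (1 : ℝ) ≤ 2 ^ k := one_le_pow₀ (by norm_num)
        linarith
      have h0 : (0 : ℝ) ≤ t := Nat.cast_nonneg t
      nlinarith
    have e3 : (r : ℝ) ^ (k + 1) / (k + 1).factorial ≤ (r : ℝ) ^ (k + 1) / k.factorial := by
      apply div_le_div_of_nonneg_left (by positivity) hkf
      exact_mod_cast Nat.factorial_le (Nat.le_succ k)
    push_cast
    calc 2 * ((8 : ℝ) * k + 9) ^ k * ((t : ℝ) * r.choose (k + 1))
        ≤ 2 * (A / 9 * k.factorial) * (y / 2 * ((r : ℝ) ^ (k + 1) / k.factorial)) := by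
          apply mul_le_mul (mul_le_mul_of_nonneg_left hfp (by norm_num)) _ (by positivity)
            (by positivity)
          exact mul_le_mul e2 (e1.trans e3) (by positivity) (by positivity)
      _ = 1 / 9 * A * y * r ^ (k + 1) := by
          field_simp
  have h4 : 128 * lam * r + 1 ≤ 9 * y * r ^ (k + 1) := by
    have e1 : 16 * lam * r ≤ y * r ^ (k + 1) := mul_le_mul hy2 hrk (by positivity) (by positivity)
    have e2 : 1 ≤ y * r ^ (k + 1) := by
      have : (1 : ℝ) ≤ (r : ℝ) ^ (k + 1) := hr0.trans hrk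
      nlinarith
    linarith
  have h5 : 9 * y * r ^ (k + 1) ≤ 1 / 3 * A * y * r ^ (k + 1) := by
    apply mul_le_mul_of_nonneg_right _ (by positivity)
    apply mul_le_mul_of_nonneg_right _ (by linarith)
    linarith
  rw [Nat.cast_add, mul_add, mul_pow, ← hA]
  have h6 : 0 ≤ A * y * r ^ (k + 1) := by positivity
  linarith

end Pool.Agent.U322.LR
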