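import Pool.Agent.U322.LR.Spec

/-!
Large constant principal submatrices of symmetric Boolean matrices with few eigenvalues below `-lam`.
-/

set_option autoImplicit false
set_option linter.unusedSectionVars false

namespace Pool.Agent.U322.LR

open Finset Pool.Agent.H630R2.LR Pool.Agent.R533.VC

section
variable {X : Type} [Fintype X] [DecidableEq X]

/-- lower bound for a quadratic form -/
theorem form_lower {M : Matrix X X ℝ} (hM : M.IsHermitian) (lam : ℝ) (t : X → ℝ) (a b : ℝ)
    (ha : ∑ i ∈ univ.filter (fun i => hM.eigenvalues i < -lam), |hM.eigenvalues i| * t i ^ 2 ≤ a)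
    (hb : ∑ i ∈ univ.filter (fun i => -lam ≤ hM.eigenvalues i ∧ hM.eigenvalues i < 0),
      |hM.eigenvalues i| * t i ^ 2 ≤ b) :
    -(a + b) ≤ ∑ i, hM.eigenvalues i * t i ^ 2 := by
  have h1 : ∀ i, -((if hM.eigenvalues i < -lam then |hM.eigenvalues i| * t i ^ 2 else 0) +
      (if -lam ≤ hM.eigenvalues i ∧ hM.eigenvalues i < 0 then |hM.eigenvalues i| * t i ^ 2 else 0)) ≤
      hM.eigenvalues i * t i ^ 2 := by
    intro i
    have hsq : 0 ≤ t i ^ 2 := sq_nonneg _
    rcases lt_or_ge (hM.eigenvalues i) 0 with hneg | hpos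
    · rw [abs_of_neg hneg]
      by_cases h2 : hM.eigenvalues i < -lam
      · rw [if_pos h2, if_neg (fun h => absurd h.1 (not_le.mpr h2))]
        linarith
      · rw [if_neg h2, if_pos ⟨not_lt.mp h2, hneg⟩]
        linarith
    · have h3 : 0 ≤ hM.eigenvalues i * t i ^ 2 := mul_nonneg hpos hsq
      have h4 : 0 ≤ (if hM.eigenvalues i < -lam then |hM.eigenvalues i| * t i ^ 2 else 0) := by
        split_ifs
        · positivity
        · exact le_rfl
      have h5 : 0 ≤ (if -lam ≤ hM.eigenvalues i ∧ hM.eigenvalues i < 0 then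
          |hM.eigenvalues i| * t i ^ 2 else 0) := by
        split_ifs
        · positivity
        · exact le_rfl
      linarith
  have h2 := sum_le_sum (s := univ) fun i _ => h1 i
  rw [sum_neg_distrib, sum_add_distrib, ← sum_filter, ← sum_filter] at h2
  linarith

/-- **Clusters.** -/
theorem cluster (F : X → X → Bool) (hF : (comm F).IsHermitian) (k : ℕ) (lam : ℝ) (hlam : 0 ≤ lam)
    (hfew : Few (comm F) k lam) (r : ℕ) (hr1 : 1 ≤ r) (hr : (comm F).rank ≤ r)
    (hn : 128 * lam * r ≤ Fintype.card X) :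
    ∃ G : Finset X, Fintype.card X ≤ 2 * G.card ∧ ∀ W ⊆ G, ∀ a : Bool, (∀ x ∈ W, F x x = a) →
      ∃ Q ⊆ W, (∀ x ∈ Q, ∀ y ∈ Q, F x y = a) ∧
        W.card ≤ (8 * k + 9) ^ k * (if a then r else 1) * Q.card := by
  classical
  set n := Fintype.card X with hnX
  set μ := hF.eigenvalues with hμ
  set I := univ.filter (fun i => μ i < -lam) with hI
  set J := univ.filter (fun i => -lam ≤ μ i ∧ μ i < 0) with hJ
  have hIk : I.card ≤ k := few_big (comm F) k lam lam (fun _ => 1) hfew (fun x => by simp) hF
    (fun x y => by simp)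
  have hk1 : (0 : ℝ) < Real.sqrt (k + 1) := Real.sqrt_pos.mpr (by positivity)
  have hk1' : (1 : ℝ) ≤ k + 1 := by
    have : (0 : ℝ) ≤ k := Nat.cast_nonneg k
    linarith
  have hk2 : Real.sqrt ((k : ℝ) + 1) ^ 2 = k + 1 := Real.sq_sqrt (by positivity)
  have hk3 : Real.sqrt ((k : ℝ) + 1) ≤ k + 1 := by
    rw [Real.sqrt_le_iff]
    constructor
    · linarith
    · nlinarith
  set Qn : X → ℝ := fun x => ∑ i ∈ I, |μ i| * ev hF i x ^ 2 with hQn
  set En : X → ℝ := fun x => ∑ i ∈ J, |μ i| * ev hF i x ^ 2 with hEn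
  have hQ0 : ∀ x, 0 ≤ Qn x := fun x => sum_nonneg fun i _ => by positivity
  have hE0 : ∀ x, 0 ≤ En x := fun x => sum_nonneg fun i _ => by positivity
  have hev1 : ∀ i, ∑ x, ev hF i x ^ 2 = 1 := by
    intro i
    have e := ev_orth hF i i
    simp only [if_true] at e
    rw [← e]
    exact sum_congr rfl fun x _ => sq _
  have hswap : ∀ S : Finset X, ∑ x, ∑ i ∈ S, |μ i| * ev hF i x ^ 2 = ∑ i ∈ S, |μ i| := by
    intro S
    rw [sum_comm]
    refine sum_congr rfl fun i _ => ?_
    rw [← mul_sum, hev1, mul_one]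
  have hsq : ∑ i, μ i ^ 2 ≤ (n : ℝ) ^ 2 := by
    rw [hμ, sum_sq hF]
    calc ∑ x, ∑ y, comm F x y ^ 2 ≤ ∑ x : X, ∑ y : X, (1 : ℝ) := by
          refine sum_le_sum fun x _ => sum_le_sum fun y _ => ?_
          show (if F x y then (1 : ℝ) else 0) ^ 2 ≤ 1
          split_ifs <;> norm_num
      _ = (n : ℝ) ^ 2 := by
          simp only [sum_const, card_univ, nsmul_eq_mul, mul_one]
          rw [← hnX]
          ring
  have hQsum : ∑ x, Qn x ≤ Real.sqrt (k + 1) * n := by
    rw [hswap I]
    have h1 : (∑ i ∈ I, |μ i|) ^ 2 ≤ (Real.sqrt (k + 1) * n) ^ 2 := by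
      calc (∑ i ∈ I, |μ i|) ^ 2 ≤ I.card * ∑ i ∈ I, |μ i| ^ 2 := sq_sum_le_card_mul_sum_sq
        _ ≤ (k + 1) * (n : ℝ) ^ 2 := by
            refine mul_le_mul ?_ ?_ (sum_nonneg fun _ _ => sq_nonneg _) (by positivity)
            · have : (I.card : ℝ) ≤ k := by exact_mod_cast hIk
              linarith
            · refine le_trans ?_ hsq
              simp_rw [sq_abs]
              exact sum_le_sum_of_subset_of_nonneg (subset_univ _) fun _ _ _ => sq_nonneg _
        _ = _ := by rw [mul_pow, hk2]
    exact le_of_sq_le_sq h1 (by positivity)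
  have hEsum : ∑ x, En x ≤ lam * r := by
    rw [hswap J]
    have hJc : J.card ≤ r := by
      refine le_trans ?_ hr
      rw [hF.rank_eq_card_non_zero_eigs, Fintype.card_subtype]
      refine card_le_card fun i hi => ?_
      rw [hJ, mem_filter] at hi
      rw [mem_filter]
      exact ⟨mem_univ _, hi.2.2.ne⟩
    calc ∑ i ∈ J, |μ i| ≤ ∑ i ∈ J, lam := by
          refine sum_le_sum fun i hi => ?_
          rw [hJ, mem_filter] at hi
          rw [abs_of_neg hi.2.2]
          linarith [hi.2.1]
      _ = J.card * lam := by rw [sum_const, nsmul_eq_mul]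
      _ ≤ r * lam := mul_le_mul_of_nonneg_right (by exact_mod_cast hJc) hlam
      _ = _ := mul_comm _ _
  set G := univ.filter (fun x => Qn x ≤ 4 * Real.sqrt (k + 1) ∧ En x ≤ 1 / 32) with hG
  have hbad1 : 4 * ((univ.filter (fun x => ¬ Qn x ≤ 4 * Real.sqrt (k + 1))).card : ℝ) ≤ n := by
    have h1 : 4 * Real.sqrt (k + 1) *
        ((univ.filter (fun x => ¬ Qn x ≤ 4 * Real.sqrt (k + 1))).card : ℝ) ≤
        Real.sqrt (k + 1) * n := by
      refine le_trans ?_ hQsum
      calc 4 * Real.sqrt (k + 1) *
          ((univ.filter (fun x => ¬ Qn x ≤ 4 * Real.sqrt (k + 1))).card : ℝ)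
          = ∑ x ∈ univ.filter (fun x => ¬ Qn x ≤ 4 * Real.sqrt (k + 1)),
            4 * Real.sqrt (k + 1) := by
            rw [sum_const, nsmul_eq_mul]; ring
        _ ≤ ∑ x ∈ univ.filter (fun x => ¬ Qn x ≤ 4 * Real.sqrt (k + 1)), Qn x := by
            refine sum_le_sum fun x hx => ?_
            rw [mem_filter] at hx
            exact (not_le.mp hx.2).le
        _ ≤ _ := sum_le_sum_of_subset_of_nonneg (filter_subset _ _) fun x _ _ => hQ0 x
    have h2 : Real.sqrt (k + 1) *
        (4 * ((univ.filter (fun x => ¬ Qn x ≤ 4 * Real.sqrt (k + 1))).card : ℝ)) ≤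
        Real.sqrt (k + 1) * n := by linarith
    exact le_of_mul_le_mul_left h2 hk1
  have hbad2 : 4 * ((univ.filter (fun x => ¬ En x ≤ 1 / 32)).card : ℝ) ≤ n := by
    have h1 : 1 / 32 * ((univ.filter (fun x => ¬ En x ≤ 1 / 32)).card : ℝ) ≤ lam * r := by
      refine le_trans ?_ hEsum
      calc 1 / 32 * ((univ.filter (fun x => ¬ En x ≤ 1 / 32)).card : ℝ)
          = ∑ x ∈ univ.filter (fun x => ¬ En x ≤ 1 / 32), 1 / 32 := by
            rw [sum_const, nsmul_eq_mul]; ring
        _ ≤ ∑ x ∈ univ.filter (fun x => ¬ En x ≤ 1 / 32), En x := by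
            refine sum_le_sum fun x hx => ?_
            rw [mem_filter] at hx
            exact (not_le.mp hx.2).le
        _ ≤ _ := sum_le_sum_of_subset_of_nonneg (filter_subset _ _) fun x _ _ => hE0 x
    linarith
  have hGc : n ≤ 2 * G.card := by
    have h1 : (univ : Finset X) ⊆ G ∪ (univ.filter (fun x => ¬ Qn x ≤ 4 * Real.sqrt (k + 1)) ∪
        univ.filter (fun x => ¬ En x ≤ 1 / 32)) := by
      intro x _
      rw [mem_union, mem_union, hG, mem_filter, mem_filter, mem_filter]
      by_cases hx1 : Qn x ≤ 4 * Real.sqrt (k + 1)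
      · by_cases hx2 : En x ≤ 1 / 32
        · exact Or.inl ⟨mem_univ _, hx1, hx2⟩
        · exact Or.inr (Or.inr ⟨mem_univ _, hx2⟩)
      · exact Or.inr (Or.inl ⟨mem_univ _, hx1⟩)
    have h2 := (card_le_card h1).trans ((card_union_le _ _).trans
      (Nat.add_le_add_left (card_union_le _ _) _))
    rw [card_univ, ← hnX] at h2
    have h3 : (n : ℝ) ≤ G.card +
        ((univ.filter (fun x => ¬ Qn x ≤ 4 * Real.sqrt (k + 1))).card +
        (univ.filter (fun x => ¬ En x ≤ 1 / 32)).card) := by exact_mod_cast h2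
    have h4 : (n : ℝ) ≤ 2 * G.card := by linarith
    exact_mod_cast h4
  refine ⟨G, hGc, fun W hW a hWa => ?_⟩
  -- the cells
  set δ : ℝ := 1 / (2 * Real.sqrt (k + 1)) with hδ
  have hδ0 : 0 < δ := by positivity
  have hδ2 : (k + 1) * δ ^ 2 = 1 / 4 := by
    rw [hδ, div_pow, mul_pow, hk2]
    field_simp
    norm_num
  set cell : X → (I → ℤ) := fun x i => ⌊Real.sqrt |μ i.1| * ev hF i.1 x / δ⌋ with hcell
  have hcellmem : ∀ x ∈ G, cell x ∈ Fintype.piFinset
      (fun _ : I => Finset.Icc (-(4 * (k + 1) : ℤ)) (4 * (k + 1))) := by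
    intro x hx
    rw [hG, mem_filter] at hx
    rw [Fintype.mem_piFinset]
    intro i
    have h1 : (Real.sqrt |μ i.1| * ev hF i.1 x / δ) ^ 2 ≤ (4 * (k + 1)) ^ 2 := by
      have h2 : |μ i.1| * ev hF i.1 x ^ 2 ≤ 4 * Real.sqrt (k + 1) := by
        refine le_trans ?_ hx.2.1
        exact single_le_sum (f := fun i => |μ i| * ev hF i x ^ 2)
          (fun i _ => by positivity) i.2
      rw [div_pow, mul_pow, Real.sq_sqrt (abs_nonneg _), div_le_iff₀ (by positivity)]
      have h3 : (4 * ((k : ℝ) + 1)) ^ 2 * δ ^ 2 = 4 * (k + 1) := by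
        calc (4 * ((k : ℝ) + 1)) ^ 2 * δ ^ 2 = 16 * (k + 1) * ((k + 1) * δ ^ 2) := by ring
          _ = _ := by rw [hδ2]; ring
      rw [h3]
      linarith
    have h4 := abs_le_of_sq_le_sq' h1 (by positivity)
    rw [mem_Icc]
    constructor
    · apply Int.le_floor.mpr
      push_cast
      exact h4.1
    · have h5 := (Int.floor_le (Real.sqrt |μ i.1| * ev hF i.1 x / δ)).trans h4.2
      have h6 : ((⌊Real.sqrt |μ i.1| * ev hF i.1 x / δ⌋ : ℤ) : ℝ) ≤ ((4 * (k + 1) : ℤ) : ℝ) := by
        push_cast
        exact h5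
      exact_mod_cast h6
  have hTc : (Fintype.piFinset (fun _ : I => Finset.Icc (-(4 * (k + 1) : ℤ)) (4 * (k + 1)))).card ≤
      (8 * k + 9) ^ k := by
    rw [Fintype.card_piFinset]
    simp only [Int.card_Icc, prod_const, card_univ, Fintype.card_coe]
    have e : ((4 * ((k : ℤ) + 1) + 1 - -(4 * (k + 1))).toNat) = 8 * k + 9 := by omega
    rw [e]
    exact Nat.pow_le_pow_right (by omega) hIk
  -- the distance of two members of a cell
  have hdist : ∀ x y, cell x = cell y → ∀ i ∈ I,
      |Real.sqrt |μ i| * ev hF i x - Real.sqrt |μ i| * ev hF i y| ≤ δ := by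
    intro x y hxy i hi
    have h1 := congrFun hxy ⟨i, hi⟩
    rw [hcell] at h1
    simp only at h1
    have h2 := Int.abs_sub_lt_one_of_floor_eq_floor h1
    rw [← sub_div, abs_div, abs_of_pos hδ0, div_lt_one hδ0] at h2
    exact h2.le
  have hIk' : (I.card : ℝ) ≤ k + 1 := by
    have : (I.card : ℝ) ≤ k := by exact_mod_cast hIk
    linarith
  -- pairs
  have hpair : ∀ x ∈ G, ∀ y ∈ G, cell x = cell y → F x x = false → F y y = false →
      F x y = false := by
    intro x hx y hy hxy hxx hyy
    rw [hG, mem_filter] at hx hy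
    have h1 := form_lower hF lam (fun i => ev hF i x - ev hF i y) (1 / 4) (1 / 8) (by
      calc ∑ i ∈ I, |μ i| * (ev hF i x - ev hF i y) ^ 2 ≤ ∑ i ∈ I, δ ^ 2 := by
            refine sum_le_sum fun i hi => ?_
            have h2 := hdist x y hxy i hi
            calc |μ i| * (ev hF i x - ev hF i y) ^ 2
                = (Real.sqrt |μ i| * ev hF i x - Real.sqrt |μ i| * ev hF i y) ^ 2 := by
                  rw [← mul_sub, mul_pow, Real.sq_sqrt (abs_nonneg _)]
              _ = |Real.sqrt |μ i| * ev hF i x - Real.sqrt |μ i| * ev hF i y| ^ 2 := (sq_abs _).symm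
              _ ≤ δ ^ 2 := pow_le_pow_left₀ (abs_nonneg _) h2 2
        _ = I.card * δ ^ 2 := by rw [sum_const, nsmul_eq_mul]
        _ ≤ (k + 1) * δ ^ 2 := mul_le_mul_of_nonneg_right hIk' (sq_nonneg _)
        _ = 1 / 4 := hδ2) (by
      calc ∑ i ∈ J, |μ i| * (ev hF i x - ev hF i y) ^ 2
          ≤ ∑ i ∈ J, (2 * (|μ i| * ev hF i x ^ 2) + 2 * (|μ i| * ev hF i y ^ 2)) := by
            refine sum_le_sum fun i _ => ?_
            have h2 : 0 ≤ |μ i| * (ev hF i x + ev hF i y) ^ 2 := by positivity
            nlinarith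
        _ = 2 * En x + 2 * En y := by rw [sum_add_distrib, ← mul_sum, ← mul_sum]
        _ ≤ 1 / 8 := by linarith [hx.2.2, hy.2.2])
    have h2 : ∑ i, μ i * (ev hF i x - ev hF i y) ^ 2 =
        comm F x x + comm F y y - 2 * comm F x y := by
      rw [ev_decomp hF x x, ev_decomp hF y y, ev_decomp hF x y, mul_sum, ← sum_add_distrib,
        ← sum_sub_distrib]
      exact sum_congr rfl fun i _ => by ring
    rw [h2] at h1
    have e1 : comm F x x = 0 := by show (if F x x then (1 : ℝ) else 0) = 0; simp [hxx]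
    have e2 : comm F y y = 0 := by show (if F y y then (1 : ℝ) else 0) = 0; simp [hyy]
    rw [e1, e2] at h1
    cases h3 : F x y with
    | false => rfl
    | true =>
      exfalso
      have e3 : comm F x y = 1 := by show (if F x y then (1 : ℝ) else 0) = 1; simp [h3]
      rw [e3] at h1
      norm_num at h1
  -- triples
  have htriple : ∀ x ∈ G, ∀ y ∈ G, ∀ z ∈ G, cell x = cell z → cell y = cell z → F x x = true →
      F y y = true → F z z = true → F x z = true → F y z = true → F x y = true := by
    intro x hx y hy z hz hxz hyz hxx hyy hzz hxz1 hyz1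
    rw [hG, mem_filter] at hx hy hz
    have h1 := form_lower hF lam (fun i => ev hF i x + ev hF i y - 2 * ev hF i z) 1 (1 / 2) (by
      calc ∑ i ∈ I, |μ i| * (ev hF i x + ev hF i y - 2 * ev hF i z) ^ 2
          ≤ ∑ i ∈ I, 4 * δ ^ 2 := by
            refine sum_le_sum fun i hi => ?_
            have h2 := hdist x z hxz i hi
            have h3 := hdist y z hyz i hi
            calc |μ i| * (ev hF i x + ev hF i y - 2 * ev hF i z) ^ 2
                = ((Real.sqrt |μ i| * ev hF i x - Real.sqrt |μ i| * ev hF i z) +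
                  (Real.sqrt |μ i| * ev hF i y - Real.sqrt |μ i| * ev hF i z)) ^ 2 := by
                  have e : (Real.sqrt |μ i| * ev hF i x - Real.sqrt |μ i| * ev hF i z) +
                    (Real.sqrt |μ i| * ev hF i y - Real.sqrt |μ i| * ev hF i z) =
                    Real.sqrt |μ i| * (ev hF i x + ev hF i y - 2 * ev hF i z) := by ring
                  rw [e, mul_pow, Real.sq_sqrt (abs_nonneg _)]
              _ = |(Real.sqrt |μ i| * ev hF i x - Real.sqrt |μ i| * ev hF i z) +
                  (Real.sqrt |μ i| * ev hF i y - Real.sqrt |μ i| * ev hF i z)| ^ 2 :=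
                  (sq_abs _).symm
              _ ≤ (2 * δ) ^ 2 := by
                  refine pow_le_pow_left₀ (abs_nonneg _) ?_ 2
                  refine (abs_add_le _ _).trans ?_
                  linarith
              _ = 4 * δ ^ 2 := by ring
        _ = 4 * (I.card * δ ^ 2) := by rw [sum_const, nsmul_eq_mul]; ring
        _ ≤ 4 * ((k + 1) * δ ^ 2) :=
            mul_le_mul_of_nonneg_left (mul_le_mul_of_nonneg_right hIk' (sq_nonneg _)) (by norm_num)
        _ = 1 := by rw [hδ2]; norm_num) (by
      calc ∑ i ∈ J, |μ i| * (ev hF i x + ev hF i y - 2 * ev hF i z) ^ 2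
          ≤ ∑ i ∈ J, (4 * (|μ i| * ev hF i x ^ 2) + 4 * (|μ i| * ev hF i y ^ 2) +
            8 * (|μ i| * ev hF i z ^ 2)) := by
            refine sum_le_sum fun i _ => ?_
            have h3 : (ev hF i x + ev hF i y - 2 * ev hF i z) ^ 2 ≤
                4 * ev hF i x ^ 2 + 4 * ev hF i y ^ 2 + 8 * ev hF i z ^ 2 := by
              nlinarith [sq_nonneg (ev hF i x - ev hF i y), sq_nonneg (ev hF i x + ev hF i z),
                sq_nonneg (ev hF i y + ev hF i z)]
            have h4 := mul_le_mul_of_nonneg_left h3 (abs_nonneg (μ i))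
            linarith
        _ = 4 * En x + 4 * En y + 8 * En z := by
            rw [sum_add_distrib, sum_add_distrib, ← mul_sum, ← mul_sum, ← mul_sum]
        _ ≤ 1 / 2 := by linarith [hx.2.2, hy.2.2, hz.2.2])
    have h2 : ∑ i, μ i * (ev hF i x + ev hF i y - 2 * ev hF i z) ^ 2 =
        comm F x x + comm F y y + 4 * comm F z z + 2 * comm F x y - 4 * comm F x z -
          4 * comm F y z := by
      rw [ev_decomp hF x x, ev_decomp hF y y, ev_decomp hF z z, ev_decomp hF x y,
        ev_decomp hF x z, ev_decomp hF y z]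
      simp only [mul_sum]
      simp only [← sum_add_distrib, ← sum_sub_distrib]
      exact sum_congr rfl fun i _ => by ring
    rw [h2] at h1
    have hone : ∀ u v, F u v = true → comm F u v = 1 := by
      intro u v h
      show (if F u v then (1 : ℝ) else 0) = 1
      simp [h]
    rw [hone _ _ hxx, hone _ _ hyy, hone _ _ hzz, hone _ _ hxz1, hone _ _ hyz1] at h1
    cases h3 : F x y with
    | true => rfl
    | false =>
      exfalso
      have e3 : comm F x y = 0 := by show (if F x y then (1 : ℝ) else 0) = 0; simp [h3]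
      rw [e3] at h1
      norm_num at h1
  -- a large cell
  rcases W.eq_empty_or_nonempty with hW0 | hW0
  · refine ⟨∅, empty_subset _, fun x hx => absurd hx (notMem_empty _), ?_⟩
    rw [hW0]
    simp
  set TT := Fintype.piFinset (fun _ : I => Finset.Icc (-(4 * (k + 1) : ℤ)) (4 * (k + 1))) with hTT
  have hTTne : TT.Nonempty := ⟨_, hcellmem _ (hW hW0.choose_spec)⟩
  obtain ⟨c, hc, hcmax⟩ := exists_max_image TT (fun c => (W.filter (fun x => cell x = c)).card)
    hTTne
  set U := W.filter (fun x => cell x = c) with hU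
  have hWU : W.card ≤ (8 * k + 9) ^ k * U.card := by
    rw [card_eq_sum_card_fiberwise (f := cell) (t := TT) (fun x hx => hcellmem x (hW hx))]
    refine (sum_le_card_nsmul _ _ U.card (fun c' hc' => hcmax c' hc')).trans ?_
    rw [smul_eq_mul]
    exact Nat.mul_le_mul_right _ hTc
  have hUW : U ⊆ W := filter_subset _ _
  have hUc : ∀ x ∈ U, cell x = c := fun x hx => (mem_filter.mp hx).2
  cases a with
  | false =>
    refine ⟨U, hUW, fun x hx y hy => ?_, by simpa using hWU⟩
    exact hpair x (hW (hUW hx)) y (hW (hUW hy)) ((hUc x hx).trans (hUc y hy).symm)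
      (hWa x (hUW hx)) (hWa y (hUW hy))
  | true =>
    -- a maximal set of pairwise non-adjacent members
    obtain ⟨D, hD, hDmax⟩ := exists_max_image
      (U.powerset.filter (fun D => ∀ x ∈ D, ∀ y ∈ D, x ≠ y → F x y = false)) card
      ⟨∅, by simp⟩
    rw [mem_filter, mem_powerset] at hD
    have hDr : D.card ≤ r := by
      refine le_trans ?_ hr
      have e : (comm F).submatrix (fun x : D => x.1) (fun x : D => x.1) = 1 := by
        ext x y
        rw [Matrix.submatrix_apply, Matrix.one_apply]
        show (if F x.1 y.1 then (1 : ℝ) else 0) = if x = y then 1 else 0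
        by_cases hxy : x = y
        · rw [hxy, if_pos rfl, hWa _ (hUW (hD.1 y.2))]
          simp
        · rw [if_neg hxy, hD.2 x.1 x.2 y.1 y.2 (fun h => hxy (Subtype.ext h))]
          simp
      have h1 := Matrix.rank_submatrix_le (comm F) (fun x : D => x.1) (fun x : D => x.1)
      rw [e, Matrix.rank_one, Fintype.card_coe] at h1
      exact h1
    have hcov : ∀ z ∈ U, ∃ x ∈ D, F x z = true := by
      intro z hz
      by_contra hcon
      push Not at hcon
      have hzD : z ∉ D := by
        intro h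
        exact hcon z h (hWa z (hUW hz))
      have hsymF : ∀ x y, F x y = F y x := by
        intro x y
        have e1 := congrFun (congrFun hF y) x
        rw [Matrix.conjTranspose_apply, star_trivial] at e1
        exact comm_eq F x y y x e1
      have h1 := hDmax (insert z D) (by
        rw [mem_filter, mem_powerset]
        refine ⟨insert_subset hz hD.1, fun x hx y hy hxy => ?_⟩
        rw [mem_insert] at hx hy
        rcases hx with rfl | hx
        · rcases hy with rfl | hy
          · exact absurd rfl hxy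
          · rw [hsymF]
            exact Bool.eq_false_iff.mpr (hcon y hy)
        · rcases hy with rfl | hy
          · exact Bool.eq_false_iff.mpr (hcon x hx)
          · exact hD.2 x hx y hy hxy)
      rw [card_insert_of_notMem hzD] at h1
      omega
    have hUne : U.Nonempty := by
      rw [← card_pos]
      have h1 := hW0.card_pos
      by_contra hcon
      have : U.card = 0 := by omega
      rw [this, mul_zero] at hWU
      omega
    have hDne : D.Nonempty := by
      obtain ⟨z, hz⟩ := hUne
      obtain ⟨x, hx, _⟩ := hcov z hz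
      exact ⟨x, hx⟩
    obtain ⟨x0, hx0, hx0max⟩ := exists_max_image D
      (fun x => (U.filter (fun z => F x z = true)).card) hDne
    refine ⟨U.filter (fun z => F x0 z = true), (filter_subset _ _).trans hUW, ?_, ?_⟩
    · intro x hx y hy
      rw [mem_filter] at hx hy
      have hsymF : ∀ x y, F x y = F y x := by
        intro x y
        have e1 := congrFun (congrFun hF y) x
        rw [Matrix.conjTranspose_apply, star_trivial] at e1
        exact comm_eq F x y y x e1
      have hx0U := hD.1 hx0
      refine htriple x (hW (hUW hx.1)) y (hW (hUW hy.1)) x0 (hW (hUW hx0U))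
        ((hUc x hx.1).trans (hUc x0 hx0U).symm) ((hUc y hy.1).trans (hUc x0 hx0U).symm)
        (hWa x (hUW hx.1)) (hWa y (hUW hy.1)) (hWa x0 (hUW hx0U)) ?_ ?_
      · rw [hsymF]; exact hx.2
      · rw [hsymF]; exact hy.2
    · have h1 : U.card ≤ r * (U.filter (fun z => F x0 z = true)).card := by
        have h2 : U ⊆ D.biUnion (fun x => U.filter (fun z => F x z = true)) := by
          intro z hz
          obtain ⟨x, hx, hxz⟩ := hcov z hz
          rw [mem_biUnion]
          exact ⟨x, hx, mem_filter.mpr ⟨hz, hxz⟩⟩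
        refine (card_le_card h2).trans (card_biUnion_le.trans ?_)
        refine (sum_le_card_nsmul _ _ _ (fun x hx => hx0max x hx)).trans ?_
        rw [smul_eq_mul]
        exact Nat.mul_le_mul_right _ hDr
      simp only [if_true]
      calc W.card ≤ (8 * k + 9) ^ k * U.card := hWU
        _ ≤ (8 * k + 9) ^ k * (r * (U.filter (fun z => F x0 z = true)).card) :=
            Nat.mul_le_mul_left _ h1
        _ = _ := by ring

end

end Pool.Agent.U322.LR
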