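import Pool.Agent.U322.LR.Rich
import Pool.Agent.H630R2.LR.Bounds

/-!
The final bounds.
-/

set_option autoImplicit false
set_option linter.unusedSectionVars false

namespace Pool.Agent.U322.LR

open Finset Pool.Agent.H630R2.LR Pool.Agent.R533.VC

theorem arith (l s Λ G w T q ρ r lam : ℝ) (hl : 0 ≤ l) (hs : 1 ≤ s) (hG : G ≤ 3 * s) (hG0 : 0 ≤ G)
    (hT : T ≤ 16 * G * (4 + l) + 1) (hw : w ≤ 9 + 2 * l + 2 * T + Λ) :
    w ≤ 395 * (s * (1 + l)) + Λ := by
  have h1 : G * (4 + l) ≤ 3 * s * (4 * (1 + l)) :=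
    mul_le_mul hG (by linarith) (by linarith) (by linarith)
  have h2 : (1 + l) ≤ s * (1 + l) := by nlinarith
  nlinarith

theorem qbound (r : ℕ) (hr1 : 1 ≤ r) (ρ : ℕ) (hρ : ρ ≤ r) (T : ℕ) (lam : ℝ) (hlam : 0 ≤ lam) :
    Real.logb 2 ((2 * ρ * (64 * 4 ^ T + 2 * ⌈lam * r⌉₊) + 2 : ℕ) : ℝ) ≤
      8 + 2 * Real.logb 2 r + 2 * T + Real.logb 2 (1 + lam) := by
  have hr0 : (1 : ℝ) ≤ r := by exact_mod_cast hr1
  have hρ' : (ρ : ℝ) ≤ r := by exact_mod_cast hρ
  have hceil : (⌈lam * r⌉₊ : ℝ) ≤ lam * r + 1 :=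
    (Nat.ceil_lt_add_one (by positivity)).le
  have hP : (1 : ℝ) ≤ 4 ^ T := one_le_pow₀ (by norm_num)
  have h1 : ((2 * ρ * (64 * 4 ^ T + 2 * ⌈lam * r⌉₊) + 2 : ℕ) : ℝ) ≤
      2 ^ 8 * (r ^ 2 * (4 ^ T * (1 + lam))) := by
    push_cast
    set P : ℝ := 4 ^ T with hPdef
    have e1 : (2 * ρ * (64 * P + 2 * ⌈lam * r⌉₊) + 2 : ℝ) ≤
        2 * r * (64 * P + 2 * (lam * r + 1)) + 2 := by
      have : (2 * ρ * (64 * P + 2 * ⌈lam * r⌉₊) : ℝ) ≤ 2 * r * (64 * P + 2 * (lam * r + 1)) := by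
        apply mul_le_mul (by linarith) (by linarith) (by positivity) (by positivity)
      linarith
    refine e1.trans ?_
    have f1 : (r : ℝ) ≤ r ^ 2 := by nlinarith
    have f2 : (r : ℝ) * P ≤ r ^ 2 * (P * (1 + lam)) := by
      apply mul_le_mul f1 _ (by linarith) (by positivity)
      nlinarith
    have f3 : (r : ℝ) * (lam * r) ≤ r ^ 2 * (P * (1 + lam)) := by
      have : lam ≤ P * (1 + lam) := by nlinarith
      have := mul_le_mul_of_nonneg_left this (sq_nonneg (r : ℝ))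
      linarith
    have f4 : (r : ℝ) ≤ r ^ 2 * (P * (1 + lam)) := by
      have : (1 : ℝ) ≤ P * (1 + lam) := by nlinarith
      nlinarith
    have f5 : (1 : ℝ) ≤ r ^ 2 * (P * (1 + lam)) := hr0.trans f4
    nlinarith
  have h2 : (0 : ℝ) < ((2 * ρ * (64 * 4 ^ T + 2 * ⌈lam * r⌉₊) + 2 : ℕ) : ℝ) := by
    exact_mod_cast Nat.succ_pos _
  refine (Real.logb_le_logb_of_le (by norm_num) h2 h1).trans (le_of_eq ?_)
  rw [Real.logb_mul (by norm_num) (by positivity), Real.logb_mul (by positivity) (by positivity),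
    Real.logb_mul (by positivity) (by positivity), Real.logb_pow, Real.logb_pow, Real.logb_pow]
  have e2 : Real.logb 2 2 = 1 := Real.logb_self_eq_one (by norm_num)
  have e4 : Real.logb 2 4 = 2 := by
    rw [show (4 : ℝ) = 2 ^ (2 : ℕ) by norm_num, Real.logb_pow, e2]
    norm_num
  rw [e2, e4]
  push_cast
  ring

/-- **The protocol.** -/
theorem proto_few (X : Type) [Fintype X] [DecidableEq X] (F : X → X → Bool)
    (hF : (comm F).IsHermitian) (k : ℕ) (lam : ℝ) (hlam : 0 ≤ lam)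
    (hfew : Few (comm F) k lam) (r : ℕ) (hr1 : 1 ≤ r) (hr : (comm F).rank ≤ r) :
    ∃ c : ℕ, Proto F c ∧ (c : ℝ) ≤ 800 * (Real.logb 2 r + 1) *
      ((Real.sqrt k + 1) * (Real.logb 2 r + 1) + Real.logb 2 (1 + lam)) := by
  set G : ℝ := 3 + 2 * Real.sqrt k with hG
  have hk0 : 0 ≤ Real.sqrt k := Real.sqrt_nonneg _
  set T : ℕ := ⌈16 * G * (3 + Real.logb 2 (r + 1))⌉₊ with hT
  have hl : 0 ≤ Real.logb 2 (r : ℝ) := logb_nonneg r
  have hr0 : (1 : ℝ) ≤ r := by exact_mod_cast hr1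
  have hl1 : Real.logb 2 (r + 1 : ℝ) ≤ 1 + Real.logb 2 r := by
    have h1 : (r : ℝ) + 1 ≤ 2 * r := by linarith
    have h2 := Real.logb_le_logb_of_le (b := 2) (by norm_num) (by positivity) h1
    rw [Real.logb_mul (by norm_num) (by positivity), Real.logb_self_eq_one (by norm_num)] at h2
    exact h2
  have hl1' : 0 ≤ Real.logb 2 (r + 1 : ℝ) := Real.logb_nonneg (by norm_num) (by linarith)
  have hΛ : 0 ≤ Real.logb 2 (1 + lam) := Real.logb_nonneg (by norm_num) (by linarith)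
  have hR := rich X F hF k lam hfew r hr1 hr T (Nat.le_ceil _)
  set q : ℕ := 64 * 4 ^ T + 2 * ⌈lam * r⌉₊ with hq
  have hq1 : 1 ≤ q := by
    have : 1 ≤ 4 ^ T := Nat.one_le_pow _ _ (by norm_num)
    omega
  set w : ℕ := Nat.clog 2 (2 * (comm F).rank * q + 2) with hw
  have hP := nw F q hq1 hR w (Nat.le_pow_clog (by norm_num) _)
  refine ⟨_, hP, ?_⟩
  have hTle : (T : ℝ) ≤ 16 * G * (4 + Real.logb 2 r) + 1 := by
    have h1 := (Nat.ceil_lt_add_one (a := 16 * G * (3 + Real.logb 2 (r + 1))) (by positivity)).le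
    refine h1.trans ?_
    have : 16 * G * (3 + Real.logb 2 (r + 1)) ≤ 16 * G * (4 + Real.logb 2 r) :=
      mul_le_mul_of_nonneg_left (by linarith) (by positivity)
    linarith
  have hwle : (w : ℝ) ≤ 9 + 2 * Real.logb 2 r + 2 * T + Real.logb 2 (1 + lam) := by
    have h1 := clog_le (2 * (comm F).rank * q + 2)
    have h2 := qbound r hr1 (comm F).rank hr T lam hlam
    rw [← hq] at h2
    linarith
  have hw2 : (w : ℝ) ≤ 395 * ((Real.sqrt k + 1) * (1 + Real.logb 2 r)) + Real.logb 2 (1 + lam) :=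
    arith (Real.logb 2 r) (Real.sqrt k + 1) (Real.logb 2 (1 + lam)) G w T 0 0 0 0 hl
      (by linarith) (by rw [hG]; linarith) (by positivity) hTle hwle
  have hc : (Nat.clog 2 (comm F).rank : ℝ) ≤ Real.logb 2 r + 1 := by
    have h1 := clog_le (comm F).rank
    have h2 : Real.logb 2 ((comm F).rank : ℝ) ≤ Real.logb 2 r := by
      rcases Nat.eq_zero_or_pos (comm F).rank with h0 | h0
      · rw [h0, Nat.cast_zero, Real.logb_zero]
        exact hl
      · exact Real.logb_le_logb_of_le (by norm_num) (by exact_mod_cast h0) (by exact_mod_cast hr)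
    linarith
  set l := Real.logb 2 (r : ℝ) with hldef
  set Λ := Real.logb 2 (1 + lam) with hΛdef
  set s := Real.sqrt k + 1 with hs
  have hs1 : 1 ≤ s := by linarith
  push_cast
  have h1 : (w : ℝ) * (Nat.clog 2 (comm F).rank : ℝ) ≤ (395 * (s * (1 + l)) + Λ) * (l + 1) :=
    mul_le_mul hw2 hc (Nat.cast_nonneg _) (by positivity)
  have h2 : 1 ≤ (l + 1) * (s * (l + 1)) := by
    have e1 : 1 ≤ l + 1 := by linarith
    have e2 : 1 ≤ s * (l + 1) := by nlinarith
    nlinarith
  have h3 : 0 ≤ (l + 1) * Λ := by positivity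
  nlinarith

theorem proto_not {X Y : Type} (F : X → Y → Bool) (c : ℕ)
    (h : Proto (fun x y => !F x y) c) : Proto F c := by
  obtain ⟨owner, a, b, out, hout⟩ := h
  refine ⟨owner, a, b, fun t => !out t, fun x y => ?_⟩
  show (!out _) = F x y
  rw [hout x y]
  simp

theorem logb_succ (n : ℕ) : Real.logb 2 ((n + 1 : ℕ) : ℝ) ≤ Real.logb 2 n + 1 := by
  rcases Nat.eq_zero_or_pos n with h0 | h0
  · rw [h0]
    simp
  · have hn : (1 : ℝ) ≤ n := by exact_mod_cast h0
    have h1 : ((n + 1 : ℕ) : ℝ) ≤ 2 * n := by push_cast; linarith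
    have h2 := Real.logb_le_logb_of_le (b := 2) (by norm_num) (by positivity) h1
    rw [Real.logb_mul (by norm_num) (by positivity), Real.logb_self_eq_one (by norm_num)] at h2
    linarith

theorem enlarge (l l' s Λ c : ℝ) (hl : 0 ≤ l) (hl' : 0 ≤ l') (h : l' ≤ l + 1) (hs : 1 ≤ s)
    (hΛ : 0 ≤ Λ) (hc : c ≤ 800 * (l' + 1) * (s * (l' + 1) + Λ)) :
    c ≤ 3200 * (l + 1) * (s * (l + 1) + Λ) := by
  have h1 : (l' + 1) * (s * (l' + 1) + Λ) ≤ (2 * (l + 1)) * (2 * (s * (l + 1) + Λ)) := by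
    apply mul_le_mul (by linarith) _ (by positivity) (by positivity)
    have : s * (l' + 1) ≤ s * (2 * (l + 1)) := mul_le_mul_of_nonneg_left (by linarith) (by linarith)
    nlinarith
  nlinarith

/-- few eigenvalues below `-lam` or few eigenvalues above `lam` -/
theorem proto_sym (X : Type) [Fintype X] [DecidableEq X] (F : X → X → Bool)
    (hF : (comm F).IsHermitian) (k : ℕ) (lam : ℝ) (hlam : 0 ≤ lam)
    (h : (univ.filter (fun i => hF.eigenvalues i < -lam)).card ≤ k ∨
      (univ.filter (fun i => lam < hF.eigenvalues i)).card ≤ k) :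
    ∃ c : ℕ, Proto F c ∧ (c : ℝ) ≤ 3200 * (Real.logb 2 ((comm F).rank : ℝ) + 1) *
      ((Real.sqrt k + 1) * (Real.logb 2 ((comm F).rank : ℝ) + 1) + Real.logb 2 (1 + lam)) := by
  have hk0 : 0 ≤ Real.sqrt k := Real.sqrt_nonneg _
  have hΛ : 0 ≤ Real.logb 2 (1 + lam) := Real.logb_nonneg (by norm_num) (by linarith)
  rcases h with h | h
  · obtain ⟨c, hc, hb⟩ := proto_few X F hF k lam hlam (few_of_eigenvalues hF k lam h)
      ((comm F).rank + 1) (by omega) (by omega)
    exact ⟨c, hc, enlarge _ _ _ _ _ (logb_nonneg _) (logb_nonneg _) (logb_succ _)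
      (by linarith) hΛ hb⟩
  · have hF' : (comm (fun x y => !F x y)).IsHermitian := by
      ext x y
      rw [Matrix.conjTranspose_apply, star_trivial]
      have e1 := congrFun (congrFun hF x) y
      rw [Matrix.conjTranspose_apply, star_trivial] at e1
      have e2 := comm_eq F y x x y e1
      show (if (!F y x) then (1 : ℝ) else 0) = if (!F x y) then 1 else 0
      rw [e2]
    have hfew : Few (comm (fun x y => !F x y)) k lam := by
      refine ⟨univ.filter (fun i => lam < hF.eigenvalues i), inferInstance,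
        fun i x => ev hF i.1 x, by rw [Fintype.card_coe]; exact h, fun v hv => ?_⟩
      have e1 : ∑ x, ∑ y, v x * v y * comm (fun x y => !F x y) x y =
          (∑ x, v x) ^ 2 - ∑ x, ∑ y, v x * v y * comm F x y := by
        rw [sq, sum_mul_sum, ← sum_sub_distrib]
        refine sum_congr rfl fun x _ => ?_
        rw [← sum_sub_distrib]
        refine sum_congr rfl fun y _ => ?_
        show v x * v y * (if (!F x y) then (1 : ℝ) else 0) =
          v x * v y - v x * v y * (if F x y then (1 : ℝ) else 0)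
        cases F x y <;> simp
      have e2 : ∑ x, ∑ y, v x * v y * comm F x y ≤ lam * ∑ x, v x ^ 2 := by
        rw [quad hF v, ← ev_parseval hF v, mul_sum]
        refine sum_le_sum fun i _ => ?_
        by_cases hi : lam < hF.eigenvalues i
        · have h1 := hv ⟨i, by simpa using hi⟩
          simp only at h1
          rw [h1]
          simp
        · push Not at hi
          exact mul_le_mul_of_nonneg_right hi (sq_nonneg _)
      rw [e1]
      nlinarith [sq_nonneg (∑ x, v x)]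
    obtain ⟨c, hc, hb⟩ := proto_few X (fun x y => !F x y) hF' k lam hlam hfew
      ((comm F).rank + 1) (by omega) (rank_not F)
    exact ⟨c, proto_not F c hc, enlarge _ _ _ _ _ (logb_nonneg _) (logb_nonneg _) (logb_succ _)
      (by linarith) hΛ hb⟩

end Pool.Agent.U322.LR
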