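import Pool.Agent.R533.VC.NW

/-!
The protocol of Nisan and Wigderson when the size of the monochromatic rectangles depends on the
rank of the submatrix.
-/

set_option autoImplicit false

namespace Pool.Agent.U322.LR

open Finset Pool.Agent.H630R2.LR Pool.Agent.R533.VC Module

/-- the two parties peel off rows and columns until nothing is left -/
theorem peel' {X Y : Type*} [DecidableEq X] [DecidableEq Y] (F : X → Y → Bool) (q : ℕ) (hq : 1 ≤ q)
    (r c : ℕ) (hR : ∀ (A : Finset X) (B : Finset Y), A.Nonempty → B.Nonempty → rk F A B ≤ r →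
      ∃ A' ⊆ A, ∃ B' ⊆ B, ∃ v : Bool, (∀ x ∈ A', ∀ y ∈ B', F x y = v) ∧
        A.card * B.card ≤ q * (A'.card * B'.card)) : ∀ (n : ℕ) (A : Finset X) (B : Finset Y), rk F A B ≤ r →
    (∀ A' ⊆ A, ∀ B' ⊆ B, rk F A' B' ≤ (r + 1) / 2 → POn F A' B' c) →
    ((A.card * B.card : ℕ) : ℝ) * (1 - 1 / (q : ℝ)) ^ n < 1 →
    ∃ (i : X → ℕ) (j : Y → ℕ), (∀ x, i x ≤ n) ∧ (∀ y, j y ≤ n) ∧
      ∀ s t, POn F (A.filter (fun x => i x = s)) (B.filter (fun y => j y = t)) c := by
  have hq0 : (0 : ℝ) < q := by exact_mod_cast hq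
  have hq1 : (0 : ℝ) ≤ 1 - 1 / (q : ℝ) := by
    have : 1 / (q : ℝ) ≤ 1 := by
      rw [div_le_one hq0]
      exact_mod_cast hq
    linarith
  intro n
  induction n with
  | zero =>
    intro A B _ _ hlt
    have h0 : A.card * B.card = 0 := by
      rw [pow_zero, mul_one] at hlt
      have : A.card * B.card < 1 := by exact_mod_cast hlt
      omega
    refine ⟨fun _ => 0, fun _ => 0, fun _ => le_rfl, fun _ => le_rfl, fun s t => ?_⟩
    exact (POn.of_empty h0).sub (filter_subset _ _) (filter_subset _ _)
  | succ n ih =>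
    intro A B hr hsmall hlt
    by_cases h0 : A.card * B.card = 0
    · refine ⟨fun _ => 0, fun _ => 0, fun _ => Nat.zero_le _, fun _ => Nat.zero_le _,
        fun s t => ?_⟩
      exact (POn.of_empty h0).sub (filter_subset _ _) (filter_subset _ _)
    · have hA : A.Nonempty := by
        rw [nonempty_iff_ne_empty]
        rintro rfl
        simp at h0
      have hB : B.Nonempty := by
        rw [nonempty_iff_ne_empty]
        rintro rfl
        simp at h0
      obtain ⟨A', hA', B', hB', v, hv, hcard⟩ := hR A B hA hB hr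
      have hs := rk_split F hA' hB' v hv
      rcases le_or_gt (rk F A' B) ((r + 1) / 2) with h1 | h1
      · -- remove the rows of A'
        have harea : (((A \ A').card * B.card : ℕ) : ℝ) ≤
            ((A.card * B.card : ℕ) : ℝ) * (1 - 1 / (q : ℝ)) := by
          have e1 : (A \ A').card + A'.card = A.card := card_sdiff_add_card_eq_card hA'
          have e2 : (A.card : ℝ) * B.card ≤ q * (A'.card * B.card) := by
            have : A.card * B.card ≤ q * (A'.card * B.card) :=
              hcard.trans (Nat.mul_le_mul_left _ (Nat.mul_le_mul_left _ (card_le_card hB')))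
            exact_mod_cast this
          have e3 : ((A \ A').card : ℝ) = A.card - A'.card := by
            rw [← e1]; push_cast; ring
          have e4 : (A.card : ℝ) * B.card * (1 / q) ≤ A'.card * B.card := by
            rw [mul_one_div, div_le_iff₀ hq0]
            linarith
          push_cast
          rw [e3]
          nlinarith
        obtain ⟨i, j, hi, hj, hP⟩ := ih (A \ A') B ((rk_mono F sdiff_subset subset_rfl).trans hr)
          (fun A₁ hA₁ B₁ hB₁ h => hsmall A₁ (hA₁.trans sdiff_subset) B₁ hB₁ h) (by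
            refine lt_of_le_of_lt (mul_le_mul_of_nonneg_right harea (pow_nonneg hq1 n)) ?_
            rw [mul_assoc, ← pow_succ']
            exact hlt)
        refine ⟨fun x => if x ∈ A' then n + 1 else i x, j, fun x => ?_,
          fun y => (hj y).trans (Nat.le_succ n), fun s t => ?_⟩
        · show (if x ∈ A' then n + 1 else i x) ≤ n + 1
          split_ifs
          · exact le_rfl
          · exact (hi x).trans (Nat.le_succ n)
        · by_cases hsn : s = n + 1
          · refine hsmall _ (filter_subset _ _) _ (filter_subset _ _) ((rk_mono F ?_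
              (filter_subset _ _)).trans h1)
            intro x hx
            rw [mem_filter] at hx
            by_contra hxA
            simp only [hxA, if_false] at hx
            have := hi x
            omega
          · refine (hP s t).sub ?_ subset_rfl
            intro x hx
            rw [mem_filter] at hx ⊢
            by_cases hxA : x ∈ A'
            · simp only [hxA, if_true] at hx
              exact absurd hx.2.symm hsn
            · simp only [hxA, if_false] at hx
              exact ⟨mem_sdiff.mpr ⟨hx.1, hxA⟩, hx.2⟩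
      · -- remove the columns of B'
        have h1' : rk F A B' ≤ (r + 1) / 2 := by omega
        have harea : ((A.card * (B \ B').card : ℕ) : ℝ) ≤
            ((A.card * B.card : ℕ) : ℝ) * (1 - 1 / (q : ℝ)) := by
          have e1 : (B \ B').card + B'.card = B.card := card_sdiff_add_card_eq_card hB'
          have e2 : (A.card : ℝ) * B.card ≤ q * (A.card * B'.card) := by
            have : A.card * B.card ≤ q * (A.card * B'.card) :=
              hcard.trans (Nat.mul_le_mul_left _ (Nat.mul_le_mul_right _ (card_le_card hA')))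
            exact_mod_cast this
          have e3 : ((B \ B').card : ℝ) = B.card - B'.card := by
            rw [← e1]; push_cast; ring
          have e4 : (A.card : ℝ) * B.card * (1 / q) ≤ A.card * B'.card := by
            rw [mul_one_div, div_le_iff₀ hq0]
            linarith
          push_cast
          rw [e3]
          nlinarith
        obtain ⟨i, j, hi, hj, hP⟩ := ih A (B \ B') ((rk_mono F subset_rfl sdiff_subset).trans hr)
          (fun A₁ hA₁ B₁ hB₁ h => hsmall A₁ hA₁ B₁ (hB₁.trans sdiff_subset) h) (by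
            refine lt_of_le_of_lt (mul_le_mul_of_nonneg_right harea (pow_nonneg hq1 n)) ?_
            rw [mul_assoc, ← pow_succ']
            exact hlt)
        refine ⟨i, fun y => if y ∈ B' then n + 1 else j y,
          fun x => (hi x).trans (Nat.le_succ n), fun y => ?_, fun s t => ?_⟩
        · show (if y ∈ B' then n + 1 else j y) ≤ n + 1
          split_ifs
          · exact le_rfl
          · exact (hj y).trans (Nat.le_succ n)
        · by_cases hsn : t = n + 1
          · refine hsmall _ (filter_subset _ _) _ (filter_subset _ _) ((rk_mono F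
              (filter_subset _ _) ?_).trans h1')
            intro y hy
            rw [mem_filter] at hy
            by_contra hyB
            simp only [hyB, if_false] at hy
            have := hj y
            omega
          · refine (hP s t).sub subset_rfl ?_
            intro y hy
            rw [mem_filter] at hy ⊢
            by_cases hyB : y ∈ B'
            · simp only [hyB, if_true] at hy
              exact absurd hy.2.symm hsn
            · simp only [hyB, if_false] at hy
              exact ⟨mem_sdiff.mpr ⟨hy.1, hyB⟩, hy.2⟩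

/-- Every rectangle of rank at most `ρ` contains a monochromatic rectangle of relative size
`1 / q ρ`. -/
def RichR {X Y : Type*} (F : X → Y → Bool) (q : ℕ → ℕ) : Prop :=
  ∀ (ρ : ℕ) (A : Finset X) (B : Finset Y), A.Nonempty → B.Nonempty → rk F A B ≤ ρ →
    ∃ A' ⊆ A, ∃ B' ⊆ B, ∃ v : Bool, (∀ x ∈ A', ∀ y ∈ B', F x y = v) ∧
      A.card * B.card ≤ q ρ * (A'.card * B'.card)

theorem area_lt (q : ℕ) (hq : 1 ≤ q) (r a : ℕ) (ha : (a : ℝ) ≤ 4 ^ r) :
    (a : ℝ) * (1 - 1 / (q : ℝ)) ^ (2 * r * q + 1) < 1 := by
  have hq0 : (0 : ℝ) < q := by exact_mod_cast hq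
  have hq1 : (0 : ℝ) ≤ 1 - 1 / (q : ℝ) := by
    have : 1 / (q : ℝ) ≤ 1 := by
      rw [div_le_one hq0]
      exact_mod_cast hq
    linarith
  have h2 : (1 - 1 / (q : ℝ)) ^ (2 * r * q) ≤ (1 / 4) ^ r := by
    have e : 2 * r * q = q * (2 * r) := by ring
    rw [e, pow_mul]
    calc ((1 - 1 / (q : ℝ)) ^ q) ^ (2 * r) ≤ (1 / 2) ^ (2 * r) :=
          pow_le_pow_left₀ (pow_nonneg hq1 q) (half_pow q hq) _
      _ = (1 / 4) ^ r := by
        rw [pow_mul]
        norm_num
  have h3 : (1 - 1 / (q : ℝ)) < 1 := by
    have : 0 < 1 / (q : ℝ) := by positivity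
    linarith
  rw [pow_succ]
  calc (a : ℝ) * ((1 - 1 / (q : ℝ)) ^ (2 * r * q) * (1 - 1 / (q : ℝ)))
      ≤ 4 ^ r * ((1 / 4) ^ r * (1 - 1 / (q : ℝ))) := by
        apply mul_le_mul ha (mul_le_mul_of_nonneg_right h2 hq1) (by positivity) (by positivity)
    _ = 1 - 1 / (q : ℝ) := by
        rw [← mul_assoc, ← mul_pow]
        norm_num
    _ < 1 := h3

theorem level' {X Y : Type*} (F : X → Y → Bool) (q : ℕ → ℕ) (hq : ∀ ρ, 1 ≤ q ρ)
    (hR : RichR F q) (R : ℕ) (w : ℕ → ℕ) (hw : ∀ n, 2 * R * q (2 ^ n) + 1 + 1 ≤ 2 ^ w n) :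
    ∀ (n : ℕ) (A : Finset X) (B : Finset Y), rk F A B ≤ 2 ^ n →
      ((A.card * B.card : ℕ) : ℝ) ≤ 4 ^ R →
      POn F A B (2 * (∑ i ∈ range n, w (i + 1)) + 2) := by
  classical
  intro n
  induction n with
  | zero =>
    intro A B hrk _
    refine Proto.mono (proto_rank (fun (x : A) (y : B) => F x y)) ?_
    have : (comm (fun (x : A) (y : B) => F x y)).rank ≤ 2 ^ 0 := hrk
    simp only [pow_zero] at this
    simp only [range_zero, sum_empty]
    omega
  | succ n ih =>
    intro A B hrk hA4
    set c := 2 * (∑ i ∈ range n, w (i + 1)) + 2 with hc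
    set N := 2 * R * q (2 ^ (n + 1)) + 1 with hN
    obtain ⟨i, j, hi, hj, hP⟩ := peel' F (q (2 ^ (n + 1))) (hq _) (2 ^ (n + 1)) c
      (fun A B hA hB h => hR _ A B hA hB h) N A B hrk (by
      intro A' hA' B' hB' h
      refine ih A' B' (h.trans ?_) ?_
      · rw [pow_succ]
        omega
      · refine le_trans ?_ hA4
        exact_mod_cast Nat.mul_le_mul (card_le_card hA') (card_le_card hB'))
      (area_lt _ (hq _) R _ hA4)
    have hext : ∀ s t, ∃ Φ : A → B → Bool, Proto Φ c ∧
        ∀ (x : A) (y : B), i x.1 = s → j y.1 = t → Φ x y = F x y := by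
      intro s t
      obtain ⟨Φ, h1, h2⟩ := (hP s t).extend (A := A) (B := B)
      exact ⟨Φ, h1, fun x y hx hy => h2 x y (mem_filter.mpr ⟨x.2, hx⟩)
        (mem_filter.mpr ⟨y.2, hy⟩)⟩
    choose Φ hΦ hΦF using hext
    have e : 2 * (∑ i ∈ range (n + 1), w (i + 1)) + 2 = (c + w (n + 1)) + w (n + 1) := by
      rw [sum_range_succ, hc]
      ring
    have hwN : N + 1 ≤ 2 ^ w (n + 1) := hw (n + 1)
    show Proto _ _
    rw [e]
    refine Proto.sendX (Q := Fin (N + 1)) _ (fun x => ⟨i x.1, Nat.lt_succ_of_le (hi x.1)⟩)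
      (w (n + 1)) (by simpa using hwN) (fun s x y => Φ s (j y.1) x y) _ (fun s => ?_)
      (fun x y => (hΦF _ _ x y rfl rfl).symm)
    exact Proto.sendY (Q := Fin (N + 1)) _ (fun y => ⟨j y.1, Nat.lt_succ_of_le (hj y.1)⟩)
      (w (n + 1)) (by simpa using hwN) (fun t x y => Φ s t x y) _ (fun t => hΦ s t)
      (fun x y => rfl)

/-- **Rectangles give protocols.** -/
theorem nw' {X Y : Type*} [Fintype X] [Fintype Y] (F : X → Y → Bool) (q : ℕ → ℕ)
    (hq : ∀ ρ, 1 ≤ q ρ) (hR : RichR F q) (w : ℕ → ℕ)
    (hw : ∀ n, 2 * (comm F).rank * q (2 ^ n) + 1 + 1 ≤ 2 ^ w n) :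
    Proto F (2 * (∑ i ∈ range (Nat.clog 2 (comm F).rank), w (i + 1)) + 2) := by
  classical
  set r := (comm F).rank with hr
  obtain ⟨repY, hrY, B, hB, hBc⟩ := exists_reps F
  obtain ⟨repX, hrX, A, hA, hAc⟩ := exists_reps (fun y x => F x y)
  rw [comm_swap, Matrix.rank_transpose] at hAc
  have key := level' F q hq hR r w hw (Nat.clog 2 r) A B
    ((rk_le F A B).trans (Nat.le_pow_clog (by norm_num) _)) (by
    have : A.card * B.card ≤ 2 ^ r * 2 ^ r := Nat.mul_le_mul hAc hBc
    calc ((A.card * B.card : ℕ) : ℝ) ≤ ((2 ^ r * 2 ^ r : ℕ) : ℝ) := by exact_mod_cast this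
      _ = 4 ^ r := by
        push_cast
        rw [← mul_pow]
        norm_num)
  have h2 := Proto.comap key (fun x : X => (⟨repX x, hA x⟩ : A)) (fun y : Y => (⟨repY y, hB y⟩ : B))
  have h3 : (fun (x : X) (y : Y) => F (repX x) (repY y)) = F := by
    funext x y
    rw [hrY]
    exact hrX y x
  exact h3 ▸ h2

end Pool.Agent.U322.LR
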