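import Pool.Agent.U322.LR.Iter
import Pool.Agent.U322.LR.NWR
import Pool.Agent.U322.LR.Fin

/-!
The final bounds for Boolean matrices with few large singular values.
-/

set_option autoImplicit false
set_option linter.unusedSectionVars false

namespace Pool.Agent.U322.LR

open Finset Pool.Agent.H630R2.LR Pool.Agent.R533.VC

theorem geom_half (J : ℕ) : ∑ j ∈ range J, (Real.sqrt (1 / 2)) ^ j ≤ 4 := by
  have h1 : Real.sqrt (1 / 2) ≤ 3 / 4 := by
    rw [Real.sqrt_le_iff]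
    norm_num
  have h0 : 0 ≤ Real.sqrt (1 / 2) := Real.sqrt_nonneg _
  calc ∑ j ∈ range J, (Real.sqrt (1 / 2)) ^ j ≤ ∑ j ∈ range J, (3 / 4 : ℝ) ^ j :=
        sum_le_sum fun j _ => pow_le_pow_left₀ h0 h1 j
    _ ≤ 4 := by
        have h2 : ∀ J : ℕ, ∑ j ∈ range J, (3 / 4 : ℝ) ^ j = 4 - 4 * (3 / 4) ^ J := by
          intro J
          induction J with
          | zero => simp
          | succ J ih =>
            rw [sum_range_succ, ih, pow_succ]
            ring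
        rw [h2]
        have : (0 : ℝ) ≤ (3 / 4) ^ J := by positivity
        linarith

theorem cost_le (K J : ℕ) : (cost K J : ℝ) ≤ 608 * Real.sqrt K + 155 * J := by
  have h1 : ∀ j, ((rounds K j + 2 : ℕ) : ℝ) ≤ 152 * Real.sqrt K * (Real.sqrt (1 / 2)) ^ j + 155 := by
    intro j
    have e1 : Real.sqrt (K * (1 / 2) ^ j) = Real.sqrt K * (Real.sqrt (1 / 2)) ^ j := by
      rw [Real.sqrt_mul (Nat.cast_nonneg _)]
      congr 1
      rw [Real.sqrt_eq_iff_mul_self_eq (by positivity) (by positivity), ← mul_pow,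
        Real.mul_self_sqrt (by norm_num)]
    have e2 := (Nat.ceil_lt_add_one (a := 152 * (Real.sqrt (K * (1 / 2) ^ j) + 1))
      (by positivity)).le
    rw [rounds]
    push_cast
    rw [e1] at e2 ⊢
    linarith
  rw [cost]
  push_cast at h1 ⊢
  calc ∑ j ∈ range J, ((rounds K j : ℝ) + 2)
      ≤ ∑ j ∈ range J, (152 * Real.sqrt K * (Real.sqrt (1 / 2)) ^ j + 155) :=
        sum_le_sum fun j _ => h1 j
    _ = 152 * Real.sqrt K * ∑ j ∈ range J, (Real.sqrt (1 / 2)) ^ j + 155 * J := by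
        rw [sum_add_distrib, mul_sum]
        simp
        ring
    _ ≤ 152 * Real.sqrt K * 4 + 155 * J := by
        have := mul_le_mul_of_nonneg_left (geom_half J)
          (show 0 ≤ 152 * Real.sqrt K by positivity)
        linarith
    _ = _ := by ring

theorem geom_two (m : ℕ) : ∑ i ∈ range m, Real.sqrt (4 * 2 ^ (i + 1)) ≤ 7 * (Real.sqrt 2) ^ m := by
  have hs : (7 / 5 : ℝ) ≤ Real.sqrt 2 := by
    apply Real.le_sqrt_of_sq_le
    norm_num
  have e : ∀ i : ℕ, Real.sqrt (4 * 2 ^ (i + 1)) = 2 * (Real.sqrt 2) ^ (i + 1) := by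
    intro i
    rw [Real.sqrt_mul (by norm_num)]
    congr 1
    · rw [show (4 : ℝ) = 2 ^ 2 by norm_num, Real.sqrt_sq (by norm_num)]
    · rw [Real.sqrt_eq_iff_mul_self_eq (by positivity) (by positivity), ← mul_pow,
        Real.mul_self_sqrt (by norm_num)]
  induction m with
  | zero => simp
  | succ m ih =>
    rw [sum_range_succ, e]
    have hp : (0 : ℝ) ≤ (Real.sqrt 2) ^ m := by positivity
    rw [pow_succ]
    nlinarith

theorem sum_sqrt (κ m : ℕ) (hκ : 1 ≤ κ) :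
    ∑ i ∈ range m, Real.sqrt (min κ (2 * (2 ^ (i + 1) + 1)) : ℕ) ≤
      Real.sqrt κ * (7 + max 0 ((m : ℝ) - Nat.log 2 κ)) := by
  set n0 := Nat.log 2 κ with hn0
  have hn0' : 2 ^ n0 ≤ κ := Nat.pow_log_le_self 2 (by omega)
  have hk0 : 0 ≤ Real.sqrt κ := Real.sqrt_nonneg _
  have hterm1 : ∀ i, Real.sqrt (min κ (2 * (2 ^ (i + 1) + 1)) : ℕ) ≤
      Real.sqrt (4 * 2 ^ (i + 1)) := by
    intro i
    apply Real.sqrt_le_sqrt
    have h1 : min κ (2 * (2 ^ (i + 1) + 1)) ≤ 4 * 2 ^ (i + 1) := by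
      refine (min_le_right _ _).trans ?_
      have : 1 ≤ 2 ^ (i + 1) := Nat.one_le_two_pow
      omega
    exact_mod_cast h1
  have hterm2 : ∀ i, Real.sqrt (min κ (2 * (2 ^ (i + 1) + 1)) : ℕ) ≤ Real.sqrt κ := by
    intro i
    apply Real.sqrt_le_sqrt
    exact_mod_cast min_le_left _ _
  have hbase : ∑ i ∈ range n0, Real.sqrt (min κ (2 * (2 ^ (i + 1) + 1)) : ℕ) ≤
      7 * Real.sqrt κ := by
    refine (sum_le_sum fun i _ => hterm1 i).trans ((geom_two n0).trans ?_)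
    have : (Real.sqrt 2) ^ n0 ≤ Real.sqrt κ := by
      apply Real.le_sqrt_of_sq_le
      rw [← pow_mul, mul_comm, pow_mul, Real.sq_sqrt (by norm_num)]
      exact_mod_cast hn0'
    linarith
  rcases Nat.lt_or_ge m n0 with h | h
  · have h1 : ∑ i ∈ range m, Real.sqrt (min κ (2 * (2 ^ (i + 1) + 1)) : ℕ) ≤
        ∑ i ∈ range n0, Real.sqrt (min κ (2 * (2 ^ (i + 1) + 1)) : ℕ) :=
      sum_le_sum_of_subset_of_nonneg (range_mono h.le) fun _ _ _ => Real.sqrt_nonneg _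
    have h2 : 0 ≤ max 0 ((m : ℝ) - n0) := le_max_left _ _
    have h3 : 0 ≤ Real.sqrt κ * max 0 ((m : ℝ) - n0) := mul_nonneg hk0 h2
    calc _ ≤ 7 * Real.sqrt κ := h1.trans hbase
      _ ≤ _ := by nlinarith
  · have key : ∀ m, n0 ≤ m → ∑ i ∈ range m, Real.sqrt (min κ (2 * (2 ^ (i + 1) + 1)) : ℕ) ≤
        Real.sqrt κ * (7 + ((m : ℝ) - n0)) := by
      intro m hm
      induction m, hm using Nat.le_induction with
      | base =>
        refine hbase.trans (le_of_eq ?_)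
        ring
      | succ m hm ih =>
        rw [sum_range_succ]
        have h1 := hterm2 m
        have e : ((m + 1 : ℕ) : ℝ) = m + 1 := by push_cast; rfl
        rw [e]
        calc _ ≤ Real.sqrt κ * (7 + ((m : ℝ) - n0)) + Real.sqrt κ := add_le_add ih h1
          _ = _ := by ring
    refine (key m h).trans (mul_le_mul_of_nonneg_left ?_ hk0)
    have := le_max_right (0 : ℝ) ((m : ℝ) - n0)
    linarith

theorem qq_bound (k : ℕ) (lam : ℝ) (hlam : 0 ≤ lam) (R ρ : ℕ) (hR : 1 ≤ R) (hρ : ρ ≤ 2 * R) :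
    Real.logb 2 ((2 * R * qq k lam ρ + 1 + 1 : ℕ) : ℝ) ≤
      6 + 2 * Real.logb 2 R +
      2 * cost (min (k + 1) (2 * (ρ + 1))) (Nat.clog 2 (4 * (ρ + 2))) + Real.logb 2 (1 + lam) := by
  set C := cost (min (k + 1) (2 * (ρ + 1))) (Nat.clog 2 (4 * (ρ + 2))) with hC
  clear_value C
  have hr0 : (1 : ℝ) ≤ R := by exact_mod_cast hR
  have hρ' : (ρ : ℝ) ≤ 2 * R := by exact_mod_cast hρ
  have hP2 : (1 : ℝ) ≤ 2 ^ C := one_le_pow₀ (by norm_num)
  have hP : (2 : ℝ) ^ C ≤ 4 ^ C := pow_le_pow_left₀ (by norm_num) (by norm_num) C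
  have hceil : (⌈2 * ((ρ : ℝ) + 1) * lam * 2 ^ C⌉₊ : ℝ) ≤ 2 * ((ρ : ℝ) + 1) * lam * 2 ^ C + 1 :=
    (Nat.ceil_lt_add_one (by positivity)).le
  have h1 : ((2 * R * qq k lam ρ + 1 + 1 : ℕ) : ℝ) ≤ 2 ^ 6 * (R ^ 2 * (4 ^ C * (1 + lam))) := by
    rw [qq, ← hC]
    push_cast
    set P : ℝ := 4 ^ C with hPdef
    set Q : ℝ := 2 ^ C with hQdef
    have e0 : 2 * ((ρ : ℝ) + 1) * lam * Q ≤ 2 * (3 * R) * lam * P := by
      apply mul_le_mul _ hP (by positivity) (by positivity)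
      exact mul_le_mul_of_nonneg_right (by linarith) hlam
    have e1 : (2 * R * (4 * P + 2 * ⌈2 * ((ρ : ℝ) + 1) * lam * Q⌉₊) + 1 + 1 : ℝ) ≤
        2 * R * (4 * P + 2 * (2 * (3 * R) * lam * P + 1)) + 2 := by
      have : (2 * R * (4 * P + 2 * ⌈2 * ((ρ : ℝ) + 1) * lam * Q⌉₊) : ℝ) ≤
          2 * R * (4 * P + 2 * (2 * (3 * R) * lam * P + 1)) :=
        mul_le_mul_of_nonneg_left (by linarith) (by linarith)
      linarith
    refine e1.trans ?_
    have hP1 : 1 ≤ P := hP2.trans hP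
    have f1 : (R : ℝ) ≤ R ^ 2 := by nlinarith
    have f2 : (R : ℝ) * P ≤ R ^ 2 * (P * (1 + lam)) := by
      apply mul_le_mul f1 _ (by linarith) (by positivity)
      nlinarith
    have f3 : (R : ℝ) * (R * lam * P) ≤ R ^ 2 * (P * (1 + lam)) := by
      have : lam * P ≤ P * (1 + lam) := by nlinarith
      have := mul_le_mul_of_nonneg_left this (sq_nonneg (R : ℝ))
      linarith
    have f4 : (R : ℝ) ≤ R ^ 2 * (P * (1 + lam)) := by
      have : (1 : ℝ) ≤ P * (1 + lam) := by nlinarith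
      nlinarith
    have f5 : (1 : ℝ) ≤ R ^ 2 * (P * (1 + lam)) := hr0.trans f4
    set Z := (R : ℝ) ^ 2 * (P * (1 + lam)) with hZ
    calc 2 * (R : ℝ) * (4 * P + 2 * (2 * (3 * R) * lam * P + 1)) + 2
        = 8 * (R * P) + 24 * (R * (R * lam * P)) + 4 * R + 2 * 1 := by ring
      _ ≤ 8 * Z + 24 * Z + 4 * Z + 2 * Z := by linarith
      _ = 38 * Z := by ring
      _ ≤ 2 ^ 6 * Z := by linarith
  have h2 : (0 : ℝ) < ((2 * R * qq k lam ρ + 1 + 1 : ℕ) : ℝ) := by
    exact_mod_cast Nat.succ_pos _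
  refine (Real.logb_le_logb_of_le (by norm_num) h2 h1).trans (le_of_eq ?_)
  rw [Real.logb_mul (by norm_num) (by positivity), Real.logb_mul (by positivity) (by positivity),
    Real.logb_mul (by positivity) (by positivity), Real.logb_pow, Real.logb_pow, Real.logb_pow]
  have e2 : Real.logb 2 2 = 1 := Real.logb_self_eq_one (by norm_num)
  have e4 : Real.logb 2 4 = 2 := by
    rw [show (4 : ℝ) = 2 ^ (2 : ℕ) by norm_num, Real.logb_pow, e2]
    norm_num
  rw [e2, e4]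
  push_cast
  ring

theorem last (L Λ κl sκ : ℝ) (S m D : ℝ) (hL : 0 ≤ L) (hΛ : 0 ≤ Λ) (hsκ : 0 ≤ sκ)
    (hm0 : 0 ≤ m) (hm : m ≤ L + 1) (hκ : κl ≤ L + 1)
    (hS : S ≤ sκ * (7 + (L + 2 - κl)))
    (hD : D ≤ 2 * (m * (1557 + 312 * L + Λ) + 1216 * S) + 2) :
    D ≤ 20000 * ((L + 1) * (L + 1 + Λ) + sκ * (2 + L - κl)) := by
  have h1 : m * (1557 + 312 * L + Λ) ≤ (L + 1) * (1557 * (L + 1 + Λ)) :=
    mul_le_mul hm (by nlinarith) (by positivity) (by positivity)
  have h2 : 1 ≤ (L + 1) * (L + 1 + Λ) := by nlinarith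
  have h3 : sκ * (7 + (L + 2 - κl)) ≤ sκ * (8 * (2 + L - κl)) :=
    mul_le_mul_of_nonneg_left (by linarith) hsκ
  have h4 : 0 ≤ sκ * (2 + L - κl) := mul_nonneg hsκ (by linarith)
  nlinarith

section
variable {X Y : Type} [Fintype X] [Fintype Y] [DecidableEq X] [DecidableEq Y]

theorem sing_of_values (M : Matrix X Y ℝ) (hM : (M * M.conjTranspose).IsHermitian) (k : ℕ)
    (lam : ℝ) (h : (univ.filter (fun i => lam ^ 2 < hM.eigenvalues i)).card ≤ k) :
    Sing M k lam := by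
  refine ⟨univ.filter (fun i => lam ^ 2 < hM.eigenvalues i), inferInstance,
    fun i x => ev hM i.1 x, by rw [Fintype.card_coe]; exact h, fun u hu => ?_⟩
  have e1 : ∑ y, (∑ x, u x * M x y) ^ 2 = ∑ x, ∑ x', u x * u x' * (M * M.conjTranspose) x x' := by
    calc ∑ y, (∑ x, u x * M x y) ^ 2
        = ∑ y, ∑ x, ∑ x', (u x * u x') * (M x y * M x' y) := by
          refine sum_congr rfl fun y _ => ?_
          rw [sq, sum_mul_sum]
          exact sum_congr rfl fun x _ => sum_congr rfl fun x' _ => by ring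
      _ = ∑ x, ∑ y, ∑ x', (u x * u x') * (M x y * M x' y) := sum_comm
      _ = ∑ x, ∑ x', ∑ y, (u x * u x') * (M x y * M x' y) :=
          sum_congr rfl fun x _ => sum_comm
      _ = _ := by
          refine sum_congr rfl fun x _ => sum_congr rfl fun x' _ => ?_
          rw [Matrix.mul_apply, mul_sum]
          exact sum_congr rfl fun y _ => by rw [Matrix.conjTranspose_apply, star_trivial]
  rw [e1, quad hM u, ← ev_parseval hM u, mul_sum]
  refine sum_le_sum fun i _ => ?_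
  by_cases hi : lam ^ 2 < hM.eigenvalues i
  · have h1 := hu ⟨i, by simpa using hi⟩
    simp only at h1
    rw [h1]
    simp
  · push Not at hi
    exact mul_le_mul_of_nonneg_right hi (sq_nonneg _)

/-- **The protocol.** -/
theorem proto_sing (F : X → Y → Bool) (k : ℕ) (lam : ℝ) (hlam : 0 ≤ lam)
    (hsing : Sing (comm F) k lam) (hk : k ≤ (comm F).rank) (hr : 1 ≤ (comm F).rank) :
    ∃ c : ℕ, Proto F c ∧ (c : ℝ) ≤ 20000 * ((Real.logb 2 ((comm F).rank : ℝ) + 1) *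
      (Real.logb 2 ((comm F).rank : ℝ) + 1 + Real.logb 2 (1 + lam)) +
      Real.sqrt (k + 1) * Real.logb 2 (4 * (comm F).rank / (k + 1))) := by
  set R := (comm F).rank with hR
  set w : ℕ → ℕ := fun n => Nat.clog 2 (2 * R * qq k lam (2 ^ n) + 1 + 1) with hw
  have hP := nw' F (qq k lam) (fun ρ => by
      rw [qq]
      have : 1 ≤ 4 ^ cost (min (k + 1) (2 * (ρ + 1))) (Nat.clog 2 (4 * (ρ + 2))) :=
        Nat.one_le_pow _ _ (by norm_num)
      omega)
    (fun ρ A B hA hB h => rect F k lam hlam hsing A B hA hB ρ h) w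
    (fun n => Nat.le_pow_clog (by norm_num) _)
  refine ⟨_, hP, ?_⟩
  have hr0 : (1 : ℝ) ≤ R := by exact_mod_cast hr
  set L := Real.logb 2 (R : ℝ) with hL
  have hL0 : 0 ≤ L := Real.logb_nonneg (by norm_num) hr0
  set Λ := Real.logb 2 (1 + lam) with hΛ
  have hΛ0 : 0 ≤ Λ := Real.logb_nonneg (by norm_num) (by linarith)
  set m := Nat.clog 2 R with hm
  have hmL : (m : ℝ) ≤ L + 1 := clog_le R
  -- the levels
  have hlev : ∀ i, i + 1 ≤ m → 2 ^ (i + 1) ≤ 2 * R := by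
    intro i hi
    have h1 : 2 ^ (m - 1) < R := by
      have h2 : 1 < R := by
        by_contra hcon
        have : R = 1 := by omega
        rw [hm, this] at hi
        simp at hi
      have := Nat.pow_pred_clog_lt_self (b := 2) (by norm_num) h2
      simpa [hm, Nat.pred_eq_sub_one] using this
    calc 2 ^ (i + 1) ≤ 2 ^ m := Nat.pow_le_pow_right (by norm_num) hi
      _ = 2 * 2 ^ (m - 1) := by
        rw [← pow_succ']
        congr 1
        omega
      _ ≤ 2 * R := by omega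
  have hwle : ∀ i ∈ range m, (w (i + 1) : ℝ) ≤ 1557 + 312 * L + Λ +
      1216 * Real.sqrt (min (k + 1) (2 * (2 ^ (i + 1) + 1)) : ℕ) := by
    intro i hi
    rw [mem_range] at hi
    have hρ := hlev i hi
    have h1 : (w (i + 1) : ℝ) ≤
        Real.logb 2 ((2 * R * qq k lam (2 ^ (i + 1)) + 1 + 1 : ℕ) : ℝ) + 1 := clog_le _
    have h2 := qq_bound k lam hlam R (2 ^ (i + 1)) hr hρ
    have h3 := cost_le (min (k + 1) (2 * (2 ^ (i + 1) + 1))) (Nat.clog 2 (4 * (2 ^ (i + 1) + 2)))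
    have h4 : (Nat.clog 2 (4 * (2 ^ (i + 1) + 2)) : ℝ) ≤ 5 + L := by
      have e1 := clog_le (4 * (2 ^ (i + 1) + 2))
      have e2 : ((4 * (2 ^ (i + 1) + 2) : ℕ) : ℝ) ≤ 2 ^ 4 * R := by
        have : 4 * (2 ^ (i + 1) + 2) ≤ 16 * R := by omega
        have h5 : ((4 * (2 ^ (i + 1) + 2) : ℕ) : ℝ) ≤ ((16 * R : ℕ) : ℝ) := by exact_mod_cast this
        refine h5.trans (le_of_eq ?_)
        push_cast
        norm_num
      have e3 := Real.logb_le_logb_of_le (b := 2) (by norm_num)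
        (by exact_mod_cast (by positivity : 0 < 4 * (2 ^ (i + 1) + 2))) e2
      rw [Real.logb_mul (by norm_num) (by positivity), Real.logb_pow,
        Real.logb_self_eq_one (by norm_num)] at e3
      push_cast at e3
      push_cast at e1
      linarith
    linarith
  have hsum : ((∑ i ∈ range m, w (i + 1) : ℕ) : ℝ) ≤ m * (1557 + 312 * L + Λ) +
      1216 * ∑ i ∈ range m, Real.sqrt (min (k + 1) (2 * (2 ^ (i + 1) + 1)) : ℕ) := by
    rw [Nat.cast_sum]
    refine (sum_le_sum hwle).trans (le_of_eq ?_)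
    rw [sum_add_distrib, mul_sum]
    simp only [sum_const, card_range, nsmul_eq_mul]
  have hSq := sum_sqrt (k + 1) m (by omega)
  have hκ1 : ((k + 1 : ℕ) : ℝ) ≤ 2 * R := by
    have : k + 1 ≤ 2 * R := by omega
    exact_mod_cast this
  have hκl : Real.logb 2 ((k + 1 : ℕ) : ℝ) ≤ L + 1 := by
    have h1 := Real.logb_le_logb_of_le (b := 2) (by norm_num)
      (by exact_mod_cast Nat.succ_pos k) hκ1
    rw [Real.logb_mul (by norm_num) (by positivity), Real.logb_self_eq_one (by norm_num)] at h1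
    linarith
  have hn0 : Real.logb 2 ((k + 1 : ℕ) : ℝ) ≤ (Nat.log 2 (k + 1) : ℝ) + 1 := by
    have h1 : k + 1 < 2 ^ (Nat.log 2 (k + 1) + 1) := Nat.lt_pow_succ_log_self (by norm_num) _
    rw [Real.logb_le_iff_le_rpow (by norm_num) (by exact_mod_cast Nat.succ_pos k)]
    have h2 : ((k + 1 : ℕ) : ℝ) ≤ ((2 ^ (Nat.log 2 (k + 1) + 1) : ℕ) : ℝ) := by exact_mod_cast h1.le
    refine h2.trans (le_of_eq ?_)
    push_cast
    rw [← Real.rpow_natCast]
    push_cast
    rfl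
  have hmax : max 0 ((m : ℝ) - Nat.log 2 (k + 1)) ≤ L + 2 - Real.logb 2 ((k + 1 : ℕ) : ℝ) := by
    apply max_le
    · linarith
    · linarith
  have hS : ∑ i ∈ range m, Real.sqrt (min (k + 1) (2 * (2 ^ (i + 1) + 1)) : ℕ) ≤
      Real.sqrt ((k + 1 : ℕ) : ℝ) * (7 + (L + 2 - Real.logb 2 ((k + 1 : ℕ) : ℝ))) :=
    hSq.trans (mul_le_mul_of_nonneg_left (by linarith) (Real.sqrt_nonneg _))
  have hfin := last L Λ (Real.logb 2 ((k + 1 : ℕ) : ℝ)) (Real.sqrt ((k + 1 : ℕ) : ℝ)) _ m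
    ((2 * (∑ i ∈ range m, w (i + 1)) + 2 : ℕ) : ℝ) hL0 hΛ0 (Real.sqrt_nonneg _)
    (Nat.cast_nonneg _) hmL hκl hS (by
      rw [Nat.cast_add, Nat.cast_mul]
      push_cast [Nat.cast_ofNat] at hsum ⊢
      linarith)
  refine hfin.trans (le_of_eq ?_)
  have hlog : Real.logb 2 (4 * R / (k + 1) : ℝ) = 2 + L - Real.logb 2 ((k + 1 : ℕ) : ℝ) := by
    rw [Real.logb_div (by positivity) (by positivity), Real.logb_mul (by norm_num) (by positivity)]
    have e2 : Real.logb 2 2 = 1 := Real.logb_self_eq_one (by norm_num)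
    have e4 : Real.logb 2 4 = 2 := by
      rw [show (4 : ℝ) = 2 ^ (2 : ℕ) by norm_num, Real.logb_pow, e2]
      norm_num
    rw [e4]
    push_cast
    rfl
  rw [hlog]
  push_cast
  rfl

end

end Pool.Agent.U322.LR
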