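import Mathlib

/-!
Rounding of vectors by the sine of a Gaussian vector.
-/

set_option autoImplicit false
set_option linter.unusedSectionVars false

namespace Pool.Agent.U322.LR

open MeasureTheory ProbabilityTheory Real
open scoped RealInnerProductSpace

variable {E : Type*} [NormedAddCommGroup E] [InnerProductSpace ℝ E] [FiniteDimensional ℝ E]
  [MeasurableSpace E] [BorelSpace E]

theorem gauss_exp (t : E) :
    ∫ g, Complex.exp (((⟪g, t⟫ : ℝ) : ℂ) * Complex.I) ∂(stdGaussian E) =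
      ((Real.exp (-‖t‖ ^ 2 / 2) : ℝ) : ℂ) := by
  have h := charFun_stdGaussian (E := E) t
  rw [charFun_apply] at h
  rw [h]
  push_cast
  rfl

theorem gauss_int (t : E) :
    Integrable (fun g : E => Complex.exp (((⟪g, t⟫ : ℝ) : ℂ) * Complex.I)) (stdGaussian E) := by
  refine Integrable.of_bound (C := 1) ?_ ?_
  · refine Continuous.aestronglyMeasurable ?_
    fun_prop
  · refine Filter.Eventually.of_forall fun g => ?_
    rw [Complex.norm_exp_ofReal_mul_I]

theorem gauss_cos (t : E) :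
    ∫ g, Real.cos ⟪g, t⟫ ∂(stdGaussian E) = Real.exp (-‖t‖ ^ 2 / 2) := by
  have h := gauss_exp t
  have h2 := congrArg Complex.re h
  rw [Complex.ofReal_re] at h2
  rw [← h2]
  have h3 := (integral_re (𝕜 := ℂ) (gauss_int t))
  have h4 : (∫ g, Complex.exp (((⟪g, t⟫ : ℝ) : ℂ) * Complex.I) ∂(stdGaussian E)).re =
      RCLike.re (∫ g, Complex.exp (((⟪g, t⟫ : ℝ) : ℂ) * Complex.I) ∂(stdGaussian E)) := rfl
  rw [h4, ← h3]
  refine integral_congr_ae (Filter.Eventually.of_forall fun g => ?_)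
  show Real.cos ⟪g, t⟫ = (Complex.exp (((⟪g, t⟫ : ℝ) : ℂ) * Complex.I)).re
  rw [Complex.exp_ofReal_mul_I_re]

theorem gauss_sin (t : E) : ∫ g, Real.sin ⟪g, t⟫ ∂(stdGaussian E) = 0 := by
  have h := gauss_exp t
  have h2 := congrArg Complex.im h
  rw [Complex.ofReal_im] at h2
  rw [← h2]
  have h3 := (integral_im (𝕜 := ℂ) (gauss_int t))
  have h4 : (∫ g, Complex.exp (((⟪g, t⟫ : ℝ) : ℂ) * Complex.I) ∂(stdGaussian E)).im =
      RCLike.im (∫ g, Complex.exp (((⟪g, t⟫ : ℝ) : ℂ) * Complex.I) ∂(stdGaussian E)) := rfl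
  rw [h4, ← h3]
  refine integral_congr_ae (Filter.Eventually.of_forall fun g => ?_)
  show Real.sin ⟪g, t⟫ = (Complex.exp (((⟪g, t⟫ : ℝ) : ℂ) * Complex.I)).im
  rw [Complex.exp_ofReal_mul_I_im]

theorem int_cos (t : E) : Integrable (fun g : E => Real.cos ⟪g, t⟫) (stdGaussian E) := by
  refine Integrable.of_bound (C := 1) ?_ ?_
  · refine Continuous.aestronglyMeasurable ?_
    fun_prop
  · exact Filter.Eventually.of_forall fun g => abs_cos_le_one _

theorem int_sin (t : E) : Integrable (fun g : E => Real.sin ⟪g, t⟫) (stdGaussian E) := by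
  refine Integrable.of_bound (C := 1) ?_ ?_
  · refine Continuous.aestronglyMeasurable ?_
    fun_prop
  · exact Filter.Eventually.of_forall fun g => abs_sin_le_one _

/-- the rounded vector -/
noncomputable def rd (a : E) (g : E) : ℝ := Real.exp ((‖a‖ ^ 2 - 1) / 2) * Real.sin ⟪g, a⟫

theorem rd_le (a g : E) (ha : ‖a‖ ≤ 1) : |rd a g| ≤ 1 := by
  unfold rd
  rw [abs_mul, abs_of_pos (Real.exp_pos _)]
  have h1 : Real.exp ((‖a‖ ^ 2 - 1) / 2) ≤ 1 := by
    rw [Real.exp_le_one_iff]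
    nlinarith [norm_nonneg a]
  calc Real.exp ((‖a‖ ^ 2 - 1) / 2) * |Real.sin ⟪g, a⟫| ≤ 1 * 1 :=
        mul_le_mul h1 (abs_sin_le_one _) (abs_nonneg _) (by norm_num)
    _ = 1 := by norm_num

theorem rd_int (a : E) : Integrable (rd a) (stdGaussian E) := (int_sin a).const_mul _

theorem rd_mean (a : E) : ∫ g, rd a g ∂(stdGaussian E) = 0 := by
  unfold rd
  rw [integral_const_mul, gauss_sin, mul_zero]

theorem rd_mul_eq (a b g : E) : rd a g * rd b g =
    Real.exp ((‖a‖ ^ 2 - 1) / 2 + (‖b‖ ^ 2 - 1) / 2) / 2 *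
      (Real.cos ⟪g, a - b⟫ - Real.cos ⟪g, a + b⟫) := by
  unfold rd
  rw [inner_sub_right, inner_add_right, Real.cos_sub, Real.cos_add, Real.exp_add]
  ring

theorem rd_mul_int (a b : E) : Integrable (fun g => rd a g * rd b g) (stdGaussian E) := by
  simp_rw [rd_mul_eq]
  exact ((int_cos _).sub (int_cos _)).const_mul _

theorem rd_mul (a b : E) :
    ∫ g, rd a g * rd b g ∂(stdGaussian E) = Real.exp (-1) * Real.sinh ⟪a, b⟫ := by
  simp_rw [rd_mul_eq]
  rw [integral_const_mul, integral_sub (int_cos _) (int_cos _), gauss_cos, gauss_cos,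
    norm_sub_sq_real, norm_add_sq_real, Real.sinh_eq]
  rw [mul_sub, div_mul_eq_mul_div, div_mul_eq_mul_div, ← Real.exp_add, ← Real.exp_add, mul_div_assoc',
    mul_sub, ← Real.exp_add, ← Real.exp_add, sub_div]
  ring_nf

end Pool.Agent.U322.LR
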