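import Pool.Agent.U322.LR.Chi
import Pool.Agent.H630R2.LR.Bounds

/-!
The final statements for graphs.
-/

set_option autoImplicit false
set_option linter.unusedSectionVars false

namespace Pool.Agent.U322.LR

open Finset Pool.Agent.H630R2.LR Pool.Agent.R533.VC

section
variable {V : Type} [Fintype V] [DecidableEq V]

/-- the Boolean function of the adjacency -/
def adjB (G : SimpleGraph V) [DecidableRel G.Adj] : V → V → Bool := fun u v => decide (G.Adj u v)

theorem comm_adjB (G : SimpleGraph V) [DecidableRel G.Adj] : comm (adjB G) = G.adjMatrix ℝ := by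
  ext u v
  show (if decide (G.Adj u v) = true then (1 : ℝ) else 0) = if G.Adj u v then 1 else 0
  by_cases h : G.Adj u v <;> simp [h]

theorem adjB_sym (G : SimpleGraph V) [DecidableRel G.Adj] (u v : V) : adjB G u v = adjB G v u := by
  simp only [adjB]
  exact decide_eq_decide.mpr (G.adj_comm u v)

theorem adjB_diag (G : SimpleGraph V) [DecidableRel G.Adj] (u : V) : adjB G u u = false := by
  simp [adjB]

theorem adj_few (G : SimpleGraph V) [DecidableRel G.Adj] (hA : (G.adjMatrix ℝ).IsHermitian)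
    (k : ℕ) (lam : ℝ) (h : (univ.filter (fun i => hA.eigenvalues i < -lam)).card ≤ k) :
    Few (comm (adjB G)) k lam := by
  rw [comm_adjB]
  exact few_of_eigenvalues hA k lam h

theorem adj_few' (G : SimpleGraph V) [DecidableRel G.Adj] (hA : (G.adjMatrix ℝ).IsHermitian)
    (k : ℕ) (lam : ℝ) (h : (univ.filter (fun i => lam < hA.eigenvalues i)).card ≤ k) :
    Few (comm (fun x y => !adjB G x y)) k lam := by
  have key : ∀ (M : Matrix V V ℝ) (hM : M.IsHermitian), M = comm (adjB G) →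
      (univ.filter (fun i => lam < hM.eigenvalues i)).card ≤ k →
      Few (comm (fun x y => !adjB G x y)) k lam := by
    rintro M hM rfl h
    exact few_compl (adjB G) hM k lam h
  exact key _ hA (comm_adjB G).symm h

/-- the colouring -/
theorem adj_color (G : SimpleGraph V) [DecidableRel G.Adj] (hA : (G.adjMatrix ℝ).IsHermitian)
    (k : ℕ) (lam : ℝ) (hlam : 0 ≤ lam)
    (h : (univ.filter (fun i => hA.eigenvalues i < -lam)).card ≤ k ∨
      (univ.filter (fun i => lam < hA.eigenvalues i)).card ≤ k) :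
    G.Colorable ((2 * (8 * k + 9) ^ k * ((G.adjMatrix ℝ).rank + 1) +
      ⌈128 * lam * (((G.adjMatrix ℝ).rank + 1 : ℕ) : ℝ)⌉₊) * ((G.adjMatrix ℝ).rank + 1)) := by
  classical
  set r := (G.adjMatrix ℝ).rank with hr
  set K := 2 * (8 * k + 9) ^ k * (r + 1) + ⌈128 * lam * ((r + 1 : ℕ) : ℝ)⌉₊ with hK
  have hrank : (comm (adjB G)).rank = r := by rw [comm_adjB]
  have hlarge : ∀ W : Finset V, ∃ I ⊆ W, Pool.TH815.LS.Indep G I ∧ W.card ≤ K * I.card := by
    intro W
    rcases h with h | h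
    · obtain ⟨I, hI, hIa, hIc⟩ := block_in (adjB G) (adjB_sym G) k lam hlam (adj_few G hA k lam h)
        (r + 1) (by omega) (by omega) false (adjB_diag G) W
      refine ⟨I, hI, fun u hu v hv huv => ?_, hIc.trans (Nat.mul_le_mul_right _ ?_)⟩
      · have := hIa u hu v hv
        simp [adjB, huv] at this
      · rw [hK]
        refine Nat.add_le_add_right ?_ _
        refine Nat.mul_le_mul_left _ ?_
        simp
    · obtain ⟨I, hI, hIa, hIc⟩ := block_in (fun x y => !adjB G x y)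
        (fun x y => by rw [adjB_sym]) k lam hlam (adj_few' G hA k lam h)
        (r + 1) (by omega) ((rank_not (adjB G)).trans (by omega)) true
        (fun x => by rw [adjB_diag]; rfl) W
      refine ⟨I, hI, fun u hu v hv huv => ?_, hIc.trans (Nat.mul_le_mul_right _ ?_)⟩
      · have := hIa u hu v hv
        simp [adjB, huv] at this
      · rw [hK]
        simp
  have hK1 : 1 ≤ K := by
    have : 1 ≤ (8 * k + 9) ^ k := Nat.one_le_pow _ _ (by omega)
    have h2 : 1 ≤ 2 * (8 * k + 9) ^ k * (r + 1) := by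
      calc 1 = 1 * 1 * 1 := by norm_num
        _ ≤ 2 * (8 * k + 9) ^ k * (r + 1) :=
            Nat.mul_le_mul (Nat.mul_le_mul (by omega) this) (by omega)
    omega
  obtain ⟨rep, hrc, hrep⟩ := Pool.TH815.LS.exists_rep G r le_rfl
  obtain ⟨f, hf1, hf2⟩ := Pool.TH815.LS.colOn_of_large G _ hK1 hlarge (r + 1) (univ.image rep) (by
    refine lt_of_le_of_lt hrc ?_
    exact Nat.pow_lt_pow_right (by norm_num) (by omega))
  refine ⟨SimpleGraph.Coloring.mk (fun v => (⟨f (rep v), ?_⟩ : Fin (K * (r + 1)))) ?_⟩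
  · exact hf1 (rep v) (mem_image_of_mem _ (mem_univ _))
  · intro u v huv heq
    rw [Fin.mk.injEq] at heq
    exact hf2 (rep u) (mem_image_of_mem _ (mem_univ _)) (rep v)
      (mem_image_of_mem _ (mem_univ _)) (hrep u v huv) heq

theorem color_num (k r : ℕ) (lam : ℝ) (hlam : 0 ≤ lam) :
    Real.logb 2 (((2 * (8 * k + 9) ^ k * (r + 1) + ⌈128 * lam * ((r + 1 : ℕ) : ℝ)⌉₊) * (r + 1) : ℕ) : ℝ) ≤
      k * Real.logb 2 (8 * k + 9) + 2 * Real.logb 2 (r + 1) + Real.logb 2 (1 + lam) + 7 := by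
  have hk0 : (0 : ℝ) ≤ k := Nat.cast_nonneg k
  have hr0 : (0 : ℝ) ≤ r := Nat.cast_nonneg r
  set P : ℝ := ((8 : ℝ) * k + 9) ^ k with hP
  have hP1 : 1 ≤ P := one_le_pow₀ (by linarith)
  have hceil : (⌈128 * lam * ((r + 1 : ℕ) : ℝ)⌉₊ : ℝ) ≤ 128 * lam * ((r + 1 : ℕ) : ℝ) + 1 :=
    (Nat.ceil_lt_add_one (by positivity)).le
  have h1 : (((2 * (8 * k + 9) ^ k * (r + 1) + ⌈128 * lam * ((r + 1 : ℕ) : ℝ)⌉₊) * (r + 1) : ℕ) : ℝ) ≤
      2 ^ 7 * (P * ((r + 1) ^ 2 * (1 + lam))) := by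
    push_cast at hceil ⊢
    rw [← hP]
    have e1 : 2 * P * ((r : ℝ) + 1) + ⌈128 * lam * ((r : ℝ) + 1)⌉₊ ≤
        (2 * P + 128 * lam + 1) * (r + 1) := by nlinarith
    have e2 : 2 * P + 128 * lam + 1 ≤ 128 * (P * (1 + lam)) := by nlinarith
    calc (2 * P * ((r : ℝ) + 1) + ⌈128 * lam * ((r : ℝ) + 1)⌉₊) * (r + 1)
        ≤ ((2 * P + 128 * lam + 1) * (r + 1)) * (r + 1) :=
          mul_le_mul_of_nonneg_right e1 (by linarith)
      _ = (2 * P + 128 * lam + 1) * (r + 1) ^ 2 := by ring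
      _ ≤ (128 * (P * (1 + lam))) * (r + 1) ^ 2 := mul_le_mul_of_nonneg_right e2 (by positivity)
      _ = _ := by ring
  have h2 : (0 : ℝ) < (((2 * (8 * k + 9) ^ k * (r + 1) + ⌈128 * lam * ((r + 1 : ℕ) : ℝ)⌉₊) * (r + 1) : ℕ) : ℝ) := by
    have : 0 < (2 * (8 * k + 9) ^ k * (r + 1) + ⌈128 * lam * ((r + 1 : ℕ) : ℝ)⌉₊) * (r + 1) := by
      positivity
    exact_mod_cast this
  refine (Real.logb_le_logb_of_le (by norm_num) h2 h1).trans (le_of_eq ?_)
  have hP0 : P ≠ 0 := by linarith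
  rw [Real.logb_mul (by norm_num) (by positivity), Real.logb_mul hP0 (by positivity),
    Real.logb_mul (by positivity) (by positivity), Real.logb_pow, Real.logb_pow,
    Real.logb_pow, Real.logb_self_eq_one (by norm_num)]
  push_cast
  ring

/-- **The chromatic number.** -/
theorem adj_chi (G : SimpleGraph V) [DecidableRel G.Adj] (hA : (G.adjMatrix ℝ).IsHermitian)
    (k : ℕ) (lam : ℝ) (hlam : 0 ≤ lam)
    (h : (univ.filter (fun i => hA.eigenvalues i < -lam)).card ≤ k ∨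
      (univ.filter (fun i => lam < hA.eigenvalues i)).card ≤ k) :
    Real.logb 2 (G.chromaticNumber.toNat : ℝ) ≤
      k * Real.logb 2 (8 * k + 9) + 2 * Real.logb 2 ((G.adjMatrix ℝ).rank + 1) +
        Real.logb 2 (1 + lam) + 7 := by
  have hcol := adj_color G hA k lam hlam h
  set r := (G.adjMatrix ℝ).rank with hr
  have hnum := color_num k r lam hlam
  set C := (2 * (8 * k + 9) ^ k * (r + 1) + ⌈128 * lam * ((r + 1 : ℕ) : ℝ)⌉₊) * (r + 1) with hC
  have h1 : G.chromaticNumber.toNat ≤ C := by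
    have h2 : G.chromaticNumber ≤ ((C : ℕ) : ℕ∞) := hcol.chromaticNumber_le
    exact (ENat.toNat_le_toNat h2 (ENat.natCast_ne_top C)).trans (ENat.toNat_natCast C).le
  refine le_trans ?_ hnum
  by_cases h0 : G.chromaticNumber.toNat = 0
  · rw [h0, Nat.cast_zero, Real.logb_zero]
    exact logb_nonneg C
  · exact Real.logb_le_logb_of_le (by norm_num) (by exact_mod_cast Nat.pos_of_ne_zero h0)
      (by exact_mod_cast h1)

theorem adj_twin (G : SimpleGraph V) [DecidableRel G.Adj]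
    (htw : ∀ u v : V, u ≠ v → ¬ G.Adj u v → G.neighborSet u ≠ G.neighborSet v) (y y' : V)
    (h : ∀ x, adjB G x y = adjB G x y') : y = y' := by
  by_contra hne
  have hiff : ∀ x, G.Adj x y ↔ G.Adj x y' := by
    intro x
    have := h x
    simpa [adjB] using this
  by_cases hadj : G.Adj y y'
  · exact G.loopless.irrefl y ((hiff y).mpr hadj)
  · apply htw y y' hne hadj
    ext x
    rw [SimpleGraph.mem_neighborSet, SimpleGraph.mem_neighborSet, G.adj_comm y x, G.adj_comm y' x]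
    exact hiff x

theorem count_le_rank {M : Matrix V V ℝ} (hM : M.IsHermitian) (P : ℝ → Prop) [DecidablePred P]
    (hP : ∀ t, P t → t ≠ 0) : (univ.filter (fun i => P (hM.eigenvalues i))).card ≤ M.rank := by
  rw [hM.rank_eq_card_non_zero_eigs, Fintype.card_subtype]
  refine card_le_card fun i hi => ?_
  rw [mem_filter] at hi ⊢
  exact ⟨mem_univ _, hP _ hi.2⟩

/-- **The number of vertices.** -/
theorem adj_order (G : SimpleGraph V) [DecidableRel G.Adj] (hA : (G.adjMatrix ℝ).IsHermitian)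
    (htw : ∀ u v : V, u ≠ v → ¬ G.Adj u v → G.neighborSet u ≠ G.neighborSet v)
    (hr : 1 ≤ (G.adjMatrix ℝ).rank) (lam : ℝ) (hlam : 0 ≤ lam) :
    (∀ k : ℕ, (univ.filter (fun i => hA.eigenvalues i < -lam)).card = k →
      (Fintype.card V : ℝ) ≤
        (27 * (G.adjMatrix ℝ).rank) ^ (k + 1) * ((k : ℝ) + 1 + 4 * lam) ^ 2) ∧
    (∀ k : ℕ, (univ.filter (fun i => lam < hA.eigenvalues i)).card = k →
      (Fintype.card V : ℝ) ≤ ((G.adjMatrix ℝ).rank + 1) *
        ((27 * ((G.adjMatrix ℝ).rank + 1)) ^ (k + 1) * ((k : ℝ) + 1 + 4 * lam) ^ 2)) := by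
  classical
  set r := (G.adjMatrix ℝ).rank with hrdef
  have hrank : (comm (adjB G)).rank = r := by rw [comm_adjB]
  have hfloor : ∀ k : ℕ, ((⌊((k : ℝ) + 1 + 4 * lam) ^ 2 / 2 ^ (k + 1)⌋₊ : ℕ) : ℝ) * 2 ^ (k + 1) ≤
      ((k : ℝ) + 1 + 4 * lam) ^ 2 ∧ ((k : ℝ) + 1 + 4 * lam) ^ 2 <
      (((⌊((k : ℝ) + 1 + 4 * lam) ^ 2 / 2 ^ (k + 1)⌋₊ : ℕ) : ℝ) + 1) * 2 ^ (k + 1) := by
    intro k
    have h2 : (0 : ℝ) < 2 ^ (k + 1) := by positivity
    constructor
    · rw [← le_div_iff₀ h2]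
      exact Nat.floor_le (by positivity)
    · rw [← div_lt_iff₀ h2]
      exact Nat.lt_floor_add_one _
  constructor
  · intro k hk
    have hkr : k ≤ r := by
      rw [← hk]
      exact count_le_rank hA (fun t => t < -lam) (fun t ht => by intro h0; rw [h0] at ht; linarith)
    obtain ⟨hf1, hf2⟩ := hfloor k
    have h1 := order_nat (adjB G) (adjB_sym G) k lam hlam (adj_few G hA k lam hk.le) r hr hrank.le
      false (adjB_diag G) (adj_twin G htw) _ hf2
    have h2 := order_num k r hr hkr lam hlam _ hf1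
    refine le_trans ?_ h2
    have h3 : ((Fintype.card V : ℕ) : ℝ) ≤ ((⌈128 * lam * r⌉₊ + 2 * (8 * k + 9) ^ k *
      (if false = true then r else 1) * (∑ i ∈ range (k + 1), r.choose i +
        ⌊((k : ℝ) + 1 + 4 * lam) ^ 2 / 2 ^ (k + 1)⌋₊ * r.choose (k + 1)) : ℕ) : ℝ) := by
      exact_mod_cast h1
    refine h3.trans (le_of_eq ?_)
    push_cast
    simp
  · intro k hk
    have hkr : k ≤ r + 1 := by
      have h0 : k ≤ r := by
        rw [← hk]
        exact count_le_rank hA (fun t => lam < t)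
          (fun t ht => by intro h0; rw [h0] at ht; linarith)
      omega
    obtain ⟨hf1, hf2⟩ := hfloor k
    have h1 := order_nat (fun x y => !adjB G x y) (fun x y => by rw [adjB_sym]) k lam hlam
      (adj_few' G hA k lam hk.le) (r + 1) (by omega) ((rank_not (adjB G)).trans (by omega))
      true (fun x => by rw [adjB_diag]; rfl)
      (fun y y' h => adj_twin G htw y y' (fun x => by simpa using h x)) _ hf2
    have h2 := order_num k (r + 1) (by omega) hkr lam hlam _ hf1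
    set t := ⌊((k : ℝ) + 1 + 4 * lam) ^ 2 / 2 ^ (k + 1)⌋₊ with ht
    set SS := ∑ i ∈ range (k + 1), (r + 1).choose i + t * (r + 1).choose (k + 1) with hSS
    have h3 : ((Fintype.card V : ℕ) : ℝ) ≤ ((⌈128 * lam * ((r + 1 : ℕ) : ℝ)⌉₊ +
      2 * (8 * k + 9) ^ k * (r + 1) * SS : ℕ) : ℝ) := by
      exact_mod_cast h1
    have hr0 : (0 : ℝ) ≤ r := Nat.cast_nonneg r
    refine h3.trans ?_
    have h4 := mul_le_mul_of_nonneg_left h2 (show (0 : ℝ) ≤ (r : ℝ) + 1 by linarith)
    push_cast at h4 ⊢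
    refine le_trans ?_ h4
    have h5 : (0 : ℝ) ≤ ⌈128 * lam * ((r : ℝ) + 1)⌉₊ := Nat.cast_nonneg _
    nlinarith

end

end Pool.Agent.U322.LR
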