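import Pool.Agent.U322.LR.Svd

/-!
Halving the density of a Boolean matrix with few large singular values.
-/

set_option autoImplicit false
set_option linter.unusedSectionVars false

namespace Pool.Agent.U322.LR

open Finset Pool.Agent.H630R2.LR Pool.Agent.R533.VC
open scoped RealInnerProductSpace

/-- the number of the ones of a submatrix -/
noncomputable def ones {X Y : Type} (F : X → Y → Bool) (S : Finset X) (T : Finset Y) : ℝ :=
  ∑ x ∈ S, ∑ y ∈ T, (if F x y then (1 : ℝ) else 0)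

theorem ones_nonneg {X Y : Type} (F : X → Y → Bool) (S : Finset X) (T : Finset Y) :
    0 ≤ ones F S T :=
  sum_nonneg fun x _ => sum_nonneg fun y _ => by split_ifs <;> norm_num

theorem ones_mono {X Y : Type} (F : X → Y → Bool) {S S' : Finset X} {T T' : Finset Y}
    (hS : S' ⊆ S) (hT : T' ⊆ T) : ones F S' T' ≤ ones F S T := by
  unfold ones
  calc ∑ x ∈ S', ∑ y ∈ T', (if F x y then (1 : ℝ) else 0)
      ≤ ∑ x ∈ S', ∑ y ∈ T, (if F x y then (1 : ℝ) else 0) :=
        sum_le_sum fun x _ => sum_le_sum_of_subset_of_nonneg hT fun y _ _ => by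
          split_ifs <;> norm_num
    _ ≤ _ := sum_le_sum_of_subset_of_nonneg hS fun x _ _ =>
        sum_nonneg fun y _ => by split_ifs <;> norm_num

theorem theta2 (τ : ℝ) (hτ : 2 ≤ τ) (N : ℕ) (hN : 76 * τ ≤ N) :
    0 ≤ Real.exp (-1) * Real.sinh (1 / (8 * τ)) ∧
    Real.exp (-1) * Real.sinh (1 / (8 * τ)) ≤ 1 ∧
    (1 - Real.exp (-1) * Real.sinh (1 / (8 * τ))) ^ N ≤ 1 / 32 := by
  have hG0 : 0 < τ := by linarith
  have ht0 : 0 ≤ 1 / (8 * τ) := by positivity
  have ht1 : 1 / (8 * τ) ≤ 1 := by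
    rw [div_le_one (by positivity)]
    linarith
  have hs : 1 / (8 * τ) ≤ Real.sinh (1 / (8 * τ)) := Real.self_le_sinh_iff.mpr ht0
  have h0 : 0 ≤ Real.exp (-1) * Real.sinh (1 / (8 * τ)) :=
    mul_nonneg (Real.exp_pos _).le (ht0.trans hs)
  have h1 : Real.exp (-1) * Real.sinh (1 / (8 * τ)) ≤ 1 := by
    rw [Real.sinh_eq]
    have e1 : Real.exp (1 / (8 * τ)) ≤ Real.exp 1 := Real.exp_le_exp.mpr ht1
    have e2 : Real.exp (-1) * Real.exp 1 = 1 := by
      rw [← Real.exp_add]
      simp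
    have e3 := Real.exp_pos (-(1 / (8 * τ)))
    have e4 := Real.exp_pos (-1)
    nlinarith
  refine ⟨h0, h1, ?_⟩
  set θ := Real.exp (-1) * Real.sinh (1 / (8 * τ)) with hθ
  have h2 : (1 - θ) ^ N ≤ Real.exp (-(θ * N)) := by
    calc (1 - θ) ^ N ≤ (Real.exp (-θ)) ^ N :=
          pow_le_pow_left₀ (by linarith) (Real.one_sub_le_exp_neg _) N
      _ = Real.exp (-(θ * N)) := by
          rw [← Real.exp_nat_mul]
          congr 1
          ring
  have h3 : Real.log 32 ≤ θ * N := by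
    have e1 : Real.log 32 = 5 * Real.log 2 := by
      rw [show (32 : ℝ) = 2 ^ 5 by norm_num, Real.log_pow]
      push_cast
      ring
    rw [e1]
    have e2 : Real.exp (-1) / (8 * τ) ≤ θ := by
      rw [hθ, div_eq_mul_one_div]
      exact mul_le_mul_of_nonneg_left hs (Real.exp_pos _).le
    have e3 : Real.exp (-1) / (8 * τ) * (76 * τ) ≤ θ * N :=
      mul_le_mul e2 hN (by positivity) h0
    have e4 : Real.exp (-1) / (8 * τ) * (76 * τ) = 19 / 2 * Real.exp (-1) := by
      field_simp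
      ring
    rw [e4] at e3
    refine le_trans ?_ e3
    have e5 := Real.log_two_lt_d9
    have e6 := Real.exp_one_lt_d9
    rw [Real.exp_neg]
    have e7 : (0 : ℝ) < Real.exp 1 := Real.exp_pos 1
    rw [← div_eq_mul_inv, le_div_iff₀ e7]
    nlinarith
  refine h2.trans ?_
  rw [Real.exp_neg, one_div]
  apply inv_anti₀ (by positivity)
  rw [← Real.log_le_iff_le_exp (by positivity)]
  exact h3

theorem most_good {X : Type} (S : Finset X) (f : X → ℝ) (hf : ∀ x, 0 ≤ f x) (G : ℝ) (hG : 0 < G)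
    (h : ∑ x ∈ S, f x ≤ G * S.card) :
    7 * S.card ≤ 8 * (S.filter (fun x => f x ≤ 8 * G)).card := by
  classical
  have h1 : 8 * G * ((S.filter (fun x => ¬ f x ≤ 8 * G)).card : ℝ) ≤ G * S.card := by
    refine le_trans ?_ h
    calc 8 * G * ((S.filter (fun x => ¬ f x ≤ 8 * G)).card : ℝ)
        = ∑ x ∈ S.filter (fun x => ¬ f x ≤ 8 * G), 8 * G := by
          rw [sum_const, nsmul_eq_mul]; ring
      _ ≤ ∑ x ∈ S.filter (fun x => ¬ f x ≤ 8 * G), f x := by
          refine sum_le_sum fun x hx => ?_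
          rw [mem_filter] at hx
          exact (not_le.mp hx.2).le
      _ ≤ _ := sum_le_sum_of_subset_of_nonneg (filter_subset _ _) fun x _ _ => hf x
  have h2 : 8 * ((S.filter (fun x => ¬ f x ≤ 8 * G)).card : ℝ) ≤ S.card := by
    have h3 : G * (8 * ((S.filter (fun x => ¬ f x ≤ 8 * G)).card : ℝ)) ≤
        G * S.card := by linarith
    exact le_of_mul_le_mul_left h3 hG
  have h2' : 8 * (S.filter (fun x => ¬ f x ≤ 8 * G)).card ≤ S.card := by exact_mod_cast h2
  have h4 := card_filter_add_card_filter_not (s := S) (fun x => f x ≤ 8 * G)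
  omega

/-- the counting part of the halving step -/
theorem halve_count {E : Type*} [NormedAddCommGroup E] [InnerProductSpace ℝ E]
    [FiniteDimensional ℝ E] [MeasurableSpace E] [BorelSpace E] {X Y : Type} (F : X → Y → Bool)
    (A : Finset X) (B : Finset Y) (a : X → E) (b : Y → E)
    (ha : ∀ x ∈ A, ‖a x‖ ≤ 1) (hb : ∀ y ∈ B, ‖b y‖ ≤ 1) (θ : ℝ) (hθ1 : θ ≤ 1)
    (hθ : ∀ x ∈ A, ∀ y ∈ B, Real.exp (-1) * Real.sinh ⟪a x, b y⟫ = if F x y then θ else 0)
    (N : ℕ) (hN : (1 - θ) ^ N ≤ 1 / 32) (p : ℝ) (hp0 : 0 < p) (hp : p ≤ 1 / 2)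
    (hones : ones F A B ≤ 64 / 49 * p * (A.card * B.card)) :
    ∃ A' ⊆ A, ∃ B' ⊆ B, (1 / 4 : ℝ) ^ N * (A.card * B.card / 4) ≤
      A'.card * B'.card - 2 / p * ones F A' B' := by
  classical
  set K : X → Y → ℝ := fun x y => (1 + (-1) * (if F x y then θ else 0)) / 4 with hKdef
  set ψ : X → Y → ℝ := fun x y => 1 - 2 / p * (if F x y then (1 : ℝ) else 0) with hψ
  obtain ⟨α, β, hα, hβ, h1⟩ := steps A B K (fun ψ => step A B a b ha hb (-1) (by simp) K
    (fun x hx y hy => by rw [hKdef, hθ x hx y hy]) ψ) N ψ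
  obtain ⟨A', hA', B', hB', h2⟩ := sets A B α β hα hβ ψ
  refine ⟨A', hA', B', hB', ?_⟩
  have h3 : ∑ x ∈ A', ∑ y ∈ B', ψ x y = A'.card * B'.card - 2 / p * ones F A' B' := by
    rw [hψ, ones]
    simp only [sum_sub_distrib, ← mul_sum]
    simp
  rw [← h3]
  refine le_trans ?_ (h1.trans h2)
  have hq0 : (0 : ℝ) ≤ (1 / 4) ^ N := by positivity
  have h4 : ∀ x y, (1 / 4 : ℝ) ^ N * (1 - (1 + 1 / (16 * p)) * (if F x y then (1 : ℝ) else 0)) ≤
      K x y ^ N * ψ x y := by
    intro x y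
    rw [hKdef, hψ]
    simp only
    cases hF : F x y with
    | false => simp
    | true =>
      simp only [if_true, mul_one]
      have e1 : ((1 + (-1) * θ) / 4) ^ N = (1 / 4 : ℝ) ^ N * (1 - θ) ^ N := by
        rw [← mul_pow]
        congr 1
        ring
      rw [e1, mul_assoc]
      refine mul_le_mul_of_nonneg_left ?_ hq0
      have e2 : 0 ≤ (1 - θ) ^ N := pow_nonneg (by linarith) N
      have e3 : (1 - θ) ^ N * (2 / p) ≤ 1 / 32 * (2 / p) :=
        mul_le_mul_of_nonneg_right hN (by positivity)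
      have e4 : 1 / 32 * (2 / p) = 1 / (16 * p) := by
        field_simp
        norm_num
      rw [e4] at e3
      nlinarith
  have h5 : ∑ x ∈ A, ∑ y ∈ B, (1 / 4 : ℝ) ^ N *
      (1 - (1 + 1 / (16 * p)) * (if F x y then (1 : ℝ) else 0)) =
      (1 / 4 : ℝ) ^ N * (A.card * B.card - (1 + 1 / (16 * p)) * ones F A B) := by
    rw [ones]
    simp only [← mul_sum, sum_sub_distrib]
    simp
  refine le_trans ?_ (sum_le_sum fun x _ => sum_le_sum fun y _ => h4 x y)
  rw [h5]
  refine mul_le_mul_of_nonneg_left ?_ hq0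
  have h6 : (1 + 1 / (16 * p)) * ones F A B ≤
      (1 + 1 / (16 * p)) * (64 / 49 * p * (A.card * B.card)) :=
    mul_le_mul_of_nonneg_left hones (by positivity)
  have h7 : (1 + 1 / (16 * p)) * (64 / 49 * p * ((A.card : ℝ) * B.card)) =
      (64 / 49 * p + 4 / 49) * (A.card * B.card) := by
    field_simp
    ring
  have h8 : (64 / 49 * p + 4 / 49) * ((A.card : ℝ) * B.card) ≤ 36 / 49 * (A.card * B.card) :=
    mul_le_mul_of_nonneg_right (by linarith) (by positivity)
  have h9 : (0 : ℝ) ≤ A.card * B.card := by positivity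
  linarith

/-- **The halving step.** -/
theorem halve {X Y : Type} [Fintype X] [Fintype Y] [DecidableEq X] [DecidableEq Y]
    (F : X → Y → Bool) (k : ℕ) (lam : ℝ) (hlam : 0 ≤ lam) (hsing : Sing (comm F) k lam)
    (S : Finset X) (T : Finset Y) (hS : S.Nonempty) (hT : T.Nonempty) (ρ : ℕ)
    (hρ : rk F S T ≤ ρ) (p : ℝ) (hp0 : 0 < p) (hp : p ≤ 1 / 2)
    (hones : ones F S T ≤ p * (S.card * T.card))
    (hsize : 2 * ρ * lam ≤ Real.sqrt (S.card * T.card)) (N : ℕ)
    (hN : 152 * (Real.sqrt ((min k (2 * ρ) : ℕ) * (2 * p)) + 1) ≤ N) :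
    ∃ S' ⊆ S, ∃ T' ⊆ T, S'.Nonempty ∧ T'.Nonempty ∧
      ones F S' T' ≤ p / 2 * (S'.card * T'.card) ∧
      (S.card : ℝ) * T.card ≤ 6 * 4 ^ N * (S'.card * T'.card) := by
  classical
  have hS0 : (0 : ℝ) < S.card := by exact_mod_cast hS.card_pos
  have hT0 : (0 : ℝ) < T.card := by exact_mod_cast hT.card_pos
  have hST : (0 : ℝ) < (S.card : ℝ) * T.card := by positivity
  set σ := Real.sqrt (S.card * T.card) with hσ
  have hσ0 : 0 < σ := Real.sqrt_pos.mpr hST
  have hσ2 : σ ^ 2 = S.card * T.card := Real.sq_sqrt hST.le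
  set m := sub (comm F) S T σ with hm
  have hB := dbl_herm m
  set K := min k (2 * ρ) with hK
  set τ : ℝ := 2 * (Real.sqrt (K * (2 * p)) + 1) with hτ
  have hsq0 : 0 ≤ Real.sqrt (K * (2 * p)) := Real.sqrt_nonneg _
  have hτ2 : 2 ≤ τ := by linarith
  have hrank : (dbl m).rank ≤ 2 * ρ := dbl_rank m ρ ((sub_rank F S T σ).trans hρ)
  have ht0 : 0 ≤ lam / σ := by positivity
  have hcount : (univ.filter (fun i => hB.eigenvalues i < -(lam / σ))).card ≤ K := by
    rw [hK, le_min_iff]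
    constructor
    · refine few_big (dbl m) k (lam / σ) (lam / σ) (fun _ => 1)
        (sub_few (comm F) k lam hlam hsing S T σ hσ0) (fun x => by simp) hB
        (fun x y => by simp)
    · refine le_trans ?_ hrank
      rw [hB.rank_eq_card_non_zero_eigs, Fintype.card_subtype]
      refine card_le_card fun i hi => ?_
      rw [mem_filter] at hi ⊢
      exact ⟨mem_univ _, by
        have := hi.2
        intro h0
        rw [h0] at this
        linarith⟩
  have hsqsum : ∑ z, ∑ z', dbl m z z' ^ 2 ≤ 2 * p := by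
    rw [dbl_sq]
    have e1 : ∑ x, ∑ y, m x y ^ 2 = ones F S T / σ ^ 2 := by
      have e2 : ∀ x y, m x y ^ 2 =
          if x ∈ S then (if y ∈ T then (if F x y then (1 : ℝ) else 0) / σ ^ 2 else 0) else 0 := by
        intro x y
        rw [hm]
        simp only [sub, Matrix.of_apply]
        by_cases hx : x ∈ S
        · by_cases hy : y ∈ T
          · rw [if_pos ⟨hx, hy⟩, if_pos hx, if_pos hy, div_pow]
            congr 1
            show (if F x y then (1 : ℝ) else 0) ^ 2 = _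
            split_ifs <;> norm_num
          · rw [if_neg (fun h => hy h.2), if_pos hx, if_neg hy]
            norm_num
        · rw [if_neg (fun h => hx h.1), if_neg hx]
          norm_num
      simp_rw [e2]
      rw [ones, sum_div]
      have e3 : ∀ x, ∑ y, (if x ∈ S then (if y ∈ T then (if F x y then (1 : ℝ) else 0) / σ ^ 2
          else 0) else 0) = if x ∈ S then ∑ y ∈ T, (if F x y then (1 : ℝ) else 0) / σ ^ 2 else 0 := by
        intro x
        split_ifs
        · rw [sum_ite_mem, univ_inter]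
        · exact sum_const_zero
      simp_rw [e3]
      rw [sum_ite_mem, univ_inter]
      exact sum_congr rfl fun x _ => by rw [sum_div]
    rw [e1, hσ2]
    have : ones F S T / (S.card * T.card) ≤ p := by
      rw [div_le_iff₀ hST]
      exact hones
    linarith
  have htn := trace_norm0 hB K (2 * ρ) (lam / σ) (2 * p) ht0 hcount hrank (by
    push_cast
    rw [mul_div_assoc', div_le_one hσ0]
    exact hsize) (dbl_trace m) hsqsum
  obtain ⟨c, c', hcc, hcn, hcs⟩ := factor hB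
  rw [← hcs] at htn
  -- the vectors
  have hrS : 0 < Real.sqrt S.card := Real.sqrt_pos.mpr hS0
  have hrT : 0 < Real.sqrt T.card := Real.sqrt_pos.mpr hT0
  set a : X → EuclideanSpace ℝ (X ⊕ Y) := fun x => Real.sqrt S.card • c (Sum.inl x) with ha
  set b : Y → EuclideanSpace ℝ (X ⊕ Y) := fun y => Real.sqrt T.card • c' (Sum.inr y) with hb
  have hab : ∀ x ∈ S, ∀ y ∈ T, ⟪a x, b y⟫ = if F x y then (1 : ℝ) else 0 := by
    intro x hx y hy
    rw [ha, hb]
    simp only
    rw [real_inner_smul_left, real_inner_smul_right, hcc]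
    have e1 : dbl m (Sum.inl x) (Sum.inr y) = (if F x y then (1 : ℝ) else 0) / σ := by
      rw [dbl, Matrix.fromBlocks_apply₁₂, hm]
      simp only [sub, Matrix.of_apply]
      rw [if_pos ⟨hx, hy⟩]
      rfl
    rw [e1, ← mul_assoc, ← Real.sqrt_mul hS0.le, ← hσ]
    field_simp
  have hna : ∑ x ∈ S, ‖a x‖ ^ 2 ≤ τ * S.card := by
    calc ∑ x ∈ S, ‖a x‖ ^ 2 = S.card * ∑ x ∈ S, ‖c (Sum.inl x)‖ ^ 2 := by
          rw [mul_sum]
          refine sum_congr rfl fun x _ => ?_
          rw [ha]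
          simp only
          rw [norm_smul, mul_pow, Real.norm_eq_abs, sq_abs, Real.sq_sqrt hS0.le]
      _ ≤ S.card * ∑ z, ‖c z‖ ^ 2 := by
          refine mul_le_mul_of_nonneg_left ?_ hS0.le
          rw [Fintype.sum_sum_type]
          have e1 : ∑ x ∈ S, ‖c (Sum.inl x)‖ ^ 2 ≤ ∑ x, ‖c (Sum.inl x)‖ ^ 2 :=
            sum_le_sum_of_subset_of_nonneg (subset_univ _) fun _ _ _ => sq_nonneg _
          have e2 : 0 ≤ ∑ y, ‖c (Sum.inr y)‖ ^ 2 := sum_nonneg fun _ _ => sq_nonneg _
          linarith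
      _ ≤ S.card * τ := mul_le_mul_of_nonneg_left htn hS0.le
      _ = τ * S.card := mul_comm _ _
  have hnb : ∑ y ∈ T, ‖b y‖ ^ 2 ≤ τ * T.card := by
    calc ∑ y ∈ T, ‖b y‖ ^ 2 = T.card * ∑ y ∈ T, ‖c' (Sum.inr y)‖ ^ 2 := by
          rw [mul_sum]
          refine sum_congr rfl fun x _ => ?_
          rw [hb]
          simp only
          rw [norm_smul, mul_pow, Real.norm_eq_abs, sq_abs, Real.sq_sqrt hT0.le]
      _ ≤ T.card * ∑ z, ‖c z‖ ^ 2 := by
          refine mul_le_mul_of_nonneg_left ?_ hT0.le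
          rw [Fintype.sum_sum_type]
          have e1 : ∑ y ∈ T, ‖c' (Sum.inr y)‖ ^ 2 ≤ ∑ y, ‖c (Sum.inr y)‖ ^ 2 :=
            (sum_le_sum fun y _ => hcn _).trans
            (sum_le_sum_of_subset_of_nonneg (subset_univ _) fun _ _ _ => sq_nonneg _)
          have e2 : 0 ≤ ∑ x, ‖c (Sum.inl x)‖ ^ 2 := sum_nonneg fun _ _ => sq_nonneg _
          linarith
      _ ≤ T.card * τ := mul_le_mul_of_nonneg_left htn hT0.le
      _ = τ * T.card := mul_comm _ _
  set S0 := S.filter (fun x => ‖a x‖ ^ 2 ≤ 8 * τ) with hS0def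
  set T0 := T.filter (fun x => ‖b x‖ ^ 2 ≤ 8 * τ) with hT0def
  have hτ0 : 0 < τ := by linarith
  have hS8 : 7 * S.card ≤ 8 * S0.card := most_good S _ (fun _ => sq_nonneg _) τ hτ0 hna
  have hT8 : 7 * T.card ≤ 8 * T0.card := most_good T _ (fun _ => sq_nonneg _) τ hτ0 hnb
  have hS8' : (7 : ℝ) * S.card ≤ 8 * S0.card := by exact_mod_cast hS8
  have hT8' : (7 : ℝ) * T.card ≤ 8 * T0.card := by exact_mod_cast hT8
  have hprod : (S.card : ℝ) * T.card ≤ 64 / 49 * (S0.card * T0.card) := by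
    have h1 : (7 * (S.card : ℝ)) * (7 * T.card) ≤ (8 * S0.card) * (8 * T0.card) :=
      mul_le_mul hS8' hT8' (by positivity) (by positivity)
    linarith
  obtain ⟨hθ0, hθ1, hθN⟩ := theta2 τ hτ2 N (by
    have : 76 * τ = 152 * (Real.sqrt (K * (2 * p)) + 1) := by rw [hτ]; ring
    rw [this]
    exact hN)
  have hsq : Real.sqrt (8 * τ) ^ 2 = 8 * τ := Real.sq_sqrt (by linarith)
  have hsp : 0 < Real.sqrt (8 * τ) := Real.sqrt_pos.mpr (by linarith)
  obtain ⟨S', hS', T', hT', hc⟩ := halve_count F S0 T0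
    (fun x => (Real.sqrt (8 * τ))⁻¹ • a x) (fun x => (Real.sqrt (8 * τ))⁻¹ • b x)
    (fun x hx => by
      rw [norm_smul, norm_inv, Real.norm_eq_abs, abs_of_pos hsp, inv_mul_le_iff₀ hsp, mul_one]
      rw [hS0def, mem_filter] at hx
      exact Real.le_sqrt_of_sq_le hx.2)
    (fun x hx => by
      rw [norm_smul, norm_inv, Real.norm_eq_abs, abs_of_pos hsp, inv_mul_le_iff₀ hsp, mul_one]
      rw [hT0def, mem_filter] at hx
      exact Real.le_sqrt_of_sq_le hx.2)
    (Real.exp (-1) * Real.sinh (1 / (8 * τ))) hθ1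
    (fun x hx y hy => by
      rw [real_inner_smul_left, real_inner_smul_right,
        hab x (mem_of_mem_filter x hx) y (mem_of_mem_filter y hy)]
      have e1 : (Real.sqrt (8 * τ))⁻¹ * (Real.sqrt (8 * τ))⁻¹ = 1 / (8 * τ) := by
        rw [← mul_inv, ← sq, hsq, one_div]
      rw [← mul_assoc, e1]
      split_ifs <;> simp)
    N hθN p hp0 hp (by
      calc ones F S0 T0 ≤ ones F S T := ones_mono F (filter_subset _ _) (filter_subset _ _)
        _ ≤ p * (S.card * T.card) := hones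
        _ ≤ p * (64 / 49 * (S0.card * T0.card)) := mul_le_mul_of_nonneg_left hprod hp0.le
        _ = _ := by ring)
  have h40 : (0 : ℝ) < (1 / 4) ^ N := by positivity
  have hS0T0 : (0 : ℝ) < (S0.card : ℝ) * T0.card := by
    have : (0 : ℝ) < 64 / 49 * ((S0.card : ℝ) * T0.card) := lt_of_lt_of_le hST hprod
    linarith
  have hpos : (0 : ℝ) < (1 / 4 : ℝ) ^ N * (S0.card * T0.card / 4) := by positivity
  have hon : 0 ≤ 2 / p * ones F S' T' := mul_nonneg (by positivity) (ones_nonneg _ _ _)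
  have hcard' : (0 : ℝ) < (S'.card : ℝ) * T'.card := by linarith
  have hS'ne : S'.Nonempty := by
    rw [nonempty_iff_ne_empty]
    rintro rfl
    simp at hcard'
  have hT'ne : T'.Nonempty := by
    rw [nonempty_iff_ne_empty]
    rintro rfl
    simp at hcard'
  refine ⟨S', hS'.trans (filter_subset _ _), T', hT'.trans (filter_subset _ _), hS'ne, hT'ne,
    ?_, ?_⟩
  · have h1 : 2 / p * ones F S' T' ≤ S'.card * T'.card := by linarith
    rw [div_mul_eq_mul_div, div_le_iff₀ hp0] at h1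
    linarith
  · have h1 : (1 / 4 : ℝ) ^ N * ((S0.card * T0.card : ℝ) / 4) ≤ S'.card * T'.card := by linarith
    have h2 := fin_pow N _ _ h1
    calc (S.card : ℝ) * T.card ≤ 64 / 49 * (S0.card * T0.card) := hprod
      _ ≤ 64 / 49 * (4 * 4 ^ N * (S'.card * T'.card)) :=
          mul_le_mul_of_nonneg_left h2 (by norm_num)
      _ = 256 / 49 * (4 ^ N * (S'.card * T'.card)) := by ring
      _ ≤ 6 * (4 ^ N * (S'.card * T'.card)) :=
          mul_le_mul_of_nonneg_right (by norm_num) (by positivity)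
      _ = _ := by ring

end Pool.Agent.U322.LR
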