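import Pool.Agent.U322.LR.OneSide

/-!
The protocol for symmetric Boolean matrices with few eigenvalues below `-lam`.
-/

set_option autoImplicit false
set_option linter.unusedSectionVars false

namespace Pool.Agent.U322.LR

open Finset Pool.Agent.H630R2.LR Pool.Agent.R533.VC
open scoped RealInnerProductSpace

theorem theta (G : ℝ) (hG : 3 ≤ G) (r T : ℕ) (hT : 16 * G * (3 + Real.logb 2 (r + 1)) ≤ T) :
    0 ≤ Real.exp (-1) * Real.sinh (1 / (4 * G)) ∧
    Real.exp (-1) * Real.sinh (1 / (4 * G)) ≤ 1 ∧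
    (4 * (r + 1) : ℝ) * (1 - Real.exp (-1) * Real.sinh (1 / (4 * G)) / 2) ^ T ≤ 1 / 2 := by
  have hG0 : 0 < G := by linarith
  have ht0 : 0 ≤ 1 / (4 * G) := by positivity
  have ht1 : 1 / (4 * G) ≤ 1 := by
    rw [div_le_one (by positivity)]
    linarith
  have hs : 1 / (4 * G) ≤ Real.sinh (1 / (4 * G)) := Real.self_le_sinh_iff.mpr ht0
  have h0 : 0 ≤ Real.exp (-1) * Real.sinh (1 / (4 * G)) :=
    mul_nonneg (Real.exp_pos _).le (ht0.trans hs)
  have h1 : Real.exp (-1) * Real.sinh (1 / (4 * G)) ≤ 1 := by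
    rw [Real.sinh_eq]
    have e1 : Real.exp (1 / (4 * G)) ≤ Real.exp 1 := Real.exp_le_exp.mpr ht1
    have e2 : Real.exp (-1) * Real.exp 1 = 1 := by
      rw [← Real.exp_add]
      simp
    have e3 := Real.exp_pos (-(1 / (4 * G)))
    have e4 := Real.exp_pos (-1)
    nlinarith
  refine ⟨h0, h1, ?_⟩
  set θ := Real.exp (-1) * Real.sinh (1 / (4 * G)) with hθ
  have h2 : (1 - θ / 2) ^ T ≤ Real.exp (-(θ / 2 * T)) := by
    calc (1 - θ / 2) ^ T ≤ (Real.exp (-(θ / 2))) ^ T :=
          pow_le_pow_left₀ (by linarith) (Real.one_sub_le_exp_neg _) T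
      _ = Real.exp (-(θ / 2 * T)) := by
          rw [← Real.exp_nat_mul]
          congr 1
          ring
  have hlog : 0 ≤ Real.logb 2 (r + 1 : ℝ) := Real.logb_nonneg (by norm_num) (by
    have : (0 : ℝ) ≤ r := Nat.cast_nonneg r
    linarith)
  have h3 : Real.log (8 * (r + 1)) ≤ θ / 2 * T := by
    have e1 : Real.log (8 * (r + 1) : ℝ) = Real.log 2 * (3 + Real.logb 2 (r + 1)) := by
      have e0 : Real.log 2 * Real.logb 2 (r + 1 : ℝ) = Real.log (r + 1 : ℝ) := by
        have : Real.log 2 ≠ 0 := (Real.log_pos (by norm_num)).ne'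
        rw [Real.logb]
        field_simp
      rw [mul_add (Real.log 2), e0, Real.log_mul (by norm_num) (by positivity)]
      have : Real.log 8 = Real.log 2 * 3 := by
        rw [show (8 : ℝ) = 2 ^ 3 by norm_num, Real.log_pow]
        push_cast
        ring
      rw [this]
    rw [e1]
    have e2 : Real.exp (-1) / (4 * G) ≤ θ := by
      rw [hθ, div_eq_mul_one_div]
      exact mul_le_mul_of_nonneg_left hs (Real.exp_pos _).le
    have e3 : Real.exp (-1) / (4 * G) / 2 * (16 * G * (3 + Real.logb 2 (r + 1))) ≤ θ / 2 * T :=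
      mul_le_mul (by linarith) hT (by positivity) (by linarith)
    have e4 : Real.exp (-1) / (4 * G) / 2 * (16 * G * (3 + Real.logb 2 (r + 1))) =
        (2 * Real.exp (-1)) * (3 + Real.logb 2 (r + 1)) := by
      field_simp
      ring
    rw [e4] at e3
    refine le_trans (mul_le_mul_of_nonneg_right ?_ (by linarith)) e3
    have e5 := Real.log_two_lt_d9
    have e6 := Real.exp_one_lt_d9
    rw [Real.exp_neg]
    have e7 : (0 : ℝ) < Real.exp 1 := Real.exp_pos 1
    rw [← div_eq_mul_inv, le_div_iff₀ e7]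
    nlinarith
  have h4 : Real.exp (-(θ / 2 * T)) ≤ 1 / (8 * (r + 1)) := by
    rw [Real.exp_neg, one_div]
    apply inv_anti₀ (by positivity)
    rw [← Real.log_le_iff_le_exp (by positivity)]
    exact h3
  have h5 : (0 : ℝ) < r + 1 := by positivity
  calc (4 * (r + 1) : ℝ) * (1 - θ / 2) ^ T ≤ (4 * (r + 1)) * (1 / (8 * (r + 1))) :=
        mul_le_mul_of_nonneg_left (h2.trans h4) (by positivity)
    _ = 1 / 2 := by
        field_simp
        norm_num

theorem half_good {X : Type} (S : Finset X) (f : X → ℝ) (hf : ∀ x, 0 ≤ f x) (G : ℝ) (hG : 0 < G)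
    (h : ∑ x ∈ S, f x ≤ 2 * G * S.card) :
    S.card ≤ 2 * (S.filter (fun x => f x ≤ 4 * G)).card := by
  classical
  have h1 : 4 * G * ((S.filter (fun x => ¬ f x ≤ 4 * G)).card : ℝ) ≤ 2 * G * S.card := by
    refine le_trans ?_ h
    calc 4 * G * ((S.filter (fun x => ¬ f x ≤ 4 * G)).card : ℝ)
        = ∑ x ∈ S.filter (fun x => ¬ f x ≤ 4 * G), 4 * G := by
          rw [sum_const, nsmul_eq_mul]; ring
      _ ≤ ∑ x ∈ S.filter (fun x => ¬ f x ≤ 4 * G), f x := by
          refine sum_le_sum fun x hx => ?_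
          rw [mem_filter] at hx
          exact (not_le.mp hx.2).le
      _ ≤ _ := sum_le_sum_of_subset_of_nonneg (filter_subset _ _) fun x _ _ => hf x
  have h2 : 2 * ((S.filter (fun x => ¬ f x ≤ 4 * G)).card : ℝ) ≤ S.card := by
    have h3 : (2 * G) * (2 * ((S.filter (fun x => ¬ f x ≤ 4 * G)).card : ℝ)) ≤
        (2 * G) * S.card := by linarith
    exact le_of_mul_le_mul_left h3 (by linarith)
  have h2' : 2 * (S.filter (fun x => ¬ f x ≤ 4 * G)).card ≤ S.card := by exact_mod_cast h2
  have h4 := card_filter_add_card_filter_not (s := S) (fun x => f x ≤ 4 * G)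
  omega

/-- a row or a column -/
theorem one_row {X Y : Type} (F : X → Y → Bool) (A : Finset X) (B : Finset Y) (hA : A.Nonempty) :
    ∃ A' ⊆ A, ∃ B' ⊆ B, ∃ v : Bool, (∀ x ∈ A', ∀ y ∈ B', F x y = v) ∧
      A.card * B.card ≤ 2 * A.card * (A'.card * B'.card) := by
  classical
  obtain ⟨x, hx⟩ := hA
  have h1 : (B.filter (fun y => F x y = true)).card + (B.filter (fun y => F x y = false)).card
      = B.card := by
    rw [← card_filter_add_card_filter_not (s := B) (fun y => F x y = true)]
    congr 2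
    ext y
    simp
  obtain ⟨v, hv⟩ : ∃ v : Bool, B.card ≤ 2 * (B.filter (fun y => F x y = v)).card := by
    by_contra hcon
    push Not at hcon
    have e1 := hcon true
    have e2 := hcon false
    omega
  refine ⟨{x}, by simpa using hx, B.filter (fun y => F x y = v), filter_subset _ _, v, ?_, ?_⟩
  · intro z hz y hy
    rw [mem_singleton] at hz
    rw [mem_filter] at hy
    rw [hz]
    exact hy.2
  · rw [card_singleton, one_mul]
    calc A.card * B.card ≤ A.card * (2 * (B.filter (fun y => F x y = v)).card) :=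
          Nat.mul_le_mul_left _ hv
      _ = _ := by ring

theorem rich (X : Type) [Fintype X] [DecidableEq X] (F : X → X → Bool)
    (hF : (comm F).IsHermitian) (k : ℕ) (lam : ℝ)
    (hfew : Few (comm F) k lam) (r : ℕ) (hr1 : 1 ≤ r) (hr : (comm F).rank ≤ r) (T : ℕ)
    (hT : 16 * (3 + 2 * Real.sqrt k) * (3 + Real.logb 2 (r + 1)) ≤ T) :
    Rich F (64 * 4 ^ T + 2 * ⌈lam * r⌉₊) := by
  classical
  intro S U hS hU
  have hk0 : 0 ≤ Real.sqrt k := Real.sqrt_nonneg _
  set G : ℝ := 3 + 2 * Real.sqrt k with hG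
  have hG3 : 3 ≤ G := by linarith
  have hG0 : 0 < G := by linarith
  by_cases h1 : lam * r ≤ S.card
  · by_cases h2 : lam * r ≤ U.card
    · obtain ⟨a, b, hab, ha, hb⟩ := vectors F hF k lam hfew r hr1 hr S U hS hU h1 h2
      set S0 := S.filter (fun x => ‖a x‖ ^ 2 ≤ 4 * G) with hS0
      set U0 := U.filter (fun x => ‖b x‖ ^ 2 ≤ 4 * G) with hU0
      have hS2 : S.card ≤ 2 * S0.card := half_good S _ (fun _ => sq_nonneg _) G hG0 ha
      have hU2 : U.card ≤ 2 * U0.card := half_good U _ (fun _ => sq_nonneg _) G hG0 hb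
      have hS0ne : S0.Nonempty := by
        rw [← card_pos]
        have := hS.card_pos
        omega
      have hU0ne : U0.Nonempty := by
        rw [← card_pos]
        have := hU.card_pos
        omega
      obtain ⟨hθ0, hθ1, hθT⟩ := theta G hG3 r T hT
      have hsq : Real.sqrt (4 * G) ^ 2 = 4 * G := Real.sq_sqrt (by linarith)
      have hsp : 0 < Real.sqrt (4 * G) := Real.sqrt_pos.mpr (by linarith)
      obtain ⟨A', hA', B', hB', v, hv, hc⟩ := round F S0 U0 hS0ne hU0ne
        (fun x => (Real.sqrt (4 * G))⁻¹ • a x) (fun x => (Real.sqrt (4 * G))⁻¹ • b x)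
        (fun x hx => by
          rw [norm_smul, norm_inv, Real.norm_eq_abs, abs_of_pos hsp, inv_mul_le_iff₀ hsp, mul_one]
          rw [hS0, mem_filter] at hx
          exact Real.le_sqrt_of_sq_le hx.2)
        (fun x hx => by
          rw [norm_smul, norm_inv, Real.norm_eq_abs, abs_of_pos hsp, inv_mul_le_iff₀ hsp, mul_one]
          rw [hU0, mem_filter] at hx
          exact Real.le_sqrt_of_sq_le hx.2)
        (Real.exp (-1) * Real.sinh (1 / (4 * G))) hθ0 hθ1
        (fun x hx y hy => by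
          rw [real_inner_smul_left, real_inner_smul_right,
            hab x (mem_of_mem_filter x hx) y (mem_of_mem_filter y hy)]
          have e1 : (Real.sqrt (4 * G))⁻¹ * (Real.sqrt (4 * G))⁻¹ = 1 / (4 * G) := by
            rw [← mul_inv, ← sq, hsq, one_div]
          rw [← mul_assoc, e1]
          split_ifs <;> simp)
        r T ((rk_le F S0 U0).trans hr) hθT
      refine ⟨A', hA'.trans (filter_subset _ _), B', hB'.trans (filter_subset _ _), v, hv, ?_⟩
      calc S.card * U.card ≤ (2 * S0.card) * (2 * U0.card) := Nat.mul_le_mul hS2 hU2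
        _ = 4 * (S0.card * U0.card) := by ring
        _ ≤ 4 * (16 * 4 ^ T * (A'.card * B'.card)) := Nat.mul_le_mul_left _ hc
        _ = (64 * 4 ^ T) * (A'.card * B'.card) := by ring
        _ ≤ _ := Nat.mul_le_mul_right _ (Nat.le_add_right _ _)
    · push Not at h2
      obtain ⟨B', hB', A', hA', v, hv, hc⟩ := one_row (fun y x => F x y) U S hU
      refine ⟨A', hA', B', hB', v, fun x hx y hy => hv y hy x hx, ?_⟩
      have h3 : U.card ≤ ⌈lam * r⌉₊ := by
        have h4 : (U.card : ℝ) ≤ ⌈lam * r⌉₊ := h2.le.trans (Nat.le_ceil _)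
        exact_mod_cast h4
      calc S.card * U.card = U.card * S.card := mul_comm _ _
        _ ≤ 2 * U.card * (B'.card * A'.card) := hc
        _ = (2 * U.card) * (A'.card * B'.card) := by ring
        _ ≤ _ := Nat.mul_le_mul_right _ (by omega)
  · push Not at h1
    obtain ⟨A', hA', B', hB', v, hv, hc⟩ := one_row F S U hS
    refine ⟨A', hA', B', hB', v, hv, hc.trans (Nat.mul_le_mul_right _ ?_)⟩
    have h3 : S.card ≤ ⌈lam * r⌉₊ := by
      have h4 : (S.card : ℝ) ≤ ⌈lam * r⌉₊ := h1.le.trans (Nat.le_ceil _)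
      exact_mod_cast h4
    omega

end Pool.Agent.U322.LR
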