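import Pool.Agent.U322.LR.Halve
import Pool.Agent.U322.LR.Rich

/-!
Monochromatic rectangles in Boolean matrices with few large singular values.
-/

set_option autoImplicit false
set_option linter.unusedSectionVars false

namespace Pool.Agent.U322.LR

open Finset Pool.Agent.H630R2.LR Pool.Agent.R533.VC
open scoped RealInnerProductSpace

/-- the number of the rounds in the step `j` -/
noncomputable def rounds (K j : ℕ) : ℕ := ⌈152 * (Real.sqrt (K * (1 / 2) ^ j) + 1)⌉₊

/-- the cost of the first `J` steps -/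
noncomputable def cost (K J : ℕ) : ℕ := ∑ j ∈ range J, (rounds K j + 2)

theorem cost_succ (K J : ℕ) : cost K (J + 1) = cost K J + (rounds K J + 2) := by
  rw [cost, cost, sum_range_succ]

section
variable {X Y : Type} [Fintype X] [Fintype Y] [DecidableEq X] [DecidableEq Y]

theorem iter (F : X → Y → Bool) (k : ℕ) (lam : ℝ) (hlam : 0 ≤ lam) (hsing : Sing (comm F) k lam)
    (S : Finset X) (T : Finset Y) (hS : S.Nonempty) (hT : T.Nonempty) (ρ : ℕ)
    (hρ : rk F S T ≤ ρ) (hones : ones F S T ≤ 1 / 2 * (S.card * T.card)) (J : ℕ) :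
    2 * ρ * lam * 2 ^ cost (min k (2 * ρ)) J ≤ Real.sqrt (S.card * T.card) →
    ∃ S' ⊆ S, ∃ T' ⊆ T, S'.Nonempty ∧ T'.Nonempty ∧
      ones F S' T' ≤ (1 / 2) ^ (J + 1) * (S'.card * T'.card) ∧
      (S.card : ℝ) * T.card ≤ 4 ^ cost (min k (2 * ρ)) J * (S'.card * T'.card) := by
  induction J with
  | zero =>
    intro _
    refine ⟨S, subset_rfl, T, subset_rfl, hS, hT, by simpa using hones, ?_⟩
    simp [cost]
  | succ J ih =>
    intro hsize
    set K := min k (2 * ρ) with hK
    have hc : cost K J ≤ cost K (J + 1) := by rw [cost_succ]; omega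
    have hρl : 0 ≤ 2 * (ρ : ℝ) * lam := by positivity
    have hsize' : 2 * ρ * lam * 2 ^ cost K J ≤ Real.sqrt (S.card * T.card) := by
      refine le_trans (mul_le_mul_of_nonneg_left ?_ hρl) hsize
      exact pow_le_pow_right₀ (by norm_num) hc
    obtain ⟨S1, hS1, T1, hT1, hS1n, hT1n, ho, hcard⟩ := ih hsize'
    have h4 : (4 : ℝ) ^ cost K J = (2 ^ cost K J) ^ 2 := by
      rw [← pow_mul, mul_comm, pow_mul]
      norm_num
    have hP : (0 : ℝ) < 2 ^ cost K J := by positivity
    have hsq : Real.sqrt (S.card * T.card) ≤ 2 ^ cost K J * Real.sqrt (S1.card * T1.card) := by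
      rw [Real.sqrt_le_iff]
      refine ⟨by positivity, ?_⟩
      rw [mul_pow, Real.sq_sqrt (by positivity), ← h4]
      exact hcard
    have hsz : 2 * ρ * lam ≤ Real.sqrt (S1.card * T1.card) := by
      have h1 := hsize'.trans hsq
      rw [mul_comm] at h1
      exact le_of_mul_le_mul_left h1 hP
    obtain ⟨S2, hS2, T2, hT2, hS2n, hT2n, ho2, hcard2⟩ := halve F k lam hlam hsing S1 T1 hS1n hT1n ρ
      ((rk_mono F hS1 hT1).trans hρ) ((1 / 2) ^ (J + 1)) (by positivity)
      (by
        rw [pow_succ]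
        have : ((1 : ℝ) / 2) ^ J ≤ 1 := pow_le_one₀ (by norm_num) (by norm_num)
        linarith) ho hsz (rounds K J) (by
        have e : (2 : ℝ) * (1 / 2) ^ (J + 1) = (1 / 2) ^ J := by
          rw [pow_succ]
          ring
        rw [e]
        exact Nat.le_ceil _)
    refine ⟨S2, hS2.trans hS1, T2, hT2.trans hT1, hS2n, hT2n, ?_, ?_⟩
    · refine ho2.trans (le_of_eq ?_)
      rw [pow_succ (1 / 2 : ℝ) (J + 1)]
      ring
    · calc (S.card : ℝ) * T.card ≤ 4 ^ cost K J * (S1.card * T1.card) := hcard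
        _ ≤ 4 ^ cost K J * (6 * 4 ^ rounds K J * (S2.card * T2.card)) :=
            mul_le_mul_of_nonneg_left hcard2 (by positivity)
        _ ≤ 4 ^ cost K J * (16 * 4 ^ rounds K J * (S2.card * T2.card)) := by
            refine mul_le_mul_of_nonneg_left ?_ (by positivity)
            have : (0 : ℝ) ≤ 4 ^ rounds K J * (S2.card * T2.card) := by positivity
            nlinarith
        _ = 4 ^ cost K (J + 1) * (S2.card * T2.card) := by
            rw [cost_succ, pow_add, pow_add]
            ring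

/-- the size of the rectangles -/
noncomputable def qq (k : ℕ) (lam : ℝ) (ρ : ℕ) : ℕ :=
  4 * 4 ^ cost (min (k + 1) (2 * (ρ + 1))) (Nat.clog 2 (4 * (ρ + 2))) +
    2 * ⌈2 * (ρ + 1) * lam * 2 ^ cost (min (k + 1) (2 * (ρ + 1))) (Nat.clog 2 (4 * (ρ + 2)))⌉₊

theorem rect_sparse (F : X → Y → Bool) (k : ℕ) (lam : ℝ) (hlam : 0 ≤ lam)
    (hsing : Sing (comm F) (k + 1) lam)
    (S : Finset X) (T : Finset Y) (hS : S.Nonempty) (hT : T.Nonempty) (ρ : ℕ)
    (hρ : rk F S T ≤ ρ + 1) (hones : ones F S T ≤ 1 / 2 * (S.card * T.card)) :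
    ∃ S' ⊆ S, ∃ T' ⊆ T, ∃ v : Bool, (∀ x ∈ S', ∀ y ∈ T', F x y = v) ∧
      S.card * T.card ≤ qq k lam ρ * (S'.card * T'.card) := by
  classical
  set J := Nat.clog 2 (4 * (ρ + 2)) with hJ
  set C := cost (min (k + 1) (2 * (ρ + 1))) J with hC
  have hS0 : (0 : ℝ) < S.card := by exact_mod_cast hS.card_pos
  have hT0 : (0 : ℝ) < T.card := by exact_mod_cast hT.card_pos
  by_cases hsize : 2 * ((ρ + 1 : ℕ) : ℝ) * lam * 2 ^ C ≤ Real.sqrt (S.card * T.card)
  · obtain ⟨S1, hS1, T1, hT1, hS1n, hT1n, ho, hcard⟩ :=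
      iter F (k + 1) lam hlam hsing S T hS hT (ρ + 1) hρ hones J hsize
    have hJ2 : 4 * (ρ + 2) ≤ 2 ^ J := Nat.le_pow_clog (by norm_num) _
    have hJ3 : (4 * ((ρ + 1 : ℕ) + 1) : ℝ) * ones F S1 T1 ≤ S1.card * T1.card := by
      have e1 : (4 * ((ρ + 1 : ℕ) + 1) : ℝ) ≤ 2 ^ J := by
        have : ((4 * (ρ + 2) : ℕ) : ℝ) ≤ ((2 ^ J : ℕ) : ℝ) := by exact_mod_cast hJ2
        push_cast at this ⊢
        linarith
      have e2 : (2 : ℝ) ^ J * (1 / 2) ^ (J + 1) = 1 / 2 := by
        rw [pow_succ, ← mul_assoc, ← mul_pow]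
        norm_num
      calc (4 * ((ρ + 1 : ℕ) + 1) : ℝ) * ones F S1 T1 ≤ 2 ^ J * ones F S1 T1 :=
            mul_le_mul_of_nonneg_right e1 (ones_nonneg _ _ _)
        _ ≤ 2 ^ J * ((1 / 2) ^ (J + 1) * (S1.card * T1.card)) :=
            mul_le_mul_of_nonneg_left ho (by positivity)
        _ = 1 / 2 * (S1.card * T1.card) := by rw [← mul_assoc, e2]
        _ ≤ _ := by
            have : (0 : ℝ) ≤ (S1.card : ℝ) * T1.card := by positivity
            linarith
    have h3 : ones F S1 T1 = ((∑ x ∈ S1, (T1.filter (fun y => F x y ≠ false)).card : ℕ) : ℝ) := by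
      rw [ones]
      push_cast
      refine sum_congr rfl fun x _ => ?_
      rw [sum_boole]
      simp
    rw [h3] at hJ3
    have h2' : 4 * ((ρ + 1) + 1) * (∑ x ∈ S1, (T1.filter (fun y => F x y ≠ false)).card) ≤
        S1.card * T1.card := by exact_mod_cast hJ3
    obtain ⟨S2, hS2, T2, hT2, h4, h5⟩ := few_errors F S1 T1 hT1n false (ρ + 1)
      ((rk_mono F hS1 hT1).trans hρ) h2'
    refine ⟨S2, hS2.trans hS1, T2, hT2.trans hT1, false, h4, ?_⟩
    have hcard' : S.card * T.card ≤ 4 ^ C * (S1.card * T1.card) := by exact_mod_cast hcard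
    calc S.card * T.card ≤ 4 ^ C * (S1.card * T1.card) := hcard'
      _ ≤ 4 ^ C * (4 * (S2.card * T2.card)) := Nat.mul_le_mul_left _ h5
      _ = (4 * 4 ^ C) * (S2.card * T2.card) := by ring
      _ ≤ qq k lam ρ * (S2.card * T2.card) := by
          refine Nat.mul_le_mul_right _ ?_
          rw [qq]
          exact Nat.le_add_right _ _
  · push Not at hsize
    have hq : ∀ n : ℕ, (n : ℝ) ≤ Real.sqrt (S.card * T.card) → 2 * n ≤ qq k lam ρ := by
      intro n hn
      have h1 : (n : ℝ) ≤ ⌈2 * ((ρ : ℝ) + 1) * lam * 2 ^ C⌉₊ := by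
        refine (hn.trans hsize.le).trans ?_
        push_cast
        exact Nat.le_ceil _
      have h2 : n ≤ ⌈2 * ((ρ : ℝ) + 1) * lam * 2 ^ C⌉₊ := by exact_mod_cast h1
      rw [qq, ← hJ, ← hC]
      omega
    rcases le_total S.card T.card with hle | hle
    · obtain ⟨A', hA', B', hB', v, hv, hc⟩ := one_row F S T hS
      refine ⟨A', hA', B', hB', v, hv, hc.trans (Nat.mul_le_mul_right _ (hq _ ?_))⟩
      apply Real.le_sqrt_of_sq_le
      have : (S.card : ℝ) ≤ T.card := by exact_mod_cast hle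
      nlinarith
    · obtain ⟨B', hB', A', hA', v, hv, hc⟩ := one_row (fun y x => F x y) T S hT
      refine ⟨A', hA', B', hB', v, fun x hx y hy => hv y hy x hx, ?_⟩
      have h1 : 2 * T.card ≤ qq k lam ρ := by
        refine hq _ ?_
        apply Real.le_sqrt_of_sq_le
        have : (T.card : ℝ) ≤ S.card := by exact_mod_cast hle
        nlinarith
      calc S.card * T.card = T.card * S.card := mul_comm _ _
        _ ≤ 2 * T.card * (B'.card * A'.card) := hc
        _ = (2 * T.card) * (A'.card * B'.card) := by ring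
        _ ≤ _ := Nat.mul_le_mul_right _ h1

theorem Sing.mono {M : Matrix X Y ℝ} {k k' : ℕ} {lam : ℝ} (h : Sing M k lam) (hk : k ≤ k') :
    Sing M k' lam := by
  obtain ⟨ι, i, f, hι, hf⟩ := h
  exact ⟨ι, i, f, hι.trans hk, hf⟩

theorem Sing.compl (F : X → Y → Bool) (k : ℕ) (lam : ℝ) (h : Sing (comm F) k lam) :
    Sing (comm (fun x y => !F x y)) (k + 1) lam := by
  obtain ⟨ι, _, f, hι, hf⟩ := h
  refine ⟨Option ι, inferInstance, fun j => j.elim (fun _ => 1) f, ?_, fun u hu => ?_⟩
  · rw [Fintype.card_option]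
    omega
  · have h0 : ∑ x, u x = 0 := by
      have := hu none
      simpa using this
    have h1 := hf u (fun j => hu (some j))
    refine le_trans (le_of_eq ?_) h1
    refine sum_congr rfl fun y _ => ?_
    have e : ∑ x, u x * comm (fun x y => !F x y) x y = -∑ x, u x * comm F x y := by
      have : ∀ x, u x * comm (fun x y => !F x y) x y = u x - u x * comm F x y := by
        intro x
        show u x * (if (!F x y) then (1 : ℝ) else 0) = u x - u x * (if F x y then (1 : ℝ) else 0)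
        cases F x y <;> simp
      rw [sum_congr rfl fun x _ => this x, sum_sub_distrib, h0, zero_sub]
    rw [e, neg_sq]

/-- **Monochromatic rectangles.** -/
theorem rect (F : X → Y → Bool) (k : ℕ) (lam : ℝ) (hlam : 0 ≤ lam)
    (hsing : Sing (comm F) k lam)
    (S : Finset X) (T : Finset Y) (hS : S.Nonempty) (hT : T.Nonempty) (ρ : ℕ)
    (hρ : rk F S T ≤ ρ) :
    ∃ S' ⊆ S, ∃ T' ⊆ T, ∃ v : Bool, (∀ x ∈ S', ∀ y ∈ T', F x y = v) ∧
      S.card * T.card ≤ qq k lam ρ * (S'.card * T'.card) := by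
  by_cases h : ones F S T ≤ 1 / 2 * (S.card * T.card)
  · exact rect_sparse F k lam hlam (hsing.mono (Nat.le_succ k)) S T hS hT ρ (by omega) h
  · push Not at h
    have h1 : ones (fun x y => !F x y) S T + ones F S T = S.card * T.card := by
      rw [ones, ones, ← sum_add_distrib]
      have : ∀ x ∈ S, (∑ y ∈ T, (if (!F x y) then (1 : ℝ) else 0) +
          ∑ y ∈ T, (if F x y then (1 : ℝ) else 0)) = T.card := by
        intro x _
        rw [← sum_add_distrib]
        have : ∀ y ∈ T, ((if (!F x y) then (1 : ℝ) else 0) +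
          (if F x y then (1 : ℝ) else 0)) = 1 := by
          intro y _
          cases F x y <;> simp
        rw [sum_congr rfl this]
        simp
      rw [sum_congr rfl this]
      simp
    obtain ⟨S', hS', T', hT', v, hv, hc⟩ := rect_sparse (fun x y => !F x y) k lam hlam
      (Sing.compl F k lam hsing) S T hS hT ρ
      ((rank_not (fun (x : S) (y : T) => F x y)).trans (Nat.succ_le_succ hρ)) (by linarith)
    exact ⟨S', hS', T', hT', !v, fun x hx y hy => by simp [← hv x hx y hy], hc⟩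

end

end Pool.Agent.U322.LR
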