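import Pool.Agent.U322.LR.Gauss
import Pool.Agent.R533.VC.Err

/-!
A Boolean matrix whose entries are the inner products of short vectors contains large monochromatic
rectangles.
-/

set_option autoImplicit false
set_option linter.unusedSectionVars false

namespace Pool.Agent.U322.LR

open MeasureTheory ProbabilityTheory Real Finset
open scoped RealInnerProductSpace

variable {E : Type*} [NormedAddCommGroup E] [InnerProductSpace ℝ E] [FiniteDimensional ℝ E]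
  [MeasurableSpace E] [BorelSpace E]

variable {X Y : Type*}

/-- one step -/
theorem step (A : Finset X) (B : Finset Y) (a : X → E) (b : Y → E) (ha : ∀ x ∈ A, ‖a x‖ ≤ 1)
    (hb : ∀ y ∈ B, ‖b y‖ ≤ 1) (s : ℝ) (hs : |s| = 1) (K : X → Y → ℝ)
    (hK : ∀ x ∈ A, ∀ y ∈ B, K x y = (1 + s * (Real.exp (-1) * Real.sinh ⟪a x, b y⟫)) / 4)
    (ψ : X → Y → ℝ) :
    ∃ (α : X → ℝ) (β : Y → ℝ), (∀ x ∈ A, 0 ≤ α x ∧ α x ≤ 1) ∧ (∀ y ∈ B, 0 ≤ β y ∧ β y ≤ 1) ∧
      ∑ x ∈ A, ∑ y ∈ B, K x y * ψ x y ≤ ∑ x ∈ A, ∑ y ∈ B, α x * β y * ψ x y := by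
  classical
  let f : E → ℝ := fun g => ∑ x ∈ A, ∑ y ∈ B,
    ((1 + rd (a x) g) / 2) * ((1 + s * rd (b y) g) / 2) * ψ x y
  have hexp : ∀ x y, (fun g : E => ((1 + rd (a x) g) / 2) * ((1 + s * rd (b y) g) / 2) * ψ x y) =
      fun g => (ψ x y / 4) + (ψ x y / 4) * rd (a x) g + (ψ x y / 4 * s) * rd (b y) g +
        (ψ x y / 4 * s) * (rd (a x) g * rd (b y) g) := by
    intro x y
    funext g
    ring
  have hint1 : ∀ x y, Integrable (fun g : E => ((1 + rd (a x) g) / 2) *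
      ((1 + s * rd (b y) g) / 2) * ψ x y) (stdGaussian E) := by
    intro x y
    rw [hexp]
    exact (((integrable_const _).add ((rd_int _).const_mul _)).add
      ((rd_int _).const_mul _)).add ((rd_mul_int _ _).const_mul _)
  have hval : ∀ x ∈ A, ∀ y ∈ B, ∫ g, ((1 + rd (a x) g) / 2) *
      ((1 + s * rd (b y) g) / 2) * ψ x y ∂(stdGaussian E) = K x y * ψ x y := by
    intro x hx y hy
    rw [hexp]
    have i1 : Integrable (fun _ : E => ψ x y / 4) (stdGaussian E) := integrable_const _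
    have i2 : Integrable (fun g : E => (ψ x y / 4) * rd (a x) g) (stdGaussian E) :=
      (rd_int _).const_mul _
    have i3 : Integrable (fun g : E => (ψ x y / 4 * s) * rd (b y) g) (stdGaussian E) :=
      (rd_int _).const_mul _
    have i4 : Integrable (fun g : E => (ψ x y / 4 * s) * (rd (a x) g * rd (b y) g))
      (stdGaussian E) := (rd_mul_int _ _).const_mul _
    have i12 : Integrable (fun g : E => ψ x y / 4 + (ψ x y / 4) * rd (a x) g) (stdGaussian E) :=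
      i1.add i2
    have i123 : Integrable (fun g : E => ψ x y / 4 + (ψ x y / 4) * rd (a x) g +
      (ψ x y / 4 * s) * rd (b y) g) (stdGaussian E) := i12.add i3
    rw [integral_add i123 i4, integral_add i12 i3, integral_add i1 i2, integral_const_mul,
      integral_const_mul, integral_const_mul, rd_mean, rd_mean, rd_mul, hK x hx y hy]
    simp
    ring
  have hf : Integrable f (stdGaussian E) :=
    integrable_finsetSum _ fun x _ => integrable_finsetSum _ fun y _ => hint1 x y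
  have hfval : ∫ g, f g ∂(stdGaussian E) = ∑ x ∈ A, ∑ y ∈ B, K x y * ψ x y := by
    show ∫ g, ∑ x ∈ A, ∑ y ∈ B, ((1 + rd (a x) g) / 2) * ((1 + s * rd (b y) g) / 2) * ψ x y
      ∂(stdGaussian E) = _
    rw [integral_finsetSum _ fun x _ => integrable_finsetSum _ fun y _ => hint1 x y]
    refine sum_congr rfl fun x hx => ?_
    rw [integral_finsetSum _ fun y _ => hint1 x y]
    exact sum_congr rfl fun y hy => hval x hx y hy
  obtain ⟨g, hg⟩ := exists_integral_le hf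
  rw [hfval] at hg
  refine ⟨fun x => (1 + rd (a x) g) / 2, fun y => (1 + s * rd (b y) g) / 2, ?_, ?_, hg⟩
  · intro x hx
    have h1 := abs_le.mp (rd_le (a x) g (ha x hx))
    constructor
    · show 0 ≤ (1 + rd (a x) g) / 2
      linarith [h1.1]
    · show (1 + rd (a x) g) / 2 ≤ 1
      linarith [h1.2]
  · intro y hy
    have h0 : |s * rd (b y) g| ≤ 1 := by
      rw [abs_mul, hs, one_mul]
      exact rd_le (b y) g (hb y hy)
    have h1 := abs_le.mp h0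
    constructor
    · show 0 ≤ (1 + s * rd (b y) g) / 2
      linarith [h1.1]
    · show (1 + s * rd (b y) g) / 2 ≤ 1
      linarith [h1.2]

/-- many steps -/
theorem steps (A : Finset X) (B : Finset Y) (K : X → Y → ℝ)
    (h : ∀ ψ : X → Y → ℝ, ∃ (α : X → ℝ) (β : Y → ℝ), (∀ x ∈ A, 0 ≤ α x ∧ α x ≤ 1) ∧
      (∀ y ∈ B, 0 ≤ β y ∧ β y ≤ 1) ∧
      ∑ x ∈ A, ∑ y ∈ B, K x y * ψ x y ≤ ∑ x ∈ A, ∑ y ∈ B, α x * β y * ψ x y) (T : ℕ) :
    ∀ ψ : X → Y → ℝ, ∃ (α : X → ℝ) (β : Y → ℝ), (∀ x ∈ A, 0 ≤ α x ∧ α x ≤ 1) ∧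
      (∀ y ∈ B, 0 ≤ β y ∧ β y ≤ 1) ∧
      ∑ x ∈ A, ∑ y ∈ B, K x y ^ T * ψ x y ≤ ∑ x ∈ A, ∑ y ∈ B, α x * β y * ψ x y := by
  induction T with
  | zero =>
    intro ψ
    refine ⟨fun _ => 1, fun _ => 1, fun _ _ => ⟨by norm_num, le_rfl⟩,
      fun _ _ => ⟨by norm_num, le_rfl⟩, le_of_eq ?_⟩
    refine sum_congr rfl fun x _ => sum_congr rfl fun y _ => by ring
  | succ T ih =>
    intro ψ
    obtain ⟨α, β, hα, hβ, h1⟩ := h (fun x y => K x y ^ T * ψ x y)
    obtain ⟨α', β', hα', hβ', h2⟩ := ih (fun x y => α x * β y * ψ x y)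
    refine ⟨fun x => α x * α' x, fun y => β y * β' y, ?_, ?_, ?_⟩
    · intro x hx
      exact ⟨mul_nonneg (hα x hx).1 (hα' x hx).1, mul_le_one₀ (hα x hx).2 (hα' x hx).1 (hα' x hx).2⟩
    · intro y hy
      exact ⟨mul_nonneg (hβ y hy).1 (hβ' y hy).1, mul_le_one₀ (hβ y hy).2 (hβ' y hy).1 (hβ' y hy).2⟩
    · calc ∑ x ∈ A, ∑ y ∈ B, K x y ^ (T + 1) * ψ x y
          = ∑ x ∈ A, ∑ y ∈ B, K x y * (K x y ^ T * ψ x y) := by
            refine sum_congr rfl fun x _ => sum_congr rfl fun y _ => by ring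
        _ ≤ ∑ x ∈ A, ∑ y ∈ B, α x * β y * (K x y ^ T * ψ x y) := h1
        _ = ∑ x ∈ A, ∑ y ∈ B, K x y ^ T * (α x * β y * ψ x y) := by
            refine sum_congr rfl fun x _ => sum_congr rfl fun y _ => by ring
        _ ≤ ∑ x ∈ A, ∑ y ∈ B, α' x * β' y * (α x * β y * ψ x y) := h2
        _ = _ := by
            refine sum_congr rfl fun x _ => sum_congr rfl fun y _ => by ring

/-- weights in the unit interval can be replaced by sets -/
theorem extreme {ι : Type*} (S : Finset ι) (u c : ι → ℝ) (hu : ∀ i ∈ S, 0 ≤ u i ∧ u i ≤ 1) :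
    ∃ S' ⊆ S, ∑ i ∈ S, u i * c i ≤ ∑ i ∈ S', c i := by
  classical
  refine ⟨S.filter (fun i => 0 ≤ c i), filter_subset _ _, ?_⟩
  rw [sum_filter]
  refine sum_le_sum fun i hi => ?_
  split_ifs with h
  · nlinarith [(hu i hi).2]
  · push Not at h
    nlinarith [(hu i hi).1]

theorem sets (A : Finset X) (B : Finset Y) (α : X → ℝ) (β : Y → ℝ)
    (hα : ∀ x ∈ A, 0 ≤ α x ∧ α x ≤ 1) (hβ : ∀ y ∈ B, 0 ≤ β y ∧ β y ≤ 1) (ψ : X → Y → ℝ) :
    ∃ A' ⊆ A, ∃ B' ⊆ B, ∑ x ∈ A, ∑ y ∈ B, α x * β y * ψ x y ≤ ∑ x ∈ A', ∑ y ∈ B', ψ x y := by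
  obtain ⟨A', hA', h1⟩ := extreme A α (fun x => ∑ y ∈ B, β y * ψ x y) hα
  obtain ⟨B', hB', h2⟩ := extreme B β (fun y => ∑ x ∈ A', ψ x y) hβ
  refine ⟨A', hA', B', hB', ?_⟩
  calc ∑ x ∈ A, ∑ y ∈ B, α x * β y * ψ x y = ∑ x ∈ A, α x * ∑ y ∈ B, β y * ψ x y := by
        refine sum_congr rfl fun x _ => ?_
        rw [mul_sum]
        exact sum_congr rfl fun y _ => by ring
    _ ≤ ∑ x ∈ A', ∑ y ∈ B, β y * ψ x y := h1
    _ = ∑ y ∈ B, β y * ∑ x ∈ A', ψ x y := by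
        rw [sum_comm]
        refine sum_congr rfl fun y _ => ?_
        rw [mul_sum]
    _ ≤ ∑ y ∈ B', ∑ x ∈ A', ψ x y := h2
    _ = _ := sum_comm

theorem fin_arith (κ q N S P Q M L : ℝ) (h5 : κ * (N / 4) ≤ S) (h6 : S = P - L * Q) (h7 : P ≤ M)
    (h8 : 0 ≤ Q) (h9 : q ≤ κ) (hN : 0 ≤ N) (hL : 0 ≤ L) (hq : 0 ≤ q) :
    q * (N / 4) ≤ M ∧ L * Q ≤ M := by
  have e1 : q * (N / 4) ≤ κ * (N / 4) := mul_le_mul_of_nonneg_right h9 (by linarith)
  have e2 : 0 ≤ L * Q := mul_nonneg hL h8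
  have e3 : 0 ≤ q * (N / 4) := mul_nonneg hq (by linarith)
  constructor <;> linarith

theorem fin_pow (T : ℕ) (N M : ℝ) (h : (1 / 4 : ℝ) ^ T * (N / 4) ≤ M) : N ≤ 4 * 4 ^ T * M := by
  have e3 : (4 : ℝ) ^ T * (1 / 4) ^ T = 1 := by
    rw [← mul_pow]
    norm_num
  calc N = 4 * ((4 : ℝ) ^ T * (1 / 4) ^ T * (N / 4)) := by rw [e3]; ring
    _ = 4 * 4 ^ T * ((1 / 4 : ℝ) ^ T * (N / 4)) := by ring
    _ ≤ 4 * 4 ^ T * M := mul_le_mul_of_nonneg_left h (by positivity)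

/-- **Rectangles with few errors.** -/
theorem errors (F : X → Y → Bool) (A : Finset X) (B : Finset Y) (a : X → E) (b : Y → E)
    (ha : ∀ x ∈ A, ‖a x‖ ≤ 1) (hb : ∀ y ∈ B, ‖b y‖ ≤ 1) (θ : ℝ) (hθ0 : 0 ≤ θ) (hθ1 : θ ≤ 1)
    (hθ : ∀ x ∈ A, ∀ y ∈ B, Real.exp (-1) * Real.sinh ⟪a x, b y⟫ = if F x y then θ else 0)
    (L T : ℕ) (hT : (L : ℝ) * (1 - θ / 2) ^ T ≤ 1 / 2) (v : Bool)
    (hv : (A.card : ℝ) * B.card ≤ 2 * ∑ x ∈ A, ∑ y ∈ B, (if F x y = v then (1 : ℝ) else 0)) :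
    ∃ A' ⊆ A, ∃ B' ⊆ B,
      (A.card : ℝ) * B.card ≤ 4 * 4 ^ T * (A'.card * B'.card) ∧
      (L : ℝ) * ∑ x ∈ A', ∑ y ∈ B', (if F x y ≠ v then (1 : ℝ) else 0) ≤ A'.card * B'.card := by
  classical
  -- the sign
  set s : ℝ := if v then 1 else -1 with hs
  have hs1 : |s| = 1 := by
    rw [hs]
    cases v <;> simp
  set K : X → Y → ℝ := fun x y => (1 + s * (if F x y then θ else 0)) / 4 with hKdef
  -- the good value
  set κ : ℝ := if v then (1 + θ) / 4 else 1 / 4 with hκ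
  have hκ4 : 1 / 4 ≤ κ := by
    rw [hκ]
    split_ifs
    · linarith
    · exact le_rfl
  have hgood : ∀ x y, F x y = v → K x y = κ := by
    intro x y h
    rw [hKdef, hκ, hs]
    simp only [h]
    cases v <;> simp
  have hbad : ∀ x y, F x y ≠ v → 0 ≤ K x y ∧ K x y ≤ (1 - θ / 2) * κ := by
    intro x y h
    rw [hKdef, hκ, hs]
    cases v with
    | false =>
      have h1 : F x y = true := by simpa using h
      simp only [h1]
      simp only [Bool.false_eq_true, if_false, if_true]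
      constructor
      · linarith
      · linarith
    | true =>
      have h1 : F x y = false := by simpa using h
      simp only [h1]
      simp only [Bool.false_eq_true, if_false, if_true]
      constructor
      · norm_num
      · nlinarith
  obtain ⟨α, β, hα, hβ, h1⟩ := steps A B K (fun ψ => step A B a b ha hb s hs1 K (fun x hx y hy => by
    rw [hKdef, hθ x hx y hy]) ψ) T (fun x y => if F x y = v then (1 : ℝ) else -L)
  obtain ⟨A', hA', B', hB', h2⟩ := sets A B α β hα hβ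
    (fun x y => if F x y = v then (1 : ℝ) else -L)
  have hκ0 : 0 ≤ κ := by linarith
  have hq0 : (0 : ℝ) ≤ 1 - θ / 2 := by linarith
  -- the lower bound
  have h3 : ∀ x y, κ ^ T * ((if F x y = v then (1 : ℝ) else 0) -
      (1 / 2) * (if F x y = v then (0 : ℝ) else 1)) ≤
      K x y ^ T * (if F x y = v then (1 : ℝ) else -L) := by
    intro x y
    by_cases h : F x y = v
    · rw [hgood x y h]
      simp [h]
    · obtain ⟨e1, e2⟩ := hbad x y h
      simp only [h, if_false]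
      have e3 : K x y ^ T ≤ ((1 - θ / 2) * κ) ^ T := pow_le_pow_left₀ e1 e2 T
      have e4 : (L : ℝ) * K x y ^ T ≤ 1 / 2 * κ ^ T := by
        calc (L : ℝ) * K x y ^ T ≤ L * ((1 - θ / 2) * κ) ^ T :=
              mul_le_mul_of_nonneg_left e3 (Nat.cast_nonneg _)
          _ = (L * (1 - θ / 2) ^ T) * κ ^ T := by rw [mul_pow]; ring
          _ ≤ 1 / 2 * κ ^ T := mul_le_mul_of_nonneg_right hT (pow_nonneg hκ0 T)
      linarith
  have h4 : ∑ x ∈ A, ∑ y ∈ B, ((if F x y = v then (1 : ℝ) else 0) -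
      (1 / 2) * (if F x y = v then (0 : ℝ) else 1)) ≥ (A.card : ℝ) * B.card / 4 := by
    have e1 : ∀ x y, ((if F x y = v then (1 : ℝ) else 0) -
        (1 / 2) * (if F x y = v then (0 : ℝ) else 1)) =
        (3 / 2) * (if F x y = v then (1 : ℝ) else 0) - 1 / 2 := by
      intro x y
      split_ifs <;> norm_num
    simp_rw [e1, sum_sub_distrib, ← mul_sum]
    simp only [sum_const, nsmul_eq_mul]
    nlinarith
  have h5 : κ ^ T * ((A.card : ℝ) * B.card / 4) ≤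
      ∑ x ∈ A', ∑ y ∈ B', (if F x y = v then (1 : ℝ) else -L) := by
    refine le_trans ?_ (h1.trans h2)
    calc κ ^ T * ((A.card : ℝ) * B.card / 4)
        ≤ κ ^ T * ∑ x ∈ A, ∑ y ∈ B, ((if F x y = v then (1 : ℝ) else 0) -
      (1 / 2) * (if F x y = v then (0 : ℝ) else 1)) :=
          mul_le_mul_of_nonneg_left h4 (pow_nonneg hκ0 T)
      _ = ∑ x ∈ A, ∑ y ∈ B, κ ^ T * ((if F x y = v then (1 : ℝ) else 0) -
      (1 / 2) * (if F x y = v then (0 : ℝ) else 1)) := by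
          rw [mul_sum]
          exact sum_congr rfl fun x _ => by rw [mul_sum]
      _ ≤ _ := sum_le_sum fun x _ => sum_le_sum fun y _ => h3 x y
  have h6 : ∑ x ∈ A', ∑ y ∈ B', (if F x y = v then (1 : ℝ) else -L) =
      ∑ x ∈ A', ∑ y ∈ B', (if F x y = v then (1 : ℝ) else 0) -
      L * ∑ x ∈ A', ∑ y ∈ B', (if F x y ≠ v then (1 : ℝ) else 0) := by
    rw [mul_sum, ← sum_sub_distrib]
    refine sum_congr rfl fun x _ => ?_
    rw [mul_sum, ← sum_sub_distrib]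
    refine sum_congr rfl fun y _ => ?_
    by_cases h : F x y = v
    · rw [if_pos h, if_pos h, if_neg (not_not.mpr h)]
      ring
    · rw [if_neg h, if_neg h, if_pos h]
      ring
  have h7 : ∑ x ∈ A', ∑ y ∈ B', (if F x y = v then (1 : ℝ) else 0) ≤ A'.card * B'.card := by
    calc ∑ x ∈ A', ∑ y ∈ B', (if F x y = v then (1 : ℝ) else 0)
        ≤ ∑ x ∈ A', ∑ y ∈ B', (1 : ℝ) :=
          sum_le_sum fun x _ => sum_le_sum fun y _ => by split_ifs <;> norm_num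
      _ = _ := by simp
  have h8 : 0 ≤ ∑ x ∈ A', ∑ y ∈ B', (if F x y ≠ v then (1 : ℝ) else 0) :=
    sum_nonneg fun x _ => sum_nonneg fun y _ => by split_ifs <;> norm_num
  have h40 : (0 : ℝ) ≤ 1 / 4 := by norm_num
  have h9 : (1 / 4 : ℝ) ^ T ≤ κ ^ T := pow_le_pow_left₀ h40 hκ4 T
  have hN0 : (0 : ℝ) ≤ (A.card : ℝ) * B.card := mul_nonneg (Nat.cast_nonneg _) (Nat.cast_nonneg _)
  obtain ⟨h10, h11⟩ := fin_arith _ _ _ _ _ _ _ _ h5 h6 h7 h8 h9 hN0 (Nat.cast_nonneg L)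
    (pow_nonneg h40 T)
  refine ⟨A', hA', B', hB', ?_, h11⟩
  exact fin_pow T _ _ h10

open Pool.Agent.R533.VC Pool.Agent.H630R2.LR in
/-- **Monochromatic rectangles.** -/
theorem round (F : X → Y → Bool) (A : Finset X) (B : Finset Y) (hA : A.Nonempty)
    (hB : B.Nonempty) (a : X → E) (b : Y → E)
    (ha : ∀ x ∈ A, ‖a x‖ ≤ 1) (hb : ∀ y ∈ B, ‖b y‖ ≤ 1) (θ : ℝ) (hθ0 : 0 ≤ θ) (hθ1 : θ ≤ 1)
    (hθ : ∀ x ∈ A, ∀ y ∈ B, Real.exp (-1) * Real.sinh ⟪a x, b y⟫ = if F x y then θ else 0)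
    (r T : ℕ) (hr : rk F A B ≤ r) (hT : (4 * (r + 1) : ℝ) * (1 - θ / 2) ^ T ≤ 1 / 2) :
    ∃ A' ⊆ A, ∃ B' ⊆ B, ∃ v : Bool, (∀ x ∈ A', ∀ y ∈ B', F x y = v) ∧
      A.card * B.card ≤ 16 * 4 ^ T * (A'.card * B'.card) := by
  classical
  -- the majority value
  obtain ⟨v, hv⟩ : ∃ v : Bool, (A.card : ℝ) * B.card ≤
      2 * ∑ x ∈ A, ∑ y ∈ B, (if F x y = v then (1 : ℝ) else 0) := by
    by_contra hcon
    push Not at hcon
    have e1 := hcon true
    have e2 := hcon false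
    have e3 : ∑ x ∈ A, ∑ y ∈ B, (if F x y = true then (1 : ℝ) else 0) +
        ∑ x ∈ A, ∑ y ∈ B, (if F x y = false then (1 : ℝ) else 0) = A.card * B.card := by
      rw [← sum_add_distrib]
      have : ∀ x ∈ A, (∑ y ∈ B, (if F x y = true then (1 : ℝ) else 0) +
          ∑ y ∈ B, (if F x y = false then (1 : ℝ) else 0)) = B.card := by
        intro x _
        rw [← sum_add_distrib]
        have : ∀ y ∈ B, ((if F x y = true then (1 : ℝ) else 0) +
          (if F x y = false then (1 : ℝ) else 0)) = 1 := by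
          intro y _
          cases F x y <;> simp
        rw [sum_congr rfl this]
        simp
      rw [sum_congr rfl this]
      simp
    linarith
  obtain ⟨A1, hA1, B1, hB1, h1, h2⟩ := errors F A B a b ha hb θ hθ0 hθ1 hθ (4 * (r + 1)) T (by
    push_cast
    exact hT) v hv
  have hcard : 0 < A.card * B.card := Nat.mul_pos hA.card_pos hB.card_pos
  have h1' : A.card * B.card ≤ 4 * 4 ^ T * (A1.card * B1.card) := by exact_mod_cast h1
  have hB1ne : B1.Nonempty := by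
    rw [nonempty_iff_ne_empty]
    rintro rfl
    simp only [card_empty, mul_zero] at h1'
    omega
  have h3 : ∑ x ∈ A1, ∑ y ∈ B1, (if F x y ≠ v then (1 : ℝ) else 0) =
      ((∑ x ∈ A1, (B1.filter (fun y => F x y ≠ v)).card : ℕ) : ℝ) := by
    push_cast
    refine sum_congr rfl fun x _ => ?_
    rw [sum_boole]
  rw [h3] at h2
  have h2' : 4 * (r + 1) * (∑ x ∈ A1, (B1.filter (fun y => F x y ≠ v)).card) ≤
      A1.card * B1.card := by exact_mod_cast h2
  obtain ⟨A2, hA2, B2, hB2, h4, h5⟩ := few_errors F A1 B1 hB1ne v r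
    ((rk_mono F hA1 hB1).trans hr) h2'
  refine ⟨A2, hA2.trans hA1, B2, hB2.trans hB1, v, h4, ?_⟩
  calc A.card * B.card ≤ 4 * 4 ^ T * (A1.card * B1.card) := h1'
    _ ≤ 4 * 4 ^ T * (4 * (A2.card * B2.card)) := Nat.mul_le_mul_left _ h5
    _ = _ := by ring

end Pool.Agent.U322.LR
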