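import Pool.Agent.U322.LR.Spec
import Pool.Agent.U322.LR.Round

/-!
Monochromatic rectangles in symmetric Boolean matrices with few eigenvalues below `-lam`.
-/

set_option autoImplicit false
set_option linter.unusedSectionVars false

namespace Pool.Agent.U322.LR

open Finset Pool.Agent.H630R2.LR Pool.Agent.R533.VC
open scoped RealInnerProductSpace

section
variable {X : Type} [Fintype X] [DecidableEq X]

theorem comm_01 {X Y : Type} (F : X → Y → Bool) (x : X) (y : Y) :
    0 ≤ comm F x y ∧ comm F x y ≤ 1 := by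
  show 0 ≤ (if F x y then (1 : ℝ) else 0) ∧ (if F x y then (1 : ℝ) else 0) ≤ 1
  split_ifs <;> norm_num

/-- the vectors of the rows and of the columns of a submatrix -/
theorem vectors (F : X → X → Bool) (hF : (comm F).IsHermitian) (k : ℕ) (lam : ℝ)
    (hfew : Few (comm F) k lam) (r : ℕ) (hr1 : 1 ≤ r) (hr : (comm F).rank ≤ r)
    (S T : Finset X) (hS : S.Nonempty) (hT : T.Nonempty) (hSr : lam * r ≤ S.card)
    (hTr : lam * r ≤ T.card) :
    ∃ a b : X → EuclideanSpace ℝ X,
      (∀ x ∈ S, ∀ y ∈ T, ⟪a x, b y⟫ = if F x y then (1 : ℝ) else 0) ∧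
      ∑ x ∈ S, ‖a x‖ ^ 2 ≤ 2 * (3 + 2 * Real.sqrt k) * S.card ∧
      ∑ y ∈ T, ‖b y‖ ^ 2 ≤ 2 * (3 + 2 * Real.sqrt k) * T.card := by
  have hr0 : (0 : ℝ) < r := by exact_mod_cast hr1
  have hS0 : (0 : ℝ) < S.card := by exact_mod_cast hS.card_pos
  have hT0 : (0 : ℝ) < T.card := by exact_mod_cast hT.card_pos
  set w : X → ℝ := fun x => (if x ∈ S then 1 / (2 * (S.card : ℝ)) else 0) +
    (if x ∈ T then 1 / (2 * (T.card : ℝ)) else 0) with hw
  have hw0 : ∀ x, 0 ≤ w x := by
    intro x
    rw [hw]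
    simp only
    split_ifs <;> positivity
  have hwS : ∀ x ∈ S, 1 / (2 * (S.card : ℝ)) ≤ w x := by
    intro x hx
    rw [hw]
    simp only [hx, if_true]
    have : (0 : ℝ) ≤ if x ∈ T then 1 / (2 * (T.card : ℝ)) else 0 := by
      split_ifs <;> positivity
    linarith
  have hwT : ∀ x ∈ T, 1 / (2 * (T.card : ℝ)) ≤ w x := by
    intro x hx
    rw [hw]
    simp only [hx, if_true]
    have : (0 : ℝ) ≤ if x ∈ S then 1 / (2 * (S.card : ℝ)) else 0 := by
      split_ifs <;> positivity
    linarith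
  have hwsum : ∑ x, w x ≤ 1 := by
    rw [hw]
    simp only
    rw [sum_add_distrib]
    simp only [sum_ite_mem, univ_inter, sum_const, nsmul_eq_mul]
    have e1 : (S.card : ℝ) * (1 / (2 * (S.card : ℝ))) = 1 / 2 := by field_simp
    have e2 : (T.card : ℝ) * (1 / (2 * (T.card : ℝ))) = 1 / 2 := by field_simp
    rw [e1, e2]
    norm_num
  have hwr : ∀ x, lam * w x ≤ 1 / r := by
    intro x
    have e1 : lam * (1 / (2 * (S.card : ℝ))) ≤ 1 / (2 * r) := by
      rw [mul_one_div, div_le_div_iff₀ (by positivity) (by positivity)]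
      linarith
    have e2 : lam * (1 / (2 * (T.card : ℝ))) ≤ 1 / (2 * r) := by
      rw [mul_one_div, div_le_div_iff₀ (by positivity) (by positivity)]
      linarith
    have e3 : (1 : ℝ) / r = 1 / (2 * r) + 1 / (2 * r) := by field_simp; norm_num
    have e4 : (0 : ℝ) ≤ 1 / (2 * r) := by positivity
    rw [hw, e3]
    simp only
    rw [mul_add]
    refine add_le_add ?_ ?_
    · split_ifs
      · exact e1
      · rw [mul_zero]; exact e4
    · split_ifs
      · exact e2
      · rw [mul_zero]; exact e4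
  set d : X → ℝ := fun x => Real.sqrt (w x) with hd
  have hd2 : ∀ x, d x ^ 2 = w x := fun x => Real.sq_sqrt (hw0 x)
  set B : Matrix X X ℝ := Matrix.of (fun x y => d x * d y * comm F x y) with hBdef
  have hBA : ∀ x y, B x y = d x * d y * comm F x y := fun x y => rfl
  have hsym : ∀ x y, comm F x y = comm F y x := by
    intro x y
    have := congrFun (congrFun hF y) x
    simpa [Matrix.conjTranspose_apply] using this
  have hB : B.IsHermitian := by
    ext x y
    rw [Matrix.conjTranspose_apply, star_trivial, hBA, hBA, hsym]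
    ring
  have htr := trace_norm (comm F) (comm_01 F) k r lam d hfew hr hr1
    (fun x => by rw [hd2]; exact hwr x) (by simp_rw [hd2]; exact hwsum) hB hBA
  set μ := hB.eigenvalues with hμ
  set a : X → EuclideanSpace ℝ X := fun x => WithLp.toLp 2
    (fun i => Real.sqrt |μ i| * ev hB i x / d x) with ha
  set b : X → EuclideanSpace ℝ X := fun x => WithLp.toLp 2
    (fun i => SignType.sign (μ i) * (Real.sqrt |μ i| * ev hB i x / d x)) with hb
  have hdS : ∀ x ∈ S, 0 < d x := fun x hx =>
    Real.sqrt_pos.mpr (lt_of_lt_of_le (by positivity) (hwS x hx))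
  have hdT : ∀ x ∈ T, 0 < d x := fun x hx =>
    Real.sqrt_pos.mpr (lt_of_lt_of_le (by positivity) (hwT x hx))
  have hna : ∀ x, 0 < d x → w x * ‖a x‖ ^ 2 = ∑ i, |μ i| * ev hB i x ^ 2 := by
    intro x hx
    rw [EuclideanSpace.norm_sq_eq, mul_sum]
    refine sum_congr rfl fun i _ => ?_
    rw [ha]
    simp only [Real.norm_eq_abs, sq_abs]
    rw [← hd2, div_pow, mul_pow, Real.sq_sqrt (abs_nonneg _)]
    field_simp
  have hnb : ∀ x, ‖b x‖ ^ 2 ≤ ‖a x‖ ^ 2 := by
    intro x
    rw [EuclideanSpace.norm_sq_eq, EuclideanSpace.norm_sq_eq]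
    refine sum_le_sum fun i _ => ?_
    rw [ha, hb]
    simp only [Real.norm_eq_abs, sq_abs]
    rw [mul_pow]
    have : ((SignType.sign (μ i) : ℝ)) ^ 2 ≤ 1 := by
      rcases lt_trichotomy (μ i) 0 with h | h | h
      · rw [sign_neg h]; norm_num
      · rw [h, sign_zero]; norm_num
      · rw [sign_pos h]; norm_num
    exact mul_le_of_le_one_left (sq_nonneg _) this
  have hsum : ∀ (U : Finset X), U.Nonempty → (∀ x ∈ U, 1 / (2 * (U.card : ℝ)) ≤ w x) →
      ∑ x ∈ U, ‖a x‖ ^ 2 ≤ 2 * (3 + 2 * Real.sqrt k) * U.card := by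
    intro U hU hUw
    have hU0 : (0 : ℝ) < U.card := by exact_mod_cast hU.card_pos
    have h1 : ∑ x ∈ U, (1 / (2 * (U.card : ℝ))) * ‖a x‖ ^ 2 ≤ 3 + 2 * Real.sqrt k := by
      calc ∑ x ∈ U, (1 / (2 * (U.card : ℝ))) * ‖a x‖ ^ 2 ≤ ∑ x ∈ U, w x * ‖a x‖ ^ 2 :=
            sum_le_sum fun x hx => mul_le_mul_of_nonneg_right (hUw x hx) (sq_nonneg _)
        _ = ∑ x ∈ U, ∑ i, |μ i| * ev hB i x ^ 2 := by
            refine sum_congr rfl fun x hx => hna x ?_
            exact Real.sqrt_pos.mpr (lt_of_lt_of_le (by positivity) (hUw x hx))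
        _ ≤ ∑ x, ∑ i, |μ i| * ev hB i x ^ 2 :=
            sum_le_sum_of_subset_of_nonneg (subset_univ _) fun x _ _ =>
              sum_nonneg fun i _ => mul_nonneg (abs_nonneg _) (sq_nonneg _)
        _ = ∑ i, |μ i| * ∑ x, ev hB i x ^ 2 := by
            rw [sum_comm]
            exact sum_congr rfl fun i _ => by rw [mul_sum]
        _ = ∑ i, |μ i| := by
            refine sum_congr rfl fun i _ => ?_
            have e := ev_orth hB i i
            simp only [if_true] at e
            have e2 : ∑ x, ev hB i x ^ 2 = 1 := by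
              rw [← e]
              exact sum_congr rfl fun x _ => sq _
            rw [e2, mul_one]
        _ ≤ _ := htr
    rw [← mul_sum, one_div_mul_eq_div, div_le_iff₀ (by positivity)] at h1
    linarith
  refine ⟨a, b, ?_, hsum S hS hwS, (sum_le_sum fun x _ => hnb x).trans (hsum T hT hwT)⟩
  intro x hx y hy
  have hx0 := hdS x hx
  have hy0 := hdT y hy
  rw [PiLp.inner_apply]
  have e1 : ∀ i, ⟪a x i, b y i⟫ = (μ i * (ev hB i x * ev hB i y)) / (d x * d y) := by
    intro i
    rw [ha, hb]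
    simp only [RCLike.inner_apply, conj_trivial]
    have e2 : (SignType.sign (μ i) : ℝ) * (Real.sqrt |μ i| * Real.sqrt |μ i|) = μ i := by
      rw [Real.mul_self_sqrt (abs_nonneg _)]
      exact sign_mul_abs _
    calc (SignType.sign (μ i) : ℝ) * (Real.sqrt |μ i| * ev hB i y / d y) *
          (Real.sqrt |μ i| * ev hB i x / d x)
        = ((SignType.sign (μ i) : ℝ) * (Real.sqrt |μ i| * Real.sqrt |μ i|)) *
          (ev hB i x * ev hB i y) / (d x * d y) := by
          field_simp
      _ = _ := by rw [e2]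
  rw [sum_congr rfl fun i _ => e1 i, ← sum_div, ← ev_decomp hB x y, hBA]
  have e3 : d x * d y * comm F x y / (d x * d y) = comm F x y := by
    field_simp
  rw [e3]
  rfl

end

end Pool.Agent.U322.LR
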