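import Mathlib

/-!
The lemma of Sauer and Shelah with multiplicities.
-/

set_option autoImplicit false

namespace Pool.Agent.U322.LR

open Finset

/-- A large family has an `m`-set on which every pattern occurs more than `t` times. -/
theorem sauer_mult {α : Type} [Fintype α] [DecidableEq α] (𝒜 : Finset (Finset α)) (m t : ℕ)
    (h : ∑ i ∈ range m, (Fintype.card α).choose i + t * (Fintype.card α).choose m < 𝒜.card) :
    ∃ K : Finset α, K.card = m ∧ ∀ p ⊆ K, t < (𝒜.filter (fun A => K ∩ A = p)).card := by
  by_contra hcon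
  push Not at hcon
  have hcon' : ∀ K : Finset α, ∃ p : Finset α, K.card = m →
      p ⊆ K ∧ (𝒜.filter (fun A => K ∩ A = p)).card ≤ t := by
    intro K
    by_cases hK : K.card = m
    · obtain ⟨p, hp, hpc⟩ := hcon K hK
      exact ⟨p, fun _ => ⟨hp, hpc⟩⟩
    · exact ⟨∅, fun h => absurd h hK⟩
  choose p hp using hcon'
  set P := powersetCard m (univ : Finset α) with hP
  set 𝒟 := P.biUnion (fun K => 𝒜.filter (fun A => K ∩ A = p K)) with h𝒟
  have hD : 𝒟.card ≤ t * (Fintype.card α).choose m := by
    refine card_biUnion_le.trans ?_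
    refine (sum_le_card_nsmul _ _ t fun K hK => ?_).trans ?_
    · rw [hP, mem_powersetCard] at hK
      exact (hp K hK.2).2
    · rw [hP, card_powersetCard, card_univ, smul_eq_mul, mul_comm]
  have hD𝒜 : 𝒟 ⊆ 𝒜 := by
    intro A hA
    rw [h𝒟, mem_biUnion] at hA
    obtain ⟨K, _, hK⟩ := hA
    exact (mem_filter.mp hK).1
  set ℬ := 𝒜 \ 𝒟 with hℬ
  have hB : ∑ i ∈ range m, (Fintype.card α).choose i < ℬ.card := by
    have h1 := card_sdiff_add_card_eq_card hD𝒜
    rw [← hℬ] at h1
    omega
  have hsh : ∀ s : Finset α, ℬ.Shatters s → s.card < m := by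
    intro s hs
    by_contra hsm
    push Not at hsm
    obtain ⟨K, hKs, hK⟩ := exists_subset_card_eq hsm
    obtain ⟨u, hu, hue⟩ := (hs.mono_right hKs) (hp K hK).1
    rw [hℬ, mem_sdiff] at hu
    apply hu.2
    rw [h𝒟, mem_biUnion]
    exact ⟨K, by rw [hP, mem_powersetCard]; exact ⟨subset_univ _, hK⟩,
      mem_filter.mpr ⟨hu.1, hue⟩⟩
  have hBne : ℬ.Nonempty := by
    rw [← card_pos]
    omega
  have hm : 0 < m := by
    have h1 : ℬ.Shatters ∅ := by
      intro t ht
      obtain ⟨u, hu⟩ := hBne
      refine ⟨u, hu, ?_⟩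
      rw [empty_inter]
      exact (subset_empty.mp ht).symm
    have := hsh ∅ h1
    omega
  have hvc : ℬ.vcDim < m := by
    rw [Finset.vcDim, Finset.sup_lt_iff (by exact hm)]
    intro s hs
    rw [mem_shatterer] at hs
    exact hsh s hs
  have h1 := (card_le_card_shatterer ℬ).trans (card_shatterer_le_sum_vcDim (𝒜 := ℬ))
  have h2 : ∑ k ∈ Iic ℬ.vcDim, (Fintype.card α).choose k ≤
      ∑ i ∈ range m, (Fintype.card α).choose i := by
    refine sum_le_sum_of_subset ?_
    intro i hi
    rw [mem_Iic] at hi
    rw [mem_range]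
    omega
  omega

/-- the signs of a pattern -/
def sg (b : Bool) : ℝ := if b then 1 else -1

theorem sg_sq (b : Bool) : sg b * sg b = 1 := by
  cases b <;> simp [sg]

/-- the orthogonality of the signs -/
theorem sg_sum {κ : Type} [Fintype κ] [DecidableEq κ] (j : κ) :
    ∑ p : κ → Bool, sg (p j) = 0 := by
  have e : ∑ p : κ → Bool, sg (p j) = ∑ p : κ → Bool, -sg (p j) := by
    refine Fintype.sum_equiv (Function.Involutive.toPerm
      (fun p : κ → Bool => Function.update p j (!p j)) ?_) _ _ ?_
    · intro p
      ext i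
      by_cases h : i = j
      · subst h
        simp
      · simp [h]
    · intro p
      show sg (p j) = -sg (Function.update p j (!p j) j)
      rw [Function.update_self]
      cases p j <;> simp [sg]
  rw [sum_neg_distrib] at e
  linarith

theorem sg_orth {κ : Type} [Fintype κ] [DecidableEq κ] (j l : κ) :
    ∑ p : κ → Bool, sg (p j) * sg (p l) = if j = l then (2 : ℝ) ^ Fintype.card κ else 0 := by
  by_cases hjl : j = l
  · subst hjl
    simp only [sg_sq, if_true]
    simp
  · rw [if_neg hjl]
    have e : ∑ p : κ → Bool, sg (p j) * sg (p l) = ∑ p : κ → Bool, -(sg (p j) * sg (p l)) := by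
      refine Fintype.sum_equiv (Function.Involutive.toPerm
        (fun p : κ → Bool => Function.update p j (!p j)) ?_) _ _ ?_
      · intro p
        ext i
        by_cases h : i = j
        · subst h
          simp
        · simp [h]
      · intro p
        show sg (p j) * sg (p l) =
          -(sg (Function.update p j (!p j) j) * sg (Function.update p j (!p j) l))
        rw [Function.update_self, Function.update_of_ne (fun h => hjl h.symm)]
        cases p j <;> cases p l <;> simp [sg]
    rw [sum_neg_distrib] at e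
    linarith

end Pool.Agent.U322.LR
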