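import Pool.Agent.U322.LR.Cluster
import Pool.Agent.U322.LR.Sauer

/-!
The number of different rows of a symmetric Boolean matrix with few eigenvalues below `-lam`.
-/

set_option autoImplicit false
set_option linter.unusedSectionVars false

namespace Pool.Agent.U322.LR

open Finset Pool.Agent.H630R2.LR Pool.Agent.R533.VC

section
variable {X : Type} [Fintype X] [DecidableEq X]

/-- the algebraic part -/
theorem no_shatter (F : X → X → Bool) (hsym : ∀ x y, F x y = F y x) (k : ℕ) (lam : ℝ)
    (hlam : 0 ≤ lam) (hfew : Few (comm F) k lam) (T : Finset X) (a : Bool)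
    (hT : ∀ x ∈ T, ∀ y ∈ T, F x y = a) {κ : Type} [Fintype κ] [DecidableEq κ]
    (hκ : Fintype.card κ = k + 1) (e : κ → X) (he : Function.Injective e) (t : ℕ)
    (ht : ((k : ℝ) + 1 + 4 * lam) ^ 2 < (t + 1) * 2 ^ (k + 1))
    (hpat : ∀ p : κ → Bool, (T.filter (fun y => (fun j => F (e j) y) = p)).card = t + 1) :
    False := by
  classical
  obtain ⟨ι, _, f, hι, hf⟩ := hfew
  have hsum : ∀ g : (κ → Bool) → ℝ, ∑ y ∈ T, g (fun j => F (e j) y) = (t + 1) * ∑ p, g p := by
    intro g
    rw [← Finset.sum_fiberwise T (fun y => fun j => F (e j) y), mul_sum]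
    refine sum_congr rfl fun p _ => ?_
    rw [sum_congr rfl (g := fun _ => g p) (fun y hy => by rw [(mem_filter.mp hy).2]), sum_const,
      hpat p, nsmul_eq_mul]
    push_cast
    ring
  set τ : ℝ := (t + 1) * 2 ^ (k + 1) with hτ
  have hτ0 : 0 < τ := by positivity
  have hs1 : ∀ j, ∑ y ∈ T, sg (F (e j) y) = 0 := by
    intro j
    rw [hsum (fun p => sg (p j)), sg_sum, mul_zero]
  have hs2 : ∀ j l, ∑ y ∈ T, sg (F (e j) y) * sg (F (e l) y) = if j = l then τ else 0 := by
    intro j l
    rw [hsum (fun p => sg (p j) * sg (p l)), sg_orth, hκ]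
    split_ifs
    · rfl
    · rw [mul_zero]
  set c : ℝ := 1 / Real.sqrt τ with hc
  have hsq0 : 0 < Real.sqrt τ := Real.sqrt_pos.mpr hτ0
  have hsq2 : Real.sqrt τ ^ 2 = τ := Real.sq_sqrt hτ0.le
  have hc2 : c ^ 2 * τ = 1 := by
    rw [hc, div_pow, one_pow, hsq2]
    field_simp
  have hcτ : c * τ = Real.sqrt τ := by
    rw [hc, one_div_mul_eq_div, div_eq_iff hsq0.ne', ← sq, hsq2]
  -- the vectors
  let φ : κ → X → ℝ := fun j x => (if e j = x then 1 else 0) - c * (if x ∈ T then sg (F (e j) x) else 0)
  let L : (κ → ℝ) →ₗ[ℝ] (ι → ℝ) :=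
    { toFun := fun v i => ∑ x, f i x * ∑ j, v j * φ j x
      map_add' := fun v v' => by
        funext i
        simp only [Pi.add_apply]
        rw [← sum_add_distrib]
        refine sum_congr rfl fun x _ => ?_
        simp only [add_mul, sum_add_distrib]
        ring
      map_smul' := fun s v => by
        funext i
        simp only [Pi.smul_apply, smul_eq_mul, RingHom.id_apply]
        rw [mul_sum]
        refine sum_congr rfl fun x _ => ?_
        have : ∑ j, s * v j * φ j x = s * ∑ j, v j * φ j x := by
          rw [mul_sum]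
          exact sum_congr rfl fun i _ => by ring
        rw [this]
        ring }
  have hker : LinearMap.ker L ≠ ⊥ := by
    apply LinearMap.ker_ne_bot_of_finrank_lt
    rw [Module.finrank_fintype_fun_eq_card, Module.finrank_fintype_fun_eq_card]
    omega
  obtain ⟨v, hv, hv0⟩ := (Submodule.ne_bot_iff _).mp hker
  set w : X → ℝ := fun x => ∑ j, v j * φ j x with hw
  have h1 := hf w (fun i => congrFun (LinearMap.mem_ker.mp hv) i)
  set V := ∑ j, v j ^ 2 with hV
  have hV0 : 0 < V := by
    have hne : ∃ j, v j ≠ 0 := by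
      by_contra hcon
      push Not at hcon
      exact hv0 (funext hcon)
    obtain ⟨j, hj⟩ := hne
    exact sum_pos' (fun _ _ => sq_nonneg _) ⟨j, mem_univ _, by positivity⟩
  -- the entries
  have hA : ∀ x y, comm F x y = (1 + sg (F x y)) / 2 := by
    intro x y
    show (if F x y then (1 : ℝ) else 0) = _
    cases F x y <;> simp [sg]
  -- the bilinear form
  have hB : ∀ j l, ∑ x, ∑ y, φ j x * φ l y * comm F x y =
      comm F (e j) (e l) - (if j = l then c * τ else 0) := by
    intro j l
    have e1 : ∀ (g : X → ℝ) (l : κ), ∑ y, φ l y * g y =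
        g (e l) - c * ∑ y ∈ T, sg (F (e l) y) * g y := by
      intro g l
      have : ∀ y, φ l y * g y = (if e l = y then g y else 0) -
          c * (if y ∈ T then sg (F (e l) y) * g y else 0) := by
        intro y
        show ((if e l = y then (1 : ℝ) else 0) - c * (if y ∈ T then sg (F (e l) y) else 0)) * g y = _
        split_ifs <;> ring
      rw [sum_congr rfl fun y _ => this y, sum_sub_distrib, ← mul_sum, sum_ite_mem, univ_inter]
      simp
    have e2 : ∀ x, ∑ y, φ l y * comm F x y = comm F x (e l) -
        c * ∑ y ∈ T, sg (F (e l) y) * comm F x y := fun x => e1 _ l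
    have e3 : ∑ x, ∑ y, φ j x * φ l y * comm F x y =
        ∑ x, φ j x * (comm F x (e l) - c * ∑ y ∈ T, sg (F (e l) y) * comm F x y) := by
      refine sum_congr rfl fun x _ => ?_
      rw [← e2 x, mul_sum]
      exact sum_congr rfl fun y _ => by ring
    have e4 : ∀ j l, ∑ y ∈ T, sg (F (e l) y) * comm F (e j) y = if j = l then τ / 2 else 0 := by
      intro j l
      have : ∀ y ∈ T, sg (F (e l) y) * comm F (e j) y =
          sg (F (e l) y) / 2 + sg (F (e j) y) * sg (F (e l) y) / 2 := by
        intro y _
        rw [hA]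
        ring
      rw [sum_congr rfl this, sum_add_distrib, ← sum_div, ← sum_div, hs1, hs2]
      split_ifs <;> ring
    have e5 : ∑ x ∈ T, sg (F (e j) x) * (comm F x (e l) -
        c * ∑ y ∈ T, sg (F (e l) y) * comm F x y) = if j = l then τ / 2 else 0 := by
      have e6 : ∀ x ∈ T, ∑ y ∈ T, sg (F (e l) y) * comm F x y = 0 := by
        intro x hx
        have : ∀ y ∈ T, sg (F (e l) y) * comm F x y =
            sg (F (e l) y) * (if a then (1 : ℝ) else 0) := by
          intro y hy
          congr 1
          show (if F x y then (1 : ℝ) else 0) = _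
          rw [hT x hx y hy]
        rw [sum_congr rfl this, ← sum_mul, hs1, zero_mul]
      have e7 : ∀ x ∈ T, sg (F (e j) x) * (comm F x (e l) -
          c * ∑ y ∈ T, sg (F (e l) y) * comm F x y) = sg (F (e j) x) * comm F (e l) x := by
        intro x hx
        rw [e6 x hx, mul_zero, sub_zero]
        congr 1
        show (if F x (e l) then (1 : ℝ) else 0) = if F (e l) x then (1 : ℝ) else 0
        rw [hsym]
      rw [sum_congr rfl e7, e4 l j]
      by_cases hjl : j = l
      · subst hjl; rfl
      · rw [if_neg hjl, if_neg (fun h => hjl h.symm)]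
    rw [e3, e1 _ j, e5, e4 j l]
    split_ifs <;> ring
  -- the quadratic form at `w`
  have hquad : ∑ x, ∑ y, w x * w y * comm F x y =
      ∑ j, ∑ l, v j * v l * comm F (e j) (e l) - c * τ * V := by
    calc ∑ x, ∑ y, w x * w y * comm F x y
        = ∑ x, ∑ y, ∑ j, ∑ l, v j * v l * (φ j x * φ l y * comm F x y) := by
          refine sum_congr rfl fun x _ => sum_congr rfl fun y _ => ?_
          rw [hw]
          simp only
          rw [sum_mul_sum, sum_mul]
          refine sum_congr rfl fun j _ => ?_
          rw [sum_mul]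
          exact sum_congr rfl fun l _ => by ring
      _ = ∑ x, ∑ j, ∑ y, ∑ l, v j * v l * (φ j x * φ l y * comm F x y) :=
          sum_congr rfl fun x _ => sum_comm
      _ = ∑ j, ∑ x, ∑ y, ∑ l, v j * v l * (φ j x * φ l y * comm F x y) := sum_comm
      _ = ∑ j, ∑ x, ∑ l, ∑ y, v j * v l * (φ j x * φ l y * comm F x y) :=
          sum_congr rfl fun j _ => sum_congr rfl fun x _ => sum_comm
      _ = ∑ j, ∑ l, ∑ x, ∑ y, v j * v l * (φ j x * φ l y * comm F x y) :=
          sum_congr rfl fun j _ => sum_comm
      _ = ∑ j, ∑ l, v j * v l * (comm F (e j) (e l) - (if j = l then c * τ else 0)) := by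
          refine sum_congr rfl fun j _ => sum_congr rfl fun l _ => ?_
          rw [← hB j l, mul_sum]
          exact sum_congr rfl fun x _ => by rw [mul_sum]
      _ = ∑ j, ∑ l, v j * v l * comm F (e j) (e l) -
          ∑ j, ∑ l, v j * v l * (if j = l then c * τ else 0) := by
          rw [← sum_sub_distrib]
          refine sum_congr rfl fun j _ => ?_
          rw [← sum_sub_distrib]
          exact sum_congr rfl fun l _ => by ring
      _ = _ := by
          congr 1
          rw [hV, mul_sum]
          refine sum_congr rfl fun j _ => ?_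
          simp only [mul_ite, mul_zero, sum_ite_eq, mem_univ, if_true]
          ring
  have hupper : ∑ j, ∑ l, v j * v l * comm F (e j) (e l) ≤ (k + 1) * V := by
    calc ∑ j, ∑ l, v j * v l * comm F (e j) (e l) ≤ ∑ j, ∑ l, |v j| * |v l| := by
          refine sum_le_sum fun j _ => sum_le_sum fun l _ => ?_
          have h01 : 0 ≤ comm F (e j) (e l) ∧ comm F (e j) (e l) ≤ 1 := by
            show 0 ≤ (if F (e j) (e l) then (1 : ℝ) else 0) ∧
              (if F (e j) (e l) then (1 : ℝ) else 0) ≤ 1
            split_ifs <;> norm_num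
          calc v j * v l * comm F (e j) (e l) ≤ |v j * v l| * comm F (e j) (e l) :=
                mul_le_mul_of_nonneg_right (le_abs_self _) h01.1
            _ ≤ |v j * v l| * 1 := mul_le_mul_of_nonneg_left h01.2 (abs_nonneg _)
            _ = |v j| * |v l| := by rw [mul_one, abs_mul]
      _ = (∑ j, |v j|) ^ 2 := by rw [sq, sum_mul_sum]
      _ ≤ (univ : Finset κ).card * ∑ j, |v j| ^ 2 := sq_sum_le_card_mul_sum_sq
      _ = (k + 1) * V := by
          rw [card_univ, hκ, hV]
          simp_rw [sq_abs]
          push_cast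
          ring
  -- the norm of `w`
  have hnorm : ∑ x, w x ^ 2 ≤ 4 * V := by
    have e1 : ∀ x, w x = (∑ j, v j * (if e j = x then 1 else 0)) -
        (if x ∈ T then c * ∑ j, v j * sg (F (e j) x) else 0) := by
      intro x
      rw [hw]
      simp only
      by_cases hx : x ∈ T
      · rw [if_pos hx, mul_sum, ← sum_sub_distrib]
        refine sum_congr rfl fun j _ => ?_
        show v j * ((if e j = x then (1 : ℝ) else 0) - c * (if x ∈ T then sg (F (e j) x) else 0)) = _
        rw [if_pos hx]
        ring
      · rw [if_neg hx, sub_zero]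
        refine sum_congr rfl fun j _ => ?_
        show v j * ((if e j = x then (1 : ℝ) else 0) - c * (if x ∈ T then sg (F (e j) x) else 0)) = _
        rw [if_neg hx]
        ring
    have e2 : ∑ x, (∑ j, v j * (if e j = x then (1 : ℝ) else 0)) ^ 2 = V := by
      calc ∑ x, (∑ j, v j * (if e j = x then (1 : ℝ) else 0)) ^ 2
          = ∑ x, ∑ j, ∑ l, (v j * v l) * ((if e j = x then (1 : ℝ) else 0) *
            (if e l = x then (1 : ℝ) else 0)) := by
            refine sum_congr rfl fun x _ => ?_
            rw [sq, sum_mul_sum]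
            exact sum_congr rfl fun j _ => sum_congr rfl fun l _ => by ring
        _ = ∑ j, ∑ x, ∑ l, (v j * v l) * ((if e j = x then (1 : ℝ) else 0) *
            (if e l = x then (1 : ℝ) else 0)) := sum_comm
        _ = ∑ j, ∑ l, ∑ x, (v j * v l) * ((if e j = x then (1 : ℝ) else 0) *
            (if e l = x then (1 : ℝ) else 0)) := sum_congr rfl fun j _ => sum_comm
        _ = ∑ j, ∑ l, (v j * v l) * (if j = l then 1 else 0) := by
            refine sum_congr rfl fun j _ => sum_congr rfl fun l _ => ?_
            rw [← mul_sum]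
            congr 1
            by_cases hjl : j = l
            · subst hjl
              simp
            · rw [if_neg hjl]
              refine sum_eq_zero fun x _ => ?_
              by_cases h2 : e j = x
              · have h3 : e l ≠ x := fun h => hjl (he (h2.trans h.symm))
                rw [if_neg h3, mul_zero]
              · rw [if_neg h2, zero_mul]
        _ = V := by
            rw [hV]
            refine sum_congr rfl fun j _ => ?_
            simp only [mul_ite, mul_one, mul_zero, sum_ite_eq, mem_univ, if_true]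
            ring
    have e3 : ∑ x, (if x ∈ T then c * ∑ j, v j * sg (F (e j) x) else 0) ^ 2 = V := by
      have e4 : ∀ x, (if x ∈ T then c * ∑ j, v j * sg (F (e j) x) else 0) ^ 2 =
          if x ∈ T then (c * ∑ j, v j * sg (F (e j) x)) ^ 2 else 0 := by
        intro x
        split_ifs
        · rfl
        · norm_num
      rw [sum_congr rfl fun x _ => e4 x, sum_ite_mem, univ_inter]
      calc ∑ x ∈ T, (c * ∑ j, v j * sg (F (e j) x)) ^ 2
          = ∑ x ∈ T, ∑ j, ∑ l, (c ^ 2 * (v j * v l)) * (sg (F (e j) x) * sg (F (e l) x)) := by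
            refine sum_congr rfl fun x _ => ?_
            rw [mul_pow, sq (∑ j, v j * sg (F (e j) x)), sum_mul_sum, mul_sum]
            refine sum_congr rfl fun j _ => ?_
            rw [mul_sum]
            exact sum_congr rfl fun l _ => by ring
        _ = ∑ j, ∑ x ∈ T, ∑ l, (c ^ 2 * (v j * v l)) * (sg (F (e j) x) * sg (F (e l) x)) :=
            sum_comm
        _ = ∑ j, ∑ l, ∑ x ∈ T, (c ^ 2 * (v j * v l)) * (sg (F (e j) x) * sg (F (e l) x)) :=
            sum_congr rfl fun j _ => sum_comm
        _ = ∑ j, ∑ l, (c ^ 2 * (v j * v l)) * (if j = l then τ else 0) := by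
            refine sum_congr rfl fun j _ => sum_congr rfl fun l _ => ?_
            rw [← mul_sum, hs2]
        _ = V := by
            rw [hV]
            refine sum_congr rfl fun j _ => ?_
            simp only [mul_ite, mul_zero, sum_ite_eq, mem_univ, if_true]
            calc c ^ 2 * (v j * v j) * τ = (c ^ 2 * τ) * v j ^ 2 := by ring
              _ = v j ^ 2 := by rw [hc2, one_mul]
    calc ∑ x, w x ^ 2 ≤ ∑ x, (2 * (∑ j, v j * (if e j = x then (1 : ℝ) else 0)) ^ 2 +
          2 * (if x ∈ T then c * ∑ j, v j * sg (F (e j) x) else 0) ^ 2) := by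
          refine sum_le_sum fun x _ => ?_
          rw [e1 x]
          set A := ∑ j, v j * (if e j = x then (1 : ℝ) else 0)
          set B := (if x ∈ T then c * ∑ j, v j * sg (F (e j) x) else 0)
          nlinarith [sq_nonneg (A + B)]
      _ = 4 * V := by
          rw [sum_add_distrib, ← mul_sum, ← mul_sum, e2, e3]
          ring
  rw [hquad] at h1
  have h2 : Real.sqrt τ ≤ k + 1 + 4 * lam := by
    have h3 : lam * ∑ x, w x ^ 2 ≤ lam * (4 * V) := mul_le_mul_of_nonneg_left hnorm hlam
    rw [hcτ] at h1
    have h4 : Real.sqrt τ * V ≤ (k + 1 + 4 * lam) * V := by linarith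
    exact le_of_mul_le_mul_right h4 hV0
  have h5 : τ ≤ ((k : ℝ) + 1 + 4 * lam) ^ 2 := by
    rw [← hsq2]
    exact pow_le_pow_left₀ hsq0.le h2 2
  linarith

/-- **The size of a constant principal submatrix without equal rows.** -/
theorem block_le (F : X → X → Bool) (hsym : ∀ x y, F x y = F y x) (k : ℕ) (lam : ℝ)
    (hlam : 0 ≤ lam) (hfew : Few (comm F) k lam) (Q : Finset X) (a : Bool)
    (hQ : ∀ x ∈ Q, ∀ y ∈ Q, F x y = a) (R : Finset X)
    (hR : ∀ y ∈ Q, ∀ y' ∈ Q, (∀ x ∈ R, F x y = F x y') → y = y') (t : ℕ)
    (ht : ((k : ℝ) + 1 + 4 * lam) ^ 2 < (t + 1) * 2 ^ (k + 1)) :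
    Q.card ≤ ∑ i ∈ range (k + 1), R.card.choose i + t * R.card.choose (k + 1) := by
  classical
  by_contra hcon
  push Not at hcon
  let s : X → Finset R := fun y => univ.filter (fun x : R => F x.1 y = true)
  have hinj : Set.InjOn s Q := by
    intro y hy y' hy' h
    refine hR y hy y' hy' fun x hx => ?_
    have h1 : (⟨x, hx⟩ : R) ∈ s y ↔ (⟨x, hx⟩ : R) ∈ s y' := by rw [h]
    simp only [s, mem_filter, mem_univ, true_and] at h1
    cases h2 : F x y <;> cases h3 : F x y' <;> simp_all
  obtain ⟨K, hKc, hK⟩ := sauer_mult (Q.image s) (k + 1) t (by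
    rw [card_image_of_injOn hinj, Fintype.card_coe]
    exact hcon)
  -- the patterns
  have hpat : ∀ p : K → Bool, ∃ U ⊆ Q.filter (fun y => (fun j : K => F j.1.1 y) = p),
      U.card = t + 1 := by
    intro p
    apply exists_subset_card_eq
    set p' : Finset R := (univ.filter (fun j : K => p j = true)).image (fun j => j.1) with hp'
    have hp'K : p' ⊆ K := by
      intro x hx
      rw [hp', mem_image] at hx
      obtain ⟨j, _, rfl⟩ := hx
      exact j.2
    have h1 := hK p' hp'K
    have h2 : (Q.image s).filter (fun A => K ∩ A = p') ⊆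
        (Q.filter (fun y => (fun j : K => F j.1.1 y) = p)).image s := by
      intro A hA
      rw [mem_filter, mem_image] at hA
      obtain ⟨⟨y, hy, rfl⟩, hA2⟩ := hA
      rw [mem_image]
      refine ⟨y, ?_, rfl⟩
      rw [mem_filter]
      refine ⟨hy, ?_⟩
      funext j
      have h3 : j.1 ∈ K ∩ s y ↔ j.1 ∈ p' := by rw [hA2]
      rw [mem_inter, hp', mem_image] at h3
      simp only [s, mem_filter, mem_univ, true_and] at h3
      have h4 : (∃ i : K, p i = true ∧ i.1 = j.1) ↔ p j = true := by
        constructor
        · rintro ⟨i, hi, hij⟩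
          rwa [Subtype.ext hij] at hi
        · intro h
          exact ⟨j, h, rfl⟩
      rw [h4] at h3
      have h5 : F j.1.1 y = true ↔ p j = true := by
        constructor
        · intro h
          exact h3.mp ⟨j.2, h⟩
        · intro h
          exact (h3.mpr h).2
      cases h6 : F j.1.1 y <;> cases h7 : p j <;> simp_all
    have h3 := (card_le_card h2).trans card_image_le
    omega
  choose U hU hUc using hpat
  refine no_shatter F hsym k lam hlam hfew (univ.biUnion U) a ?_ (κ := K) (by simpa using hKc)
    (fun j => j.1.1) (fun i j h => Subtype.ext (Subtype.ext h)) t ht ?_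
  · intro x hx y hy
    rw [mem_biUnion] at hx hy
    obtain ⟨p, _, hp⟩ := hx
    obtain ⟨q, _, hq⟩ := hy
    exact hQ x (mem_filter.mp (hU p hp)).1 y (mem_filter.mp (hU q hq)).1
  · intro p
    rw [← hUc p]
    congr 1
    ext y
    rw [mem_filter, mem_biUnion]
    constructor
    · rintro ⟨⟨q, _, hq⟩, hy⟩
      have h1 := (mem_filter.mp (hU q hq)).2
      have h2 : q = p := h1.symm.trans hy
      rwa [h2] at hq
    · intro hy
      exact ⟨⟨p, mem_univ _, hy⟩, (mem_filter.mp (hU p hy)).2⟩

end

end Pool.Agent.U322.LR
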