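import Pool.Agent.R533.VC.Err

/-!
Spectral decompositions of symmetric Boolean matrices of which few eigenvalues are below `-lam`.
-/

set_option autoImplicit false
set_option linter.unusedSectionVars false

namespace Pool.Agent.U322.LR

open Finset Pool.Agent.H630R2.LR

section
variable {X : Type} [Fintype X] [DecidableEq X]

/-- On the common kernel of at most `k` functionals the quadratic form is at least `-lam |v|²`. -/
def Few {X : Type} [Fintype X] (A : X → X → ℝ) (k : ℕ) (lam : ℝ) : Prop :=
  ∃ (ι : Type) (_ : Fintype ι) (f : ι → X → ℝ), Fintype.card ι ≤ k ∧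
    ∀ v : X → ℝ, (∀ j, ∑ x, f j x * v x = 0) →
      -lam * ∑ x, v x ^ 2 ≤ ∑ x, ∑ y, v x * v y * A x y

/-- the coordinates of the eigenvectors -/
noncomputable def ev {M : Matrix X X ℝ} (hM : M.IsHermitian) (i x : X) : ℝ :=
  hM.eigenvectorBasis i x

theorem ev_decomp {M : Matrix X X ℝ} (hM : M.IsHermitian) (x y : X) :
    M x y = ∑ i, hM.eigenvalues i * (ev hM i x * ev hM i y) := by
  have h := hM.spectral_theorem
  have h2 := congrFun (congrFun h x) y
  rw [h2, Unitary.conjStarAlgAut_apply, Matrix.mul_apply]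
  refine sum_congr rfl fun i _ => ?_
  rw [Matrix.mul_diagonal]
  simp only [Matrix.star_apply, Matrix.IsHermitian.eigenvectorUnitary_apply, ev, Function.comp,
    star_trivial]
  simp only [RCLike.ofReal_real_eq_id, id]
  ring

theorem ev_orth {M : Matrix X X ℝ} (hM : M.IsHermitian) (i j : X) :
    ∑ x, ev hM i x * ev hM j x = if i = j then 1 else 0 := by
  have h := orthonormal_iff_ite.mp hM.eigenvectorBasis.orthonormal i j
  rw [← h, PiLp.inner_apply]
  refine sum_congr rfl fun x _ => ?_
  simp [ev, mul_comm]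

theorem ev_parseval {M : Matrix X X ℝ} (hM : M.IsHermitian) (w : X → ℝ) :
    ∑ i, (∑ x, ev hM i x * w x) ^ 2 = ∑ x, w x ^ 2 := by
  have h := hM.eigenvectorBasis.sum_sq_inner_right (WithLp.toLp 2 w)
  rw [EuclideanSpace.norm_sq_eq] at h
  simp only [Real.norm_eq_abs, sq_abs] at h
  rw [← h]
  refine sum_congr rfl fun i _ => ?_
  congr 1
  rw [PiLp.inner_apply]
  refine sum_congr rfl fun x _ => ?_
  simp [ev, mul_comm]

theorem quad {M : Matrix X X ℝ} (hM : M.IsHermitian) (w : X → ℝ) :
    ∑ x, ∑ y, w x * w y * M x y = ∑ i, hM.eigenvalues i * (∑ x, ev hM i x * w x) ^ 2 := by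
  calc ∑ x, ∑ y, w x * w y * M x y
      = ∑ x, ∑ y, ∑ i, hM.eigenvalues i * ((ev hM i x * w x) * (ev hM i y * w y)) := by
        refine sum_congr rfl fun x _ => sum_congr rfl fun y _ => ?_
        rw [ev_decomp hM x y, mul_sum]
        exact sum_congr rfl fun i _ => by ring
    _ = ∑ i, ∑ x, ∑ y, hM.eigenvalues i * ((ev hM i x * w x) * (ev hM i y * w y)) := by
        rw [sum_comm]
        calc ∑ y, ∑ x, ∑ i, hM.eigenvalues i * ((ev hM i x * w x) * (ev hM i y * w y))
            = ∑ y, ∑ i, ∑ x, hM.eigenvalues i * ((ev hM i x * w x) * (ev hM i y * w y)) :=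
              sum_congr rfl fun y _ => sum_comm
          _ = ∑ i, ∑ y, ∑ x, hM.eigenvalues i * ((ev hM i x * w x) * (ev hM i y * w y)) :=
              sum_comm
          _ = _ := sum_congr rfl fun i _ => sum_comm
    _ = _ := by
        refine sum_congr rfl fun i _ => ?_
        rw [sq, sum_mul_sum, mul_sum]
        exact sum_congr rfl fun x _ => by rw [mul_sum]

theorem few_of_eigenvalues {M : Matrix X X ℝ} (hM : M.IsHermitian) (k : ℕ) (lam : ℝ)
    (h : (univ.filter (fun i => hM.eigenvalues i < -lam)).card ≤ k) : Few M k lam := by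
  refine ⟨univ.filter (fun i => hM.eigenvalues i < -lam), inferInstance,
    fun i x => ev hM i.1 x, by rw [Fintype.card_coe]; exact h, fun v hv => ?_⟩
  rw [quad hM v, ← ev_parseval hM v, mul_sum]
  refine sum_le_sum fun i _ => ?_
  by_cases hi : hM.eigenvalues i < -lam
  · have h1 := hv ⟨i, by simpa using hi⟩
    simp only at h1
    rw [h1]
    simp
  · push Not at hi
    exact mul_le_mul_of_nonneg_right hi (sq_nonneg _)

/-- the sum of the squares of the eigenvalues -/
theorem sum_sq {M : Matrix X X ℝ} (hM : M.IsHermitian) :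
    ∑ i, hM.eigenvalues i ^ 2 = ∑ x, ∑ y, M x y ^ 2 := by
  have h1 : ∀ i j, ∑ x, ∑ y, (ev hM i x * ev hM i y) * (ev hM j x * ev hM j y) =
      if i = j then 1 else 0 := by
    intro i j
    have e1 : ∑ x, ∑ y, (ev hM i x * ev hM i y) * (ev hM j x * ev hM j y) =
        (∑ x, ev hM i x * ev hM j x) * (∑ y, ev hM i y * ev hM j y) := by
      rw [sum_mul_sum]
      exact sum_congr rfl fun x _ => sum_congr rfl fun y _ => by ring
    rw [e1, ev_orth]
    split_ifs <;> norm_num
  have h2 : ∀ i, ∑ x, ∑ y, M x y * (ev hM i x * ev hM i y) = hM.eigenvalues i := by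
    intro i
    have e1 := quad hM (fun x => ev hM i x)
    have e2 : ∑ x, ∑ y, M x y * (ev hM i x * ev hM i y) =
        ∑ x, ∑ y, ev hM i x * ev hM i y * M x y :=
      sum_congr rfl fun x _ => sum_congr rfl fun y _ => by ring
    rw [e2, e1]
    simp_rw [ev_orth]
    simp
  calc ∑ i, hM.eigenvalues i ^ 2
      = ∑ i, hM.eigenvalues i * ∑ x, ∑ y, M x y * (ev hM i x * ev hM i y) := by
        refine sum_congr rfl fun i _ => ?_
        rw [h2 i, sq]
    _ = ∑ i, ∑ x, ∑ y, M x y * (hM.eigenvalues i * (ev hM i x * ev hM i y)) := by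
        refine sum_congr rfl fun i _ => ?_
        rw [mul_sum]
        refine sum_congr rfl fun x _ => ?_
        rw [mul_sum]
        exact sum_congr rfl fun y _ => by ring
    _ = ∑ x, ∑ i, ∑ y, M x y * (hM.eigenvalues i * (ev hM i x * ev hM i y)) := sum_comm
    _ = ∑ x, ∑ y, ∑ i, M x y * (hM.eigenvalues i * (ev hM i x * ev hM i y)) :=
        sum_congr rfl fun x _ => sum_comm
    _ = _ := by
        refine sum_congr rfl fun x _ => sum_congr rfl fun y _ => ?_
        rw [← mul_sum, ← ev_decomp hM x y, sq]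

/-- the negative eigenvalues of a scaled matrix: few are below `-τ` -/
theorem few_big (A : Matrix X X ℝ) (k : ℕ) (lam τ : ℝ) (d : X → ℝ) (hA : Few A k lam)
    (hd : ∀ x, lam * d x ^ 2 ≤ τ) {B : Matrix X X ℝ} (hB : B.IsHermitian)
    (hBA : ∀ x y, B x y = d x * d y * A x y) :
    (univ.filter (fun i => hB.eigenvalues i < -τ)).card ≤ k := by
  obtain ⟨ι, _, f, hι, hf⟩ := hA
  by_contra hcon
  push Not at hcon
  set I := univ.filter (fun i => hB.eigenvalues i < -τ) with hI
  -- the functionals on the span of the eigenvectors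
  let L : (I → ℝ) →ₗ[ℝ] (ι → ℝ) :=
    { toFun := fun c j => ∑ x, f j x * (d x * ∑ i : I, c i * ev hB i.1 x)
      map_add' := fun c c' => by
        funext j
        simp only [Pi.add_apply]
        rw [← sum_add_distrib]
        refine sum_congr rfl fun x _ => ?_
        simp only [add_mul, sum_add_distrib]
        ring
      map_smul' := fun t c => by
        funext j
        simp only [Pi.smul_apply, smul_eq_mul, RingHom.id_apply]
        rw [mul_sum]
        refine sum_congr rfl fun x _ => ?_
        have : ∑ i : I, t * c i * ev hB i.1 x = t * ∑ i : I, c i * ev hB i.1 x := by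
          rw [mul_sum]
          exact sum_congr rfl fun i _ => by ring
        rw [this]
        ring }
  have hker : LinearMap.ker L ≠ ⊥ := by
    apply LinearMap.ker_ne_bot_of_finrank_lt
    rw [Module.finrank_fintype_fun_eq_card, Module.finrank_fintype_fun_eq_card]
    rw [Fintype.card_coe]
    omega
  obtain ⟨c, hc, hc0⟩ := (Submodule.ne_bot_iff _).mp hker
  set c' : X → ℝ := fun i => if h : i ∈ I then c ⟨i, h⟩ else 0 with hc'
  set u : X → ℝ := fun x => ∑ i, c' i * ev hB i x with hu
  have hu' : ∀ x, ∑ i : I, c i * ev hB i.1 x = u x := by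
    intro x
    rw [hu]
    simp only
    rw [← sum_subset (subset_univ I) (fun i _ hi => by rw [hc']; simp only [hi, dif_neg,
      not_false_eq_true, zero_mul]), ← sum_coe_sort I]
    refine sum_congr rfl fun i _ => ?_
    rw [hc']
    simp only [i.2, dif_pos]
  have hin : ∀ i, ∑ x, ev hB i x * u x = c' i := by
    intro i
    calc ∑ x, ev hB i x * u x = ∑ x, ∑ j, c' j * (ev hB i x * ev hB j x) := by
          refine sum_congr rfl fun x _ => ?_
          rw [hu]
          simp only
          rw [mul_sum]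
          exact sum_congr rfl fun j _ => by ring
      _ = ∑ j, ∑ x, c' j * (ev hB i x * ev hB j x) := sum_comm
      _ = ∑ j, c' j * (if i = j then 1 else 0) := by
          refine sum_congr rfl fun j _ => ?_
          rw [← mul_sum, ev_orth]
      _ = c' i := by simp
  have h1 := hf (fun x => d x * u x) (fun j => by
    have := congrFun (LinearMap.mem_ker.mp hc) j
    have h2 : ∑ x, f j x * (d x * ∑ i : I, c i * ev hB i.1 x) = 0 := this
    rw [← h2]
    exact sum_congr rfl fun x _ => by rw [hu' x])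
  have h2 : ∑ x, ∑ y, (d x * u x) * (d y * u y) * A x y = ∑ i, hB.eigenvalues i * c' i ^ 2 := by
    have e := quad hB u
    simp_rw [hin] at e
    rw [← e]
    refine sum_congr rfl fun x _ => sum_congr rfl fun y _ => ?_
    rw [hBA]
    ring
  have h3 : ∑ x, u x ^ 2 = ∑ i, c' i ^ 2 := by
    rw [← ev_parseval hB u]
    simp_rw [hin]
  have h4 : lam * ∑ x, (d x * u x) ^ 2 ≤ τ * ∑ i, c' i ^ 2 := by
    rw [← h3, mul_sum, mul_sum]
    refine sum_le_sum fun x _ => ?_
    have := mul_le_mul_of_nonneg_right (hd x) (sq_nonneg (u x))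
    calc lam * (d x * u x) ^ 2 = lam * d x ^ 2 * u x ^ 2 := by ring
      _ ≤ _ := this
  have h5 : ∑ i, hB.eigenvalues i * c' i ^ 2 < ∑ i, (-τ) * c' i ^ 2 := by
    refine sum_lt_sum (fun i _ => ?_) ?_
    · by_cases hi : i ∈ I
      · have : hB.eigenvalues i < -τ := by
          rw [hI, mem_filter] at hi
          exact hi.2
        exact mul_le_mul_of_nonneg_right this.le (sq_nonneg _)
      · have : c' i = 0 := by rw [hc']; simp only [hi, dif_neg, not_false_eq_true]
        rw [this]
        simp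
    · have hne : ∃ i : I, c i ≠ 0 := by
        by_contra hcon2
        push Not at hcon2
        exact hc0 (funext hcon2)
      obtain ⟨i, hi⟩ := hne
      refine ⟨i.1, mem_univ _, ?_⟩
      have e1 : c' i.1 = c i := by rw [hc']; simp only [i.2, dif_pos]
      have e2 : hB.eigenvalues i.1 < -τ := (mem_filter.mp i.2).2
      rw [e1]
      exact mul_lt_mul_of_pos_right e2 (by positivity)
  rw [← mul_sum] at h5
  rw [h2] at h1
  linarith

/-- the sum of the absolute values of the eigenvalues of a scaled matrix -/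
theorem trace_norm (A : Matrix X X ℝ) (hA01 : ∀ x y, 0 ≤ A x y ∧ A x y ≤ 1) (k r : ℕ)
    (lam : ℝ) (d : X → ℝ) (hA : Few A k lam) (hr : A.rank ≤ r) (hr1 : 1 ≤ r)
    (hd : ∀ x, lam * d x ^ 2 ≤ 1 / r) (hd1 : ∑ x, d x ^ 2 ≤ 1)
    {B : Matrix X X ℝ} (hB : B.IsHermitian) (hBA : ∀ x y, B x y = d x * d y * A x y) :
    ∑ i, |hB.eigenvalues i| ≤ 3 + 2 * Real.sqrt k := by
  have hr0 : (0 : ℝ) < r := by exact_mod_cast hr1
  have h1 := few_big A k lam (1 / r) d hA hd hB hBA
  set I := univ.filter (fun i => hB.eigenvalues i < -(1 / (r : ℝ))) with hI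
  -- the trace
  have h2 : ∑ i, hB.eigenvalues i ≤ 1 := by
    have e := hB.trace_eq_sum_eigenvalues
    simp only [RCLike.ofReal_real_eq_id, id] at e
    rw [← e, Matrix.trace]
    calc ∑ x, B x x ≤ ∑ x, d x ^ 2 := by
          refine sum_le_sum fun x _ => ?_
          rw [hBA, ← sq]
          exact mul_le_of_le_one_right (sq_nonneg _) (hA01 x x).2
      _ ≤ 1 := hd1
  -- the squares
  have h3 : ∑ i, hB.eigenvalues i ^ 2 ≤ 1 := by
    rw [sum_sq hB]
    calc ∑ x, ∑ y, B x y ^ 2 ≤ ∑ x, ∑ y, d x ^ 2 * d y ^ 2 := by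
          refine sum_le_sum fun x _ => sum_le_sum fun y _ => ?_
          rw [hBA]
          have e1 : A x y ^ 2 ≤ 1 := by
            have := hA01 x y
            nlinarith
          calc (d x * d y * A x y) ^ 2 = (d x ^ 2 * d y ^ 2) * A x y ^ 2 := by ring
            _ ≤ (d x ^ 2 * d y ^ 2) * 1 := mul_le_mul_of_nonneg_left e1 (by positivity)
            _ = _ := mul_one _
      _ = (∑ x, d x ^ 2) * ∑ y, d y ^ 2 := by rw [sum_mul_sum]
      _ ≤ 1 * 1 := mul_le_mul hd1 hd1 (sum_nonneg fun _ _ => sq_nonneg _) (by norm_num)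
      _ = 1 := by norm_num
  -- the big negative eigenvalues
  have h4 : ∑ i ∈ I, |hB.eigenvalues i| ≤ Real.sqrt k := by
    apply Real.le_sqrt_of_sq_le
    calc (∑ i ∈ I, |hB.eigenvalues i|) ^ 2 ≤ I.card * ∑ i ∈ I, |hB.eigenvalues i| ^ 2 :=
          sq_sum_le_card_mul_sum_sq
      _ ≤ k * 1 := by
          refine mul_le_mul (by exact_mod_cast h1) ?_ (sum_nonneg fun _ _ => sq_nonneg _)
            (Nat.cast_nonneg _)
          refine le_trans ?_ h3
          simp_rw [sq_abs]
          exact sum_le_sum_of_subset_of_nonneg (subset_univ _) fun _ _ _ => sq_nonneg _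
      _ = k := mul_one _
  -- the small negative eigenvalues
  set J := univ.filter (fun i => -(1 / (r : ℝ)) ≤ hB.eigenvalues i ∧ hB.eigenvalues i < 0) with hJ
  have h5 : ∑ i ∈ J, |hB.eigenvalues i| ≤ 1 := by
    have hBr : B.rank ≤ r := by
      refine le_trans ?_ hr
      have e : B = Matrix.diagonal d * A * Matrix.diagonal d := by
        ext x y
        rw [Matrix.mul_diagonal, Matrix.diagonal_mul, hBA]
        ring
      rw [e]
      exact (Matrix.rank_mul_le_left _ _).trans (Matrix.rank_mul_le_right _ _)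
    have hJc : J.card ≤ r := by
      refine le_trans ?_ hBr
      rw [hB.rank_eq_card_non_zero_eigs, Fintype.card_subtype]
      refine card_le_card fun i hi => ?_
      rw [hJ, mem_filter] at hi
      rw [mem_filter]
      exact ⟨mem_univ _, hi.2.2.ne⟩
    calc ∑ i ∈ J, |hB.eigenvalues i| ≤ ∑ i ∈ J, 1 / (r : ℝ) := by
          refine sum_le_sum fun i hi => ?_
          rw [hJ, mem_filter] at hi
          rw [abs_of_neg hi.2.2]
          linarith [hi.2.1]
      _ = J.card * (1 / (r : ℝ)) := by rw [sum_const, nsmul_eq_mul]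
      _ ≤ r * (1 / (r : ℝ)) := mul_le_mul_of_nonneg_right (by exact_mod_cast hJc) (by positivity)
      _ = 1 := by field_simp
  -- all
  have h6 : ∀ i, |hB.eigenvalues i| = hB.eigenvalues i +
      2 * ((if i ∈ I then |hB.eigenvalues i| else 0) + if i ∈ J then |hB.eigenvalues i| else 0) := by
    intro i
    have hIi : i ∈ I ↔ hB.eigenvalues i < -(1 / (r : ℝ)) := by rw [hI]; simp
    have hJi : i ∈ J ↔ -(1 / (r : ℝ)) ≤ hB.eigenvalues i ∧ hB.eigenvalues i < 0 := by rw [hJ]; simp
    have h0 : (0 : ℝ) < 1 / r := by positivity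
    rcases lt_or_ge (hB.eigenvalues i) 0 with hneg | hpos
    · rw [abs_of_neg hneg]
      by_cases hb : hB.eigenvalues i < -(1 / (r : ℝ))
      · rw [if_pos (hIi.mpr hb), if_neg (fun h => absurd (hJi.mp h).1 (not_le.mpr hb))]
        ring
      · rw [if_neg (fun h => hb (hIi.mp h)), if_pos (hJi.mpr ⟨not_lt.mp hb, hneg⟩)]
        ring
    · rw [abs_of_nonneg hpos, if_neg (fun h => by have := hIi.mp h; linarith),
        if_neg (fun h => by have := (hJi.mp h).2; linarith)]
      ring
  rw [sum_congr rfl fun i _ => h6 i, sum_add_distrib, ← mul_sum, sum_add_distrib, ← sum_filter,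
    ← sum_filter]
  have e1 : univ.filter (fun i => i ∈ I) = I := by simp
  have e2 : univ.filter (fun i => i ∈ J) = J := by simp
  rw [e1, e2]
  linarith

end

end Pool.Agent.U322.LR
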