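import Pool.Agent.U322.LR.Spec
import Pool.Agent.U322.LR.Round

/-!
Factorizations of the submatrices of a Boolean matrix with few large singular values.
-/

set_option autoImplicit false
set_option linter.unusedSectionVars false

namespace Pool.Agent.U322.LR

open Finset Pool.Agent.H630R2.LR Pool.Agent.R533.VC
open scoped RealInnerProductSpace

section factor
variable {Z : Type} [Fintype Z] [DecidableEq Z]

/-- a symmetric matrix as a matrix of inner products -/
theorem factor {B : Matrix Z Z ℝ} (hB : B.IsHermitian) :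
    ∃ c c' : Z → EuclideanSpace ℝ Z, (∀ z z', ⟪c z, c' z'⟫ = B z z') ∧
      (∀ z, ‖c' z‖ ^ 2 ≤ ‖c z‖ ^ 2) ∧ ∑ z, ‖c z‖ ^ 2 = ∑ i, |hB.eigenvalues i| := by
  set μ := hB.eigenvalues with hμ
  refine ⟨fun z => WithLp.toLp 2 (fun i => Real.sqrt |μ i| * ev hB i z),
    fun z => WithLp.toLp 2 (fun i => SignType.sign (μ i) * (Real.sqrt |μ i| * ev hB i z)),
    fun z z' => ?_, fun z => ?_, ?_⟩
  · rw [PiLp.inner_apply, ev_decomp hB z z']
    refine sum_congr rfl fun i _ => ?_
    simp only [RCLike.inner_apply, conj_trivial]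
    have e2 : (SignType.sign (μ i) : ℝ) * (Real.sqrt |μ i| * Real.sqrt |μ i|) = μ i := by
      rw [Real.mul_self_sqrt (abs_nonneg _)]
      exact sign_mul_abs _
    calc (SignType.sign (μ i) : ℝ) * (Real.sqrt |μ i| * ev hB i z') *
          (Real.sqrt |μ i| * ev hB i z)
        = ((SignType.sign (μ i) : ℝ) * (Real.sqrt |μ i| * Real.sqrt |μ i|)) *
          (ev hB i z * ev hB i z') := by ring
      _ = _ := by rw [e2]
  · rw [EuclideanSpace.norm_sq_eq, EuclideanSpace.norm_sq_eq]
    refine sum_le_sum fun i _ => ?_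
    simp only [Real.norm_eq_abs, sq_abs]
    rw [mul_pow]
    have : ((SignType.sign (μ i) : ℝ)) ^ 2 ≤ 1 := by
      rcases lt_trichotomy (μ i) 0 with h | h | h
      · rw [sign_neg h]; norm_num
      · rw [h, sign_zero]; norm_num
      · rw [sign_pos h]; norm_num
    exact mul_le_of_le_one_left (sq_nonneg _) this
  · calc ∑ z, ‖(WithLp.toLp 2 (fun i => Real.sqrt |μ i| * ev hB i z) : EuclideanSpace ℝ Z)‖ ^ 2
        = ∑ z, ∑ i, |μ i| * ev hB i z ^ 2 := by
          refine sum_congr rfl fun z _ => ?_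
          rw [EuclideanSpace.norm_sq_eq]
          refine sum_congr rfl fun i _ => ?_
          simp only [Real.norm_eq_abs, sq_abs]
          rw [mul_pow, Real.sq_sqrt (abs_nonneg _)]
      _ = ∑ i, |μ i| * ∑ z, ev hB i z ^ 2 := by
          rw [sum_comm]
          exact sum_congr rfl fun i _ => by rw [mul_sum]
      _ = ∑ i, |μ i| := by
          refine sum_congr rfl fun i _ => ?_
          have e := ev_orth hB i i
          simp only [if_true] at e
          have e2 : ∑ x, ev hB i x ^ 2 = 1 := by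
            rw [← e]
            exact sum_congr rfl fun x _ => sq _
          rw [e2, mul_one]

/-- the trace norm of a symmetric matrix of trace zero with few eigenvalues below `-t` -/
theorem trace_norm0 {B : Matrix Z Z ℝ} (hB : B.IsHermitian) (K ρ : ℕ) (t P : ℝ) (ht : 0 ≤ t)
    (hK : (univ.filter (fun i => hB.eigenvalues i < -t)).card ≤ K) (hρ : B.rank ≤ ρ)
    (hρt : ρ * t ≤ 1) (htr : B.trace = 0) (hP : ∑ x, ∑ y, B x y ^ 2 ≤ P) :
    ∑ i, |hB.eigenvalues i| ≤ 2 * (Real.sqrt (K * P) + 1) := by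
  set I := univ.filter (fun i => hB.eigenvalues i < -t) with hI
  have h2 : ∑ i, hB.eigenvalues i = 0 := by
    have e := hB.trace_eq_sum_eigenvalues
    simp only [RCLike.ofReal_real_eq_id, id] at e
    rw [← e, htr]
  have h3 : ∑ i, hB.eigenvalues i ^ 2 ≤ P := by
    rw [sum_sq hB]
    exact hP
  have h4 : ∑ i ∈ I, |hB.eigenvalues i| ≤ Real.sqrt (K * P) := by
    apply Real.le_sqrt_of_sq_le
    calc (∑ i ∈ I, |hB.eigenvalues i|) ^ 2 ≤ I.card * ∑ i ∈ I, |hB.eigenvalues i| ^ 2 :=
          sq_sum_le_card_mul_sum_sq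
      _ ≤ K * P := by
          refine mul_le_mul (by exact_mod_cast hK) ?_ (sum_nonneg fun _ _ => sq_nonneg _)
            (Nat.cast_nonneg _)
          refine le_trans ?_ h3
          simp_rw [sq_abs]
          exact sum_le_sum_of_subset_of_nonneg (subset_univ _) fun _ _ _ => sq_nonneg _
  set J := univ.filter (fun i => -t ≤ hB.eigenvalues i ∧ hB.eigenvalues i < 0) with hJ
  have h5 : ∑ i ∈ J, |hB.eigenvalues i| ≤ 1 := by
    have hJc : J.card ≤ ρ := by
      refine le_trans ?_ hρ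
      rw [hB.rank_eq_card_non_zero_eigs, Fintype.card_subtype]
      refine card_le_card fun i hi => ?_
      rw [hJ, mem_filter] at hi
      rw [mem_filter]
      exact ⟨mem_univ _, hi.2.2.ne⟩
    calc ∑ i ∈ J, |hB.eigenvalues i| ≤ ∑ i ∈ J, t := by
          refine sum_le_sum fun i hi => ?_
          rw [hJ, mem_filter] at hi
          rw [abs_of_neg hi.2.2]
          linarith [hi.2.1]
      _ = J.card * t := by rw [sum_const, nsmul_eq_mul]
      _ ≤ ρ * t := mul_le_mul_of_nonneg_right (by exact_mod_cast hJc) ht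
      _ ≤ 1 := hρt
  have h6 : ∀ i, |hB.eigenvalues i| = hB.eigenvalues i +
      2 * ((if i ∈ I then |hB.eigenvalues i| else 0) + if i ∈ J then |hB.eigenvalues i| else 0) := by
    intro i
    have hIi : i ∈ I ↔ hB.eigenvalues i < -t := by rw [hI]; simp
    have hJi : i ∈ J ↔ -t ≤ hB.eigenvalues i ∧ hB.eigenvalues i < 0 := by rw [hJ]; simp
    rcases lt_or_ge (hB.eigenvalues i) 0 with hneg | hpos
    · rw [abs_of_neg hneg]
      by_cases hb : hB.eigenvalues i < -t
      · rw [if_pos (hIi.mpr hb), if_neg (fun h => absurd (hJi.mp h).1 (not_le.mpr hb))]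
        ring
      · rw [if_neg (fun h => hb (hIi.mp h)), if_pos (hJi.mpr ⟨not_lt.mp hb, hneg⟩)]
        ring
    · rw [abs_of_nonneg hpos, if_neg (fun h => by have := hIi.mp h; linarith),
        if_neg (fun h => by have := (hJi.mp h).2; linarith)]
      ring
  rw [sum_congr rfl fun i _ => h6 i, sum_add_distrib, ← mul_sum, sum_add_distrib, ← sum_filter,
    ← sum_filter]
  have e1 : univ.filter (fun i => i ∈ I) = I := by simp
  have e2 : univ.filter (fun i => i ∈ J) = J := by simp
  rw [e1, e2]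
  linarith

end factor

section
variable {X Y : Type} [Fintype X] [Fintype Y] [DecidableEq X] [DecidableEq Y]

/-- On the common kernel of at most `k` functionals the transposed matrix has norm at most
`lam`. -/
def Sing {X Y : Type} [Fintype X] [Fintype Y] (M : Matrix X Y ℝ) (k : ℕ) (lam : ℝ) : Prop :=
  ∃ (ι : Type) (_ : Fintype ι) (f : ι → X → ℝ), Fintype.card ι ≤ k ∧
    ∀ u : X → ℝ, (∀ j, ∑ x, f j x * u x = 0) →
      ∑ y, (∑ x, u x * M x y) ^ 2 ≤ lam ^ 2 * ∑ x, u x ^ 2

/-- the scaled submatrix -/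
noncomputable def sub (M : Matrix X Y ℝ) (S : Finset X) (T : Finset Y) (σ : ℝ) : Matrix X Y ℝ :=
  Matrix.of (fun x y => if x ∈ S ∧ y ∈ T then M x y / σ else 0)

/-- its double -/
noncomputable def dbl (m : Matrix X Y ℝ) : Matrix (X ⊕ Y) (X ⊕ Y) ℝ :=
  Matrix.fromBlocks 0 m m.transpose 0

theorem dbl_herm (m : Matrix X Y ℝ) : (dbl m).IsHermitian := by
  ext z z'
  rw [Matrix.conjTranspose_apply, star_trivial]
  rcases z with x | y <;> rcases z' with x' | y' <;> simp [dbl, Matrix.transpose_apply]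

theorem dbl_trace (m : Matrix X Y ℝ) : (dbl m).trace = 0 := by
  simp [dbl, Matrix.trace, Fintype.sum_sum_type, Matrix.diag]

theorem dbl_sq (m : Matrix X Y ℝ) :
    ∑ z, ∑ z', dbl m z z' ^ 2 = 2 * ∑ x, ∑ y, m x y ^ 2 := by
  simp only [Fintype.sum_sum_type, dbl, Matrix.fromBlocks_apply₁₁, Matrix.fromBlocks_apply₁₂,
    Matrix.fromBlocks_apply₂₁, Matrix.fromBlocks_apply₂₂, Matrix.zero_apply,
    Matrix.transpose_apply]
  have : ∑ y, ∑ x, m x y ^ 2 = ∑ x, ∑ y, m x y ^ 2 := sum_comm
  simp [this]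
  ring

theorem dbl_quad (m : Matrix X Y ℝ) (v : X ⊕ Y → ℝ) :
    ∑ z, ∑ z', v z * v z' * dbl m z z' =
      2 * ∑ y, v (Sum.inr y) * ∑ x, v (Sum.inl x) * m x y := by
  simp only [Fintype.sum_sum_type, dbl, Matrix.fromBlocks_apply₁₁, Matrix.fromBlocks_apply₁₂,
    Matrix.fromBlocks_apply₂₁, Matrix.fromBlocks_apply₂₂, Matrix.zero_apply,
    Matrix.transpose_apply, mul_zero, sum_const_zero, zero_add, add_zero]
  have e1 : ∑ x, ∑ y, v (Sum.inl x) * v (Sum.inr y) * m x y =
      ∑ y, v (Sum.inr y) * ∑ x, v (Sum.inl x) * m x y := by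
    rw [sum_comm]
    refine sum_congr rfl fun y _ => ?_
    rw [mul_sum]
    exact sum_congr rfl fun x _ => by ring
  have e2 : ∑ y, ∑ x, v (Sum.inr y) * v (Sum.inl x) * m x y =
      ∑ y, v (Sum.inr y) * ∑ x, v (Sum.inl x) * m x y := by
    refine sum_congr rfl fun y _ => ?_
    rw [mul_sum]
    exact sum_congr rfl fun x _ => by ring
  rw [e1, e2]
  ring

theorem dbl_rank (m : Matrix X Y ℝ) (ρ : ℕ) (h : m.rank ≤ ρ) : (dbl m).rank ≤ 2 * ρ := by
  have e : dbl m = (Matrix.fromRows (1 : Matrix X X ℝ) (0 : Matrix Y X ℝ)) * m *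
      (Matrix.fromCols (0 : Matrix Y X ℝ) (1 : Matrix Y Y ℝ)) +
      (Matrix.fromRows (0 : Matrix X Y ℝ) (1 : Matrix Y Y ℝ)) * m.transpose *
      (Matrix.fromCols (1 : Matrix X X ℝ) (0 : Matrix X Y ℝ)) := by
    have e1 : (Matrix.fromRows (1 : Matrix X X ℝ) (0 : Matrix Y X ℝ)) * m =
        Matrix.fromRows m 0 := by
      rw [Matrix.fromRows_mul, Matrix.one_mul, Matrix.zero_mul]
    have e2 : (Matrix.fromRows (0 : Matrix X Y ℝ) (1 : Matrix Y Y ℝ)) * m.transpose =
        Matrix.fromRows 0 m.transpose := by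
      rw [Matrix.fromRows_mul, Matrix.one_mul, Matrix.zero_mul]
    rw [e1, e2, Matrix.fromRows_mul_fromCols, Matrix.fromRows_mul_fromCols,
      Matrix.fromBlocks_add]
    simp [dbl]
  rw [e]
  refine (rank_add_le' _ _).trans ?_
  have h1 : ((Matrix.fromRows (1 : Matrix X X ℝ) (0 : Matrix Y X ℝ)) * m *
      (Matrix.fromCols (0 : Matrix Y X ℝ) (1 : Matrix Y Y ℝ))).rank ≤ ρ :=
    ((Matrix.rank_mul_le_left _ _).trans (Matrix.rank_mul_le_right _ _)).trans h
  have h2 : ((Matrix.fromRows (0 : Matrix X Y ℝ) (1 : Matrix Y Y ℝ)) * m.transpose *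
      (Matrix.fromCols (1 : Matrix X X ℝ) (0 : Matrix X Y ℝ))).rank ≤ ρ :=
    ((Matrix.rank_mul_le_left _ _).trans (Matrix.rank_mul_le_right _ _)).trans
      (by rw [Matrix.rank_transpose]; exact h)
  omega

theorem sub_rank (F : X → Y → Bool) (S : Finset X) (T : Finset Y) (σ : ℝ) :
    (sub (comm F) S T σ).rank ≤ rk F S T := by
  have e : sub (comm F) S T σ =
      (Matrix.of (fun (x : X) (x' : S) => if x = x'.1 then (1 : ℝ) else 0)) *
      (comm (fun (x : S) (y : T) => F x y)) *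
      (Matrix.of (fun (y' : T) (y : Y) => if y = y'.1 then 1 / σ else 0)) := by
    ext x y
    rw [Matrix.mul_apply]
    simp only [Matrix.mul_apply, Matrix.of_apply, sub]
    by_cases hx : x ∈ S
    · by_cases hy : y ∈ T
      · rw [if_pos ⟨hx, hy⟩]
        rw [sum_eq_single (⟨y, hy⟩ : T)]
        · rw [sum_eq_single (⟨x, hx⟩ : S)]
          · simp only [if_true, one_mul, mul_one_div]
            rfl
          · intro x' _ hne
            have : x ≠ x'.1 := fun h => hne (Subtype.ext h.symm)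
            simp [this]
          · intro h; exact absurd (mem_univ _) h
        · intro y' _ hne
          have : y ≠ y'.1 := fun h => hne (Subtype.ext h.symm)
          simp [this]
        · intro h; exact absurd (mem_univ _) h
      · rw [if_neg (fun h => hy h.2)]
        symm
        refine sum_eq_zero fun y' _ => ?_
        have : y ≠ y'.1 := fun h => hy (h ▸ y'.2)
        simp [this]
    · rw [if_neg (fun h => hx h.1)]
      symm
      refine sum_eq_zero fun y' _ => ?_
      have e1 : ∑ x' : S, (if x = x'.1 then (1 : ℝ) else 0) *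
          comm (fun (x : S) (y : T) => F x y) x' y' = 0 := by
        refine sum_eq_zero fun x' _ => ?_
        have : x ≠ x'.1 := fun h => hx (h ▸ x'.2)
        simp [this]
      rw [e1, zero_mul]
  rw [e]
  exact (Matrix.rank_mul_le_left _ _).trans (Matrix.rank_mul_le_right _ _)

theorem sub_few (M : Matrix X Y ℝ) (k : ℕ) (lam : ℝ) (hlam : 0 ≤ lam) (h : Sing M k lam)
    (S : Finset X) (T : Finset Y) (σ : ℝ) (hσ : 0 < σ) : Few (dbl (sub M S T σ)) k (lam / σ) := by
  obtain ⟨ι, _, f, hι, hf⟩ := h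
  refine ⟨ι, inferInstance, fun j => Sum.elim (fun x => if x ∈ S then f j x else 0) (fun _ => 0),
    hι, fun v hv => ?_⟩
  set u : X → ℝ := fun x => if x ∈ S then v (Sum.inl x) else 0 with hu
  have h1 := hf u (fun j => by
    have := hv j
    rw [Fintype.sum_sum_type] at this
    simp only [Sum.elim_inl, Sum.elim_inr, zero_mul, sum_const_zero, add_zero] at this
    rw [← this]
    refine sum_congr rfl fun x _ => ?_
    rw [hu]
    simp only
    split_ifs <;> simp)
  rw [dbl_quad]
  set g : Y → ℝ := fun y => ∑ x, v (Sum.inl x) * sub M S T σ x y with hg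
  have hgu : ∀ y, g y ^ 2 ≤ (∑ x, u x * M x y) ^ 2 / σ ^ 2 := by
    intro y
    by_cases hy : y ∈ T
    · have : g y = (∑ x, u x * M x y) / σ := by
        rw [hg, sum_div]
        refine sum_congr rfl fun x _ => ?_
        rw [hu]
        simp only [sub, Matrix.of_apply]
        by_cases hx : x ∈ S
        · rw [if_pos ⟨hx, hy⟩, if_pos hx]
          ring
        · rw [if_neg (fun h => hx h.1), if_neg hx]
          simp
      rw [this, div_pow]
    · have : g y = 0 := by
        rw [hg]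
        refine sum_eq_zero fun x _ => ?_
        simp only [sub, Matrix.of_apply]
        rw [if_neg (fun h => hy h.2), mul_zero]
      rw [this, zero_pow two_ne_zero]
      positivity
  have hg2 : ∑ y, g y ^ 2 ≤ (lam / σ) ^ 2 * ∑ x, v (Sum.inl x) ^ 2 := by
    calc ∑ y, g y ^ 2 ≤ ∑ y, (∑ x, u x * M x y) ^ 2 / σ ^ 2 := sum_le_sum fun y _ => hgu y
      _ = (∑ y, (∑ x, u x * M x y) ^ 2) / σ ^ 2 := by rw [sum_div]
      _ ≤ (lam ^ 2 * ∑ x, u x ^ 2) / σ ^ 2 := by gcongr
      _ = (lam / σ) ^ 2 * ∑ x, u x ^ 2 := by rw [div_pow]; ring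
      _ ≤ (lam / σ) ^ 2 * ∑ x, v (Sum.inl x) ^ 2 := by
          refine mul_le_mul_of_nonneg_left (sum_le_sum fun x _ => ?_) (sq_nonneg _)
          rw [hu]
          simp only
          split_ifs
          · exact le_rfl
          · simpa using sq_nonneg _
  rw [Fintype.sum_sum_type]
  set U := ∑ x, v (Sum.inl x) ^ 2 with hU
  set W := ∑ y, v (Sum.inr y) ^ 2 with hW
  have hU0 : 0 ≤ U := sum_nonneg fun _ _ => sq_nonneg _
  have hW0 : 0 ≤ W := sum_nonneg fun _ _ => sq_nonneg _
  have ht : 0 ≤ lam / σ := by positivity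
  have hcs : (∑ y, v (Sum.inr y) * g y) ^ 2 ≤ W * ∑ y, g y ^ 2 :=
    sum_mul_sq_le_sq_mul_sq _ _ _
  have h2 : (2 * ∑ y, v (Sum.inr y) * g y) ^ 2 ≤ (lam / σ * (U + W)) ^ 2 := by
    have e1 : W * ∑ y, g y ^ 2 ≤ W * ((lam / σ) ^ 2 * U) := mul_le_mul_of_nonneg_left hg2 hW0
    have e2 : 4 * (W * ((lam / σ) ^ 2 * U)) ≤ (lam / σ * (U + W)) ^ 2 := by
      have : 0 ≤ (lam / σ) ^ 2 * (U - W) ^ 2 := by positivity
      nlinarith
    nlinarith
  have h3 := abs_le_of_sq_le_sq' h2 (mul_nonneg ht (add_nonneg hU0 hW0))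
  linarith [h3.1]

end

end Pool.Agent.U322.LR
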